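import Pool.Agent.PP5.Defs
import Pool.Agent.FTL.DefsL

/-!
# LBT: few points of large conductor (LB5, StF2): definitions

`P : Sp` a zero of the ten quadrics.  `f_V = (Nf P, Bf P, Mf P)` (variables `v`), `f_W = (Kf P, Bg P, Kg P)`
(variables `w`), both of discriminant `Df P`.  `z = (P 3, - P 0)` is the kernel of the linear form
`P(e1, e1; .)`, `om = R(e1; z, z)`, `om2 = R(e2; z, z)`, `tt ^ 2 = 4 Nf ^ 5 + Df om ^ 2`.
-/

set_option autoImplicit false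

namespace Pool.Agent.LBT

open Pool.Agent.PP5

/-- the third coefficient of `f_V` -/
def Mf (P : Sp) : ℤ := P 10 ^ 2 - P 9 * P 11

/-- the third coefficient of `f_W` -/
def Kg (P : Sp) : ℤ := P 4 ^ 2 - P 3 * P 5

/-- `R(e1; z, z)` -/
def om (P : Sp) : ℤ := P 6 * P 3 ^ 2 - 2 * P 7 * P 3 * P 0 + P 8 * P 0 ^ 2

/-- `R(e2; z, z)` -/
def om2 (P : Sp) : ℤ := P 9 * P 3 ^ 2 - 2 * P 10 * P 3 * P 0 + P 11 * P 0 ^ 2

/-- `tt ^ 2 = 4 Nf ^ 5 + Df om ^ 2` -/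
def tt (P : Sp) : ℤ := Bf P * om P - 2 * Nf P * om2 P

/-- change of the basis of `V`: `(e1 + s e2, e2)` -/
def TV (s : ℤ) (P : Sp) : Sp :=
  ![P 0 + 2 * s * P 1 + s ^ 2 * P 2, P 1 + s * P 2, P 2,
    P 3 + 2 * s * P 4 + s ^ 2 * P 5, P 4 + s * P 5, P 5,
    P 6 + s * P 9, P 7 + s * P 10, P 8 + s * P 11, P 9, P 10, P 11]

/-- change of the basis of `W`: `(p e1 + q e2, r e1 + s e2)` -/
def AW (p q r s : ℤ) (P : Sp) : Sp :=
  ![p * P 0 + q * P 3, p * P 1 + q * P 4, p * P 2 + q * P 5,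
    r * P 0 + s * P 3, r * P 1 + s * P 4, r * P 2 + s * P 5,
    p ^ 2 * P 6 + 2 * p * q * P 7 + q ^ 2 * P 8,
    p * r * P 6 + (p * s + q * r) * P 7 + q * s * P 8,
    r ^ 2 * P 6 + 2 * r * s * P 7 + s ^ 2 * P 8,
    p ^ 2 * P 9 + 2 * p * q * P 10 + q ^ 2 * P 11,
    p * r * P 9 + (p * s + q * r) * P 10 + q * s * P 11,
    r ^ 2 * P 9 + 2 * r * s * P 10 + s ^ 2 * P 11]

/-- `f_V = l g`, `l` odd and `g(1, 0)` prime to the discriminant -/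
structure Gl (l : ℕ) (P : Sp) : Prop where
  l1 : 1 ≤ l
  od : Odd l
  dN : (l : ℤ) ∣ Nf P
  dB : (l : ℤ) ∣ Bf P
  dM : (l : ℤ) ∣ Mf P
  cp : IsCoprime (Nf P / (l : ℤ)) (Df P)

/-- good points (`E = 2 CV ^ 2 y ^ 2` bounds `f_W` and `Mf`, `c = cD y ^ 4` bounds `- Df` from below,
`H` bounds the change of the basis) -/
structure GP (E c H : ℝ) (P : Sp) : Prop where
  qd : Qd P
  dl : c ≤ -(Df P : ℝ)
  np : 0 < Nf P
  nu : (Nf P : ℝ) ≤ E * H ^ 2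
  mp : 0 < Mf P
  mu : (Mf P : ℝ) ≤ E
  bu : |(Bf P : ℝ)| ≤ 2 * E * H
  kp : 0 < Kf P
  ku : (Kf P : ℝ) ≤ E
  gp : 0 < Kg P
  gu : (Kg P : ℝ) ≤ E
  o0 : om P ≠ 0
  gl : ∃ l : ℕ, Gl l P

/-- the data `(D, N, w, t)` of a point -/
def qF (P : Sp) : Pool.Agent.FTL.Qt := ((-(Df P)).toNat, (Nf P).toNat, om P, tt P)

end Pool.Agent.LBT
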