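import Pool.Agent.FTL.LFd
import Pool.Agent.LBT.Defs

/-!
# LBT/Cnd: the conductor

PROOF of `cnd`.  `D = (- Df P).toNat`, `E = (- d).toNat`, both `≥ 1`, `D = f ^ 2 E`, `E % 4 = 0 ∨ E % 4 = 3`.  `√D = f √E`, `f ≥ 1`, so `Kf D = Kf E`
(FTL `Kf`: `adjoin ℚ {√D i} = adjoin ℚ {f √E i}`; both inclusions, `f` and `1 / f` are rational).  `fld E`: `E = cf E ^ 2 aD (Kf E)`, `1 ≤ cf E`,
`aD ≥ 1`, so `D / aD (Kf D) = (f cf E) ^ 2`, `cf D = f cf E ≥ f` (`Nat.sqrt_eq'`).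
-/

set_option autoImplicit false

namespace Pool.Agent.LBT

open Pool.Agent.PP5 Pool.Agent.FTL

private theorem Cnd_K {D E f : ℕ} (hf : 1 ≤ f) (h : D = f ^ 2 * E) :
    Pool.Agent.FTL.Kf D = Pool.Agent.FTL.Kf E := by
  have hf0 : ((f : ℕ) : ℂ) ≠ 0 := by exact_mod_cast (by omega : f ≠ 0)
  have h1 : (√(D : ℝ) : ℝ) = f * √(E : ℝ) := by
    have h2 : (D : ℝ) = (f : ℝ) ^ 2 * (E : ℝ) := by exact_mod_cast h
    rw [h2, Real.sqrt_mul (by positivity), Real.sqrt_sq (by positivity)]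
  unfold Pool.Agent.FTL.Kf
  apply le_antisymm
  · rw [IntermediateField.adjoin_le_iff, Set.singleton_subset_iff]
    have h3 : ((√(D : ℝ) : ℝ) : ℂ) * Complex.I
        = ((f : ℕ) : ℂ) * (((√(E : ℝ) : ℝ) : ℂ) * Complex.I) := by
      rw [h1]
      push_cast
      ring
    rw [h3]
    exact mul_mem (natCast_mem _ f)
      (IntermediateField.subset_adjoin ℚ _ (Set.mem_singleton _))
  · rw [IntermediateField.adjoin_le_iff, Set.singleton_subset_iff]
    have h3 : ((√(E : ℝ) : ℝ) : ℂ) * Complex.I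
        = (((√(D : ℝ) : ℝ) : ℂ) * Complex.I) / ((f : ℕ) : ℂ) := by
      rw [h1]
      push_cast
      field_simp
    rw [h3]
    exact div_mem (IntermediateField.subset_adjoin ℚ _ (Set.mem_singleton _)) (natCast_mem _ f)

theorem cnd (P : Sp) (f : ℕ) (d : ℤ) (hD : Df P < 0) (h : Df P = (f : ℤ) ^ 2 * d)
    (h4 : d % 4 = 0 ∨ d % 4 = 1) : f ≤ cf (qF P).1 := by
  have hf : 1 ≤ f := by
    rcases Nat.eq_zero_or_pos f with h0 | h0
    · rw [h0] at h
      simp at h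
      omega
    · exact h0
  have hf2 : (0 : ℤ) < (f : ℤ) ^ 2 := by positivity
  have hd : d < 0 := by
    by_contra hcon
    push Not at hcon
    have : 0 ≤ (f : ℤ) ^ 2 * d := mul_nonneg hf2.le hcon
    omega
  obtain ⟨E, hE⟩ : ∃ E : ℕ, (E : ℤ) = -d := ⟨(-d).toNat, by omega⟩
  have hE1 : 1 ≤ E := by omega
  have hE4 : E % 4 = 0 ∨ E % 4 = 3 := by omega
  have hq : (qF P).1 = f ^ 2 * E := by
    show (-(Df P)).toNat = f ^ 2 * E
    have : -(Df P) = ((f ^ 2 * E : ℕ) : ℤ) := by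
      rw [h]
      push_cast
      rw [hE]
      ring
    rw [this, Int.toNat_natCast]
  obtain ⟨-, -, h1, h2, -⟩ := fld E hE1 hE4
  rw [hq]
  have hK := Cnd_K (D := f ^ 2 * E) (E := E) hf rfl
  have hdiv : f ^ 2 * E / Pool.Agent.FTA.aD (Pool.Agent.FTL.Kf E) = (f * cf E) ^ 2 := by
    set a := Pool.Agent.FTA.aD (Pool.Agent.FTL.Kf E) with ha
    have ha0 : 0 < a := by
      rcases Nat.eq_zero_or_pos a with h0 | h0
      · rw [h0, mul_zero] at h1
        omega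
      · exact h0
    have e : f ^ 2 * E = (f * cf E) ^ 2 * a := by
      calc f ^ 2 * E = f ^ 2 * (cf E ^ 2 * a) := by rw [← h1]
        _ = (f * cf E) ^ 2 * a := by ring
    exact Nat.div_eq_of_eq_mul_left ha0 e
  have h5 : cf (f ^ 2 * E) = f * cf E := by
    show Nat.sqrt (f ^ 2 * E / Pool.Agent.FTA.aD (Pool.Agent.FTL.Kf (f ^ 2 * E))) = f * cf E
    rw [hK, hdiv, Nat.sqrt_eq']
  rw [h5]
  exact Nat.le_mul_of_pos_right f (by omega)

end Pool.Agent.LBT
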