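import Pool.Agent.FTA.DivB
import Pool.Agent.FTB.SUn

/-!
# LBT/Par: the parameters `T, Q, L`

PROOF of `par`: copy `LMn_par` of Pool/Agent/FTL/LMn.lean (private there; same statement).
-/

set_option autoImplicit false

namespace Pool.Agent.LBT

open Pool.Agent.FTA Pool.Agent.FTB

theorem par (η : ℝ) (hη : 0 < η) : ∃ K : ℝ, 1 ≤ K ∧ ∀ X : ℕ, 1 ≤ X →
    ∃ T Q L : ℝ, TauB ((4 * X) ^ 5) T ∧ UniB ((4 * X) ^ 5) Q ∧ 1 + Real.log (4 * X) ≤ L ∧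
      0 ≤ L ∧ T ≤ K * (X : ℝ) ^ η ∧ Q ≤ K * (X : ℝ) ^ η ∧ L ≤ K * (X : ℝ) ^ η := by
  obtain ⟨δ, hδ⟩ : ∃ δ : ℝ, δ = η / 10 := ⟨_, rfl⟩
  have hδ0 : 0 < δ := by rw [hδ]; positivity
  obtain ⟨c, hc0, hc⟩ := Pool.Agent.FTA.divisor_bound hδ0
  obtain ⟨C, hC0, hC⟩ := sun δ hδ0
  obtain ⟨A, hA⟩ : ∃ A : ℝ, A = ((4 : ℝ) ^ 5) ^ δ := ⟨_, rfl⟩
  have hA0 : 0 < A := by rw [hA]; positivity
  refine ⟨(1 + c * A) + (1 + C * A ^ 2) + (3 + 1 / δ), ?_, ?_⟩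
  · have : 0 < c * A := by positivity
    have : 0 < C * A ^ 2 := by positivity
    have : 0 < 1 / δ := by positivity
    linarith
  intro X hX
  have hXr : (1 : ℝ) ≤ X := by exact_mod_cast hX
  have hX0 : (0 : ℝ) ≤ X := by linarith
  obtain ⟨y, hy⟩ : ∃ y : ℝ, y = (X : ℝ) ^ δ := ⟨_, rfl⟩
  have hy1 : 1 ≤ y := by rw [hy]; exact Real.one_le_rpow hXr hδ0.le
  have hy0 : 0 ≤ y := by linarith
  obtain ⟨Z, hZ⟩ : ∃ Z : ℕ, Z = (4 * X) ^ 5 := ⟨_, rfl⟩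
  rw [← hZ]
  have hZ1 : 1 ≤ Z := by
    rw [hZ]
    exact Nat.one_le_pow _ _ (by positivity)
  have hZd : (Z : ℝ) ^ δ = A * y ^ 5 := by
    have h1 : (Z : ℝ) = (4 : ℝ) ^ 5 * (X : ℝ) ^ 5 := by
      rw [hZ]; push_cast; ring
    have h2 : ((X : ℝ) ^ 5) ^ δ = ((X : ℝ) ^ δ) ^ 5 := by
      rw [← Real.rpow_natCast, ← Real.rpow_mul hX0, ← Real.rpow_natCast, ← Real.rpow_mul hX0]
      congr 1
      ring
    rw [h1, hA, hy, Real.mul_rpow (by positivity) (by positivity), h2]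
  have hT : TauB Z (1 + c * (Z : ℝ) ^ δ) := by
    refine ⟨by nlinarith [Real.rpow_nonneg (Nat.cast_nonneg Z) δ], ?_⟩
    intro n hn1 hn2
    have h1 := hc n (by omega)
    have h2 : (n : ℝ) ^ δ ≤ (Z : ℝ) ^ δ :=
      Real.rpow_le_rpow (Nat.cast_nonneg _) (by exact_mod_cast hn2) hδ0.le
    have h3 := mul_le_mul_of_nonneg_left h2 hc0.le
    linarith
  have hQ : UniB Z (1 + C * (Z : ℝ) ^ δ * (Z : ℝ) ^ δ) := by
    have hz := Real.rpow_nonneg (Nat.cast_nonneg (α := ℝ) Z) δ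
    refine ⟨by nlinarith [mul_nonneg (mul_nonneg hC0.le hz) hz], ?_⟩
    intro r hr1 hr2
    have h1 := hC Z r hZ1 hr1
    have h2 : (r : ℝ) ^ δ ≤ (Z : ℝ) ^ δ :=
      Real.rpow_le_rpow (Nat.cast_nonneg _) (by exact_mod_cast hr2) hδ0.le
    have h3 := mul_le_mul_of_nonneg_left h2 (mul_nonneg hC0.le hz)
    linarith
  have hyη : y ^ 10 = (X : ℝ) ^ η := by
    rw [hy, ← Real.rpow_natCast, ← Real.rpow_mul hX0]
    congr 1
    rw [hδ]
    push_cast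
    ring
  have hlog : 0 ≤ Real.log X := Real.log_nonneg hXr
  have h4X : Real.log (4 * X) = Real.log 4 + Real.log X :=
    Real.log_mul (by norm_num) (by linarith)
  have hl4 : Real.log 4 ≤ 2 := by
    have : Real.log 4 = 2 * Real.log 2 := by
      rw [show (4 : ℝ) = 2 ^ 2 by norm_num, Real.log_pow]; push_cast; ring
    rw [this]
    have := Real.log_two_lt_d9
    linarith
  have hl40 : 0 ≤ Real.log 4 := Real.log_nonneg (by norm_num)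
  have hL : 1 + Real.log (4 * X) ≤ (3 + 1 / δ) * y := by
    have h1 : Real.log X ≤ (X : ℝ) ^ δ / δ := Real.log_le_rpow_div hX0 hδ0
    rw [← hy] at h1
    have h2 : (3 + 1 / δ) * y = 3 * y + y / δ := by ring
    rw [h2, h4X]
    linarith
  have hy5 : y ^ 5 ≤ y ^ 10 := pow_le_pow_right₀ hy1 (by norm_num)
  have hy15 : 1 ≤ y ^ 5 := one_le_pow₀ hy1
  have hy110 : 1 ≤ y ^ 10 := one_le_pow₀ hy1
  have hyy : y ≤ y ^ 10 := by
    calc y = y ^ 1 := (pow_one y).symm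
      _ ≤ y ^ 10 := pow_le_pow_right₀ hy1 (by norm_num)
  have p1 : 0 < c * A := by positivity
  have p2 : 0 < C * A ^ 2 := by positivity
  have p3 : 0 < 1 / δ := by positivity
  refine ⟨_, _, _, hT, hQ, le_refl _, ?_, ?_, ?_, ?_⟩
  · rw [h4X]; linarith
  · rw [hZd, ← hyη]
    have e1 : c * (A * y ^ 5) ≤ c * A * y ^ 10 := by
      rw [← mul_assoc]
      exact mul_le_mul_of_nonneg_left hy5 p1.le
    nlinarith
  · rw [hZd, ← hyη]
    have e1 : C * (A * y ^ 5) * (A * y ^ 5) = C * A ^ 2 * y ^ 10 := by ring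
    rw [e1]
    nlinarith
  · rw [← hyη]
    have e1 : (3 + 1 / δ) * y ≤ (3 + 1 / δ) * y ^ 10 :=
      mul_le_mul_of_nonneg_left hyy (by linarith)
    nlinarith

end Pool.Agent.LBT
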