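import Pool.Agent.LBT.Fns
import Pool.Agent.LBT.Par

/-!
# LBT/Fin: choice of the parameters

PROOF of `fin`.  `δ' = min δ 1`, `ε = δ' / 64`, `η1 = δ' / 3000`, `η = δ' / 8`.  `C0` from `fns ε`, `K` from `par η1`.
SMALL `y` (`y ≤ y0`): `S` is contained in the finite set of the `P` with all `|P i| ≤ CV y0` (`Fintype.piFinset` of `Icc (-m) m`,
`m = ⌊CV y0⌋`), so `card S ≤ (2 m + 1) ^ 12 ≤ C ≤ C y ^ (4 - η)`.
LARGE `y`.  `B0 = CV y`, `c = cD y ^ 4`, `E = 2 B0 ^ 2`, `R0 = y ^ δ'` (`≤ y ^ δ`), `W1 = ⌈y ^ 6⌉₊`, `Z = (4 W1) ^ 5`, `T, Q, L` from `par` at `X = W1`;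
`W1 ≤ 2 y ^ 6`, so `T, Q, L ≤ 2 K u`, `u = y ^ (6 η1) ≥ 1`.  `H = 65536 T ^ 5 ≤ K3 u ^ 5`, `κ = E / √c = 2 CV ^ 2 / √cD` (a constant),
`a = ⌈√E H⌉₊` (`E H ^ 2 ≤ a ^ 2 ≤ 4 a ^ 2`, `a ≤ 2 √E H` for large `y`, so `a ^ 4 ≤ 16 E ^ 2 H ^ 4`), `B = ⌈4 κ H ^ 2⌉₊` (`B ^ 2 c ≥ 16 E ^ 2 H ^ 4 ≥ a ^ 4`,
`B ≤ 4 κ H ^ 2 + 1 ≤ K4 u ^ 10`, and `B ≥ 1`), `W = ⌈32 B0 ^ 4⌉₊` (`|Df P| ≤ (4 B0 ^ 2) ^ 2 + 4 (2 B0 ^ 2) (2 B0 ^ 2) = 32 B0 ^ 4`), `W ≤ K5 y ^ 4`.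
Conditions for large `y`: `16 B0 ^ 2 ≤ c`; `2 B W ≤ 2 K4 K5 u ^ 10 y ^ 4 ≤ y ^ 6 ≤ W1` (`u ^ 10 = y ^ (60 η1) ≤ y`), which gives `(4 B (2 W)) ^ 5 ≤ Z` and the
condition on the logarithm; `(E H ^ 2) ^ 2 ≤ K6 y ^ 4 u ^ 20 ≤ Z`.
Result: `card S ≤ H C0 B T ^ 7 Q L ^ 3 (1 + 32 κ ^ 2 H) (4 κ + 1) ^ 4 W ^ (1 + ε) R0 ^ (-1/4) ≤ K7 u ^ 31 y ^ (4 + 4 ε) y ^ (- δ' / 4)`, and
`u ^ 31 = y ^ (186 η1) ≤ y ^ (δ' / 16)`, `4 ε = δ' / 16`, so it is `≤ K7 y ^ (4 - δ' / 8)`.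
-/

set_option autoImplicit false

namespace Pool.Agent.LBT

open Pool.Agent.PP5 Pool.Agent.FTL Pool.Agent.FTB

private theorem Fin_Df (P : Sp) {B0 : ℝ} (h : ∀ i, |(P i : ℝ)| ≤ B0) :
    -(Df P : ℝ) ≤ 32 * B0 ^ 4 := by
  have hB : 0 ≤ B0 := le_trans (abs_nonneg _) (h 0)
  have hm : ∀ i j, |(P i : ℝ) * P j| ≤ B0 ^ 2 := by
    intro i j
    rw [abs_mul, pow_two]
    exact mul_le_mul (h i) (h j) (abs_nonneg _) hB
  have e : (Df P : ℝ) = ((P 6 : ℝ) * P 11 + P 8 * P 9 - 2 * (P 7 * P 10)) ^ 2 -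
      4 * ((P 6 : ℝ) * P 8 - P 7 * P 7) * (P 9 * P 11 - P 10 * P 10) := by
    unfold Df
    push_cast
    ring
  have h1 : |(P 6 : ℝ) * P 8 - P 7 * P 7| ≤ 2 * B0 ^ 2 := by
    have a := abs_le.1 (hm 6 8)
    have b := abs_le.1 (hm 7 7)
    rw [abs_le]
    constructor <;> linarith [a.1, a.2, b.1, b.2]
  have h2 : |(P 9 : ℝ) * P 11 - P 10 * P 10| ≤ 2 * B0 ^ 2 := by
    have a := abs_le.1 (hm 9 11)
    have b := abs_le.1 (hm 10 10)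
    rw [abs_le]
    constructor <;> linarith [a.1, a.2, b.1, b.2]
  have h3 : |((P 6 : ℝ) * P 8 - P 7 * P 7) * (P 9 * P 11 - P 10 * P 10)|
      ≤ 2 * B0 ^ 2 * (2 * B0 ^ 2) := by
    rw [abs_mul]
    exact mul_le_mul h1 h2 (abs_nonneg _) (by positivity)
  have h4 := (abs_le.1 h3).2
  have h5 : 0 ≤ ((P 6 : ℝ) * P 11 + P 8 * P 9 - 2 * (P 7 * P 10)) ^ 2 := sq_nonneg _
  have h6 : 0 ≤ B0 ^ 4 := by positivity
  rw [e]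
  nlinarith

private theorem Fin_large (CV cD δ : ℝ) (hV : 0 < CV) (hD : 0 < cD) (hδ : 0 < δ) (hδ1 : δ ≤ 1) :
    ∃ y0 K7 : ℝ, 1 ≤ y0 ∧ 0 ≤ K7 ∧ ∀ y : ℝ, y0 ≤ y → ∀ S : Finset Sp,
      (∀ P ∈ S, Qd P ∧ (∀ i, |(P i : ℝ)| ≤ CV * y) ∧
        cD * y ^ 4 ≤ -(Df P : ℝ) ∧ ¬ ((2 : ℤ) ∣ Nf P ∧ (2 : ℤ) ∣ Bf P ∧ (2 : ℤ) ∣ Mf P) ∧
        y ^ δ ≤ (cf (qF P).1 : ℝ)) → (S.card : ℝ) ≤ K7 * y ^ (4 - δ / 8) := by
  obtain ⟨C0, hC0, hfns⟩ := fns (δ / 64) (by positivity)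
  obtain ⟨K, hK, hpar⟩ := par (δ / 3000) (by positivity)
  have hsD : 0 < √cD := Real.sqrt_pos.2 hD
  obtain ⟨κ, hκd⟩ : ∃ κ : ℝ, κ = 2 * CV ^ 2 / √cD := ⟨_, rfl⟩
  obtain ⟨K3, hK3d⟩ : ∃ K3 : ℝ, K3 = 65536 * (2 * K) ^ 5 := ⟨_, rfl⟩
  obtain ⟨K4, hK4d⟩ : ∃ K4 : ℝ, K4 = (4 * κ + 1) * K3 ^ 2 := ⟨_, rfl⟩
  obtain ⟨K5, hK5d⟩ : ∃ K5 : ℝ, K5 = 32 * CV ^ 4 + 1 := ⟨_, rfl⟩
  obtain ⟨K6, hK6d⟩ : ∃ K6 : ℝ, K6 = 4 * CV ^ 4 * K3 ^ 4 := ⟨_, rfl⟩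
  have hκ : 0 < κ := by rw [hκd]; positivity
  have hK0 : 0 < K := by linarith
  have hK31 : 1 ≤ K3 := by
    rw [hK3d]
    have h1 : 1 ≤ (2 * K) ^ 5 := one_le_pow₀ (by linarith)
    linarith
  have hK30 : 0 < K3 := by linarith
  have hK40 : 0 < K4 := by rw [hK4d]; positivity
  have hK50 : 0 < K5 := by rw [hK5d]; positivity
  have hK60 : 0 < K6 := by rw [hK6d]; positivity
  refine ⟨1 + 1 / CV + 16 * CV ^ 2 / cD + 2 * K4 * K5 + K6,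
    K3 * (C0 * K4 * (2 * K) ^ 7 * (2 * K) * (2 * K) ^ 3 * ((1 + 32 * κ ^ 2) * K3) *
      (4 * κ + 1) ^ 4 * K5 ^ (1 + δ / 64)), ?_, by positivity, ?_⟩
  · have h1 : 0 < 1 / CV := by positivity
    have h2 : 0 < 16 * CV ^ 2 / cD := by positivity
    have h3 : 0 < 2 * K4 * K5 := by positivity
    linarith
  intro y hy S hS
  have g1 : 0 < 1 / CV := by positivity
  have g2 : 0 < 16 * CV ^ 2 / cD := by positivity
  have g3 : 0 < 2 * K4 * K5 := by positivity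
  have hy1 : 1 ≤ y := by linarith
  have hyCV : 1 / CV ≤ y := by linarith
  have hyc : 16 * CV ^ 2 / cD ≤ y := by linarith
  have hy45 : 2 * K4 * K5 ≤ y := by linarith
  have hy6 : K6 ≤ y := by linarith
  have hy0 : 0 < y := by linarith
  -- the number u
  obtain ⟨u, hud⟩ : ∃ u : ℝ, u = y ^ (6 * (δ / 3000)) := ⟨_, rfl⟩
  have hu1 : 1 ≤ u := by
    rw [hud]
    exact Real.one_le_rpow hy1 (by positivity)
  have hu0 : 0 < u := by linarith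
  have hupow : ∀ k : ℕ, u ^ k = y ^ (6 * (δ / 3000) * k) := by
    intro k
    rw [hud, ← Real.rpow_mul_natCast hy0.le]
  have hu20 : u ^ 20 ≤ y := by
    rw [hupow]
    calc y ^ (6 * (δ / 3000) * ((20 : ℕ) : ℝ)) ≤ y ^ (1 : ℝ) := by
          refine Real.rpow_le_rpow_of_exponent_le hy1 ?_
          push_cast
          linarith
      _ = y := Real.rpow_one y
  have hu10 : u ^ 10 ≤ y := (pow_le_pow_right₀ hu1 (by norm_num)).trans hu20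
  have hu31 : u ^ 31 ≤ y ^ (δ / 16) := by
    rw [hupow]
    refine Real.rpow_le_rpow_of_exponent_le hy1 ?_
    push_cast
    linarith
  -- W1
  have hy6p : 1 ≤ y ^ 6 := one_le_pow₀ hy1
  obtain ⟨W1, hW1d⟩ : ∃ W1 : ℕ, W1 = ⌈y ^ 6⌉₊ := ⟨_, rfl⟩
  have hW1lo : y ^ 6 ≤ (W1 : ℝ) := by rw [hW1d]; exact Nat.le_ceil _
  have hW1up : (W1 : ℝ) ≤ 2 * y ^ 6 := by
    have h := Nat.ceil_lt_add_one (show 0 ≤ y ^ 6 by positivity)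
    rw [← hW1d] at h
    linarith
  have hW11 : 1 ≤ W1 := by
    have h : (1 : ℝ) ≤ W1 := hy6p.trans hW1lo
    exact_mod_cast h
  have hW1r : (W1 : ℝ) ^ (δ / 3000) ≤ 2 * u := by
    calc (W1 : ℝ) ^ (δ / 3000) ≤ (2 * y ^ 6) ^ (δ / 3000) :=
          Real.rpow_le_rpow (by positivity) hW1up (by positivity)
      _ = 2 ^ (δ / 3000) * (y ^ 6) ^ (δ / 3000) := Real.mul_rpow (by norm_num) (by positivity)
      _ = 2 ^ (δ / 3000) * u := by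
          rw [hud, ← Real.rpow_natCast y 6, ← Real.rpow_mul hy0.le]
          norm_num
      _ ≤ 2 * u := by
          refine mul_le_mul_of_nonneg_right ?_ hu0.le
          calc (2 : ℝ) ^ (δ / 3000) ≤ 2 ^ (1 : ℝ) :=
                Real.rpow_le_rpow_of_exponent_le (by norm_num) (by linarith)
            _ = 2 := Real.rpow_one 2
  obtain ⟨T, Q, L, hT, hQ, hL, hL0, hTu, hQu, hLu⟩ := hpar W1 hW11
  have hT0 : 0 ≤ T := by linarith [hT.1]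
  have hQ0 : 0 ≤ Q := by linarith [hQ.1]
  have hTu' : T ≤ 2 * K * u := hTu.trans (by linarith [mul_le_mul_of_nonneg_left hW1r hK0.le])
  have hQu' : Q ≤ 2 * K * u := hQu.trans (by linarith [mul_le_mul_of_nonneg_left hW1r hK0.le])
  have hLu' : L ≤ 2 * K * u := hLu.trans (by linarith [mul_le_mul_of_nonneg_left hW1r hK0.le])
  -- H
  obtain ⟨H, hHd⟩ : ∃ H : ℝ, H = K3 * u ^ 5 := ⟨_, rfl⟩
  have hu5 : 1 ≤ u ^ 5 := one_le_pow₀ hu1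
  have hH1 : 1 ≤ H := by rw [hHd]; exact one_le_mul_of_one_le_of_one_le hK31 hu5
  have hH0 : 0 < H := by linarith
  have hTH : 65536 * T ^ 5 ≤ H := by
    calc 65536 * T ^ 5 ≤ 65536 * (2 * K * u) ^ 5 := by gcongr
      _ = H := by rw [hHd, hK3d]; ring
  -- E, c
  obtain ⟨B0, hB0d⟩ : ∃ B0 : ℝ, B0 = CV * y := ⟨_, rfl⟩
  have hB01 : 1 ≤ B0 := by
    rw [hB0d]
    calc (1 : ℝ) = CV * (1 / CV) := by field_simp
      _ ≤ CV * y := mul_le_mul_of_nonneg_left hyCV hV.le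
  have hB00 : 0 < B0 := by linarith
  obtain ⟨c, hcd⟩ : ∃ c : ℝ, c = cD * y ^ 4 := ⟨_, rfl⟩
  have hc0 : 0 < c := by rw [hcd]; positivity
  have hsc : √c = √cD * y ^ 2 := by
    rw [hcd, Real.sqrt_mul hD.le]
    congr 1
    rw [show y ^ 4 = (y ^ 2) ^ 2 by ring]
    exact Real.sqrt_sq (by positivity)
  have hsc0 : 0 < √c := Real.sqrt_pos.2 hc0
  have hEκ : 2 * B0 ^ 2 = κ * √c := by
    rw [hsc, hκd, hB0d]
    field_simp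
  have hBc : 16 * B0 ^ 2 ≤ c := by
    have h1 : 16 * CV ^ 2 ≤ y * cD := (div_le_iff₀ hD).1 hyc
    have h2 : y ≤ y ^ 2 := by rw [pow_two]; exact le_mul_of_one_le_left hy0.le hy1
    have h3 : 16 * CV ^ 2 ≤ cD * y ^ 2 := h1.trans (by rw [mul_comm]; exact mul_le_mul_of_nonneg_left h2 hD.le)
    calc 16 * B0 ^ 2 = 16 * CV ^ 2 * y ^ 2 := by rw [hB0d]; ring
      _ ≤ cD * y ^ 2 * y ^ 2 := mul_le_mul_of_nonneg_right h3 (by positivity)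
      _ = c := by rw [hcd]; ring
  obtain ⟨E, hEd⟩ : ∃ E : ℝ, E = 2 * B0 ^ 2 := ⟨_, rfl⟩
  have hE1 : 1 ≤ E := by rw [hEd]; linarith [one_le_pow₀ hB01 (n := 2)]
  have hsE1 : 1 ≤ √E := by
    rw [show (1 : ℝ) = √1 by simp]
    exact Real.sqrt_le_sqrt hE1
  have hsE : √E ^ 2 = E := Real.sq_sqrt (by linarith)
  -- a
  obtain ⟨a, had⟩ : ∃ a : ℕ, a = ⌈√E * H⌉₊ := ⟨_, rfl⟩
  have hsEH : 1 ≤ √E * H := one_le_mul_of_one_le_of_one_le hsE1 hH1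
  have halo : √E * H ≤ (a : ℝ) := by rw [had]; exact Nat.le_ceil _
  have haup : (a : ℝ) ≤ 2 * (√E * H) := by
    have h := Nat.ceil_lt_add_one (show 0 ≤ √E * H by linarith)
    rw [← had] at h
    linarith
  have ha4 : (a : ℝ) ^ 4 ≤ 16 * E ^ 2 * H ^ 4 := by
    calc (a : ℝ) ^ 4 ≤ (2 * (√E * H)) ^ 4 := by gcongr
      _ = 16 * (√E ^ 2) ^ 2 * H ^ 4 := by ring
      _ = 16 * E ^ 2 * H ^ 4 := by rw [hsE]
  have ha2 : E * H ^ 2 ≤ 4 * (a : ℝ) ^ 2 := by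
    have h1 : (√E * H) ^ 2 ≤ (a : ℝ) ^ 2 := by gcongr
    have h2 : (√E * H) ^ 2 = E * H ^ 2 := by rw [mul_pow, hsE]
    rw [h2] at h1
    have h3 : 0 ≤ (a : ℝ) ^ 2 := by positivity
    linarith
  -- B
  obtain ⟨B, hBd⟩ : ∃ B : ℕ, B = ⌈4 * κ * H ^ 2⌉₊ := ⟨_, rfl⟩
  have hBlo : 4 * κ * H ^ 2 ≤ (B : ℝ) := by rw [hBd]; exact Nat.le_ceil _
  have hH2 : 1 ≤ H ^ 2 := one_le_pow₀ hH1
  have hBup : (B : ℝ) ≤ K4 * u ^ 10 := by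
    have h := Nat.ceil_lt_add_one (show 0 ≤ 4 * κ * H ^ 2 by positivity)
    rw [← hBd] at h
    have h1 : K4 * u ^ 10 = (4 * κ + 1) * H ^ 2 := by rw [hK4d, hHd]; ring
    rw [h1]
    linarith
  have hB1 : 1 ≤ B := by
    have h : (0 : ℝ) < B := lt_of_lt_of_le (by positivity) hBlo
    exact_mod_cast h
  have hBc4 : 16 * E ^ 2 * H ^ 4 ≤ (B : ℝ) ^ 2 * c := by
    have h1 : (4 * κ * H ^ 2) ^ 2 ≤ (B : ℝ) ^ 2 := by gcongr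
    have h2 : E ^ 2 = κ ^ 2 * c := by
      rw [hEd, hEκ, mul_pow, Real.sq_sqrt hc0.le]
    calc 16 * E ^ 2 * H ^ 4 = (4 * κ * H ^ 2) ^ 2 * c := by rw [h2]; ring
      _ ≤ (B : ℝ) ^ 2 * c := mul_le_mul_of_nonneg_right h1 hc0.le
  -- W
  obtain ⟨W, hWd⟩ : ∃ W : ℕ, W = ⌈32 * B0 ^ 4⌉₊ := ⟨_, rfl⟩
  have hWlo : 32 * B0 ^ 4 ≤ (W : ℝ) := by rw [hWd]; exact Nat.le_ceil _
  have hWup : (W : ℝ) ≤ K5 * y ^ 4 := by
    have h := Nat.ceil_lt_add_one (show 0 ≤ 32 * B0 ^ 4 by positivity)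
    rw [← hWd] at h
    have h1 : K5 * y ^ 4 = 32 * B0 ^ 4 + y ^ 4 := by rw [hK5d, hB0d]; ring
    have h2 : 1 ≤ y ^ 4 := one_le_pow₀ hy1
    rw [h1]
    linarith
  have hW1 : 1 ≤ W := by
    have h : (0 : ℝ) < W := lt_of_lt_of_le (by positivity) hWlo
    exact_mod_cast h
  -- the size of B W
  have hBW : 2 * B * W ≤ W1 := by
    have h : (2 * B * W : ℝ) ≤ W1 := by
      calc (2 * B * W : ℝ) ≤ 2 * (K4 * u ^ 10) * (K5 * y ^ 4) := by gcongr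
        _ = 2 * K4 * K5 * u ^ 10 * y ^ 4 := by ring
        _ ≤ y * y * y ^ 4 := by gcongr
        _ = y ^ 6 := by ring
        _ ≤ W1 := hW1lo
    exact_mod_cast h
  have hBW4 : 4 * B * (2 * W) ≤ 4 * W1 := by
    calc 4 * B * (2 * W) = 4 * (2 * B * W) := by ring
      _ ≤ 4 * W1 := Nat.mul_le_mul_left 4 hBW
  have hZ5 : (4 * B * (2 * W)) ^ 5 ≤ (4 * W1) ^ 5 := Nat.pow_le_pow_left hBW4 5
  have hlog : 1 + Real.log (4 * B * (2 * W)) ≤ L := by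
    refine le_trans ?_ hL
    have h1 : (0 : ℝ) < B := by exact_mod_cast hB1
    have h2 : (0 : ℝ) < W := by exact_mod_cast hW1
    have h3 : (4 * B * (2 * W) : ℝ) ≤ 4 * W1 := by exact_mod_cast hBW4
    have h4 := Real.log_le_log (by positivity) h3
    linarith
  have hZ : (2 * B0 ^ 2 * H ^ 2) ^ 2 ≤ (((4 * W1) ^ 5 : ℕ) : ℝ) := by
    have h1 : (W1 : ℝ) ≤ (((4 * W1) ^ 5 : ℕ) : ℝ) := by
      have h2 : W1 ≤ (4 * W1) ^ 5 := by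
        calc W1 ≤ 4 * W1 := by omega
          _ ≤ (4 * W1) ^ 5 := Nat.le_self_pow (by norm_num) _
      exact_mod_cast h2
    refine le_trans ?_ h1
    calc (2 * B0 ^ 2 * H ^ 2) ^ 2 = K6 * u ^ 20 * y ^ 4 := by rw [hB0d, hHd, hK6d]; ring
      _ ≤ y * y * y ^ 4 := by gcongr
      _ = y ^ 6 := by ring
      _ ≤ W1 := hW1lo
  have hR1 : 1 ≤ y ^ δ := Real.one_le_rpow hy1 hδ.le
  have hmain := hfns B0 c H T Q L (y ^ δ) ((4 * W1) ^ 5) a B W hc0 hB00 hBc hTH hR1 hB1 hW1 hT hQ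
    hZ5 hlog hZ (ha4.trans hBc4) (by rw [← hEd]; exact ha2) S (by
      intro P hP
      obtain ⟨p1, p2, p3, p4, p5⟩ := hS P hP
      refine ⟨p1, by rw [hB0d]; exact p2, by rw [hcd]; exact p3, ?_, p4, p5⟩
      have h1 := Fin_Df P (B0 := B0) (by rw [hB0d]; exact p2)
      have h2 : ((-(Df P) : ℤ) : ℝ) ≤ ((W : ℤ) : ℝ) := by
        push_cast
        exact h1.trans hWlo
      exact_mod_cast h2)
  refine hmain.trans ?_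
  have e1 : 1 + 32 * (2 * B0 ^ 2) ^ 2 * H / c ≤ (1 + 32 * κ ^ 2) * H := by
    have h1 : (2 * B0 ^ 2) ^ 2 = κ ^ 2 * c := by
      rw [hEκ, mul_pow, Real.sq_sqrt hc0.le]
    rw [h1]
    have h2 : 32 * (κ ^ 2 * c) * H / c = 32 * κ ^ 2 * H := by field_simp
    rw [h2]
    linarith
  have e1' : 0 ≤ 1 + 32 * (2 * B0 ^ 2) ^ 2 * H / c := by positivity
  have e2 : 4 * (2 * B0 ^ 2) / √c + 1 = 4 * κ + 1 := by
    rw [hEκ]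
    field_simp
  have e3 : (W : ℝ) ^ (1 + δ / 64) ≤ K5 ^ (1 + δ / 64) * y ^ (4 * (1 + δ / 64)) := by
    calc (W : ℝ) ^ (1 + δ / 64) ≤ (K5 * y ^ 4) ^ (1 + δ / 64) :=
          Real.rpow_le_rpow (by positivity) hWup (by positivity)
      _ = K5 ^ (1 + δ / 64) * (y ^ 4) ^ (1 + δ / 64) := Real.mul_rpow hK50.le (by positivity)
      _ = _ := by
          congr 1
          rw [← Real.rpow_natCast y 4, ← Real.rpow_mul hy0.le]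
          norm_num
  have e4 : (y ^ δ) ^ (-(1 / 4) : ℝ) = y ^ (-(δ / 4)) := by
    rw [← Real.rpow_mul hy0.le]
    congr 1
    ring
  rw [e2, e4]
  have hT7 : T ^ 7 ≤ (2 * K) ^ 7 * u ^ 7 := by
    rw [← mul_pow]
    gcongr
  have hL3 : L ^ 3 ≤ (2 * K) ^ 3 * u ^ 3 := by
    rw [← mul_pow]
    gcongr
  calc H * (C0 * B * T ^ 7 * Q * L ^ 3 * (1 + 32 * (2 * B0 ^ 2) ^ 2 * H / c) *
      (4 * κ + 1) ^ 4 * (W : ℝ) ^ (1 + δ / 64) * y ^ (-(δ / 4)))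
      ≤ H * (C0 * (K4 * u ^ 10) * ((2 * K) ^ 7 * u ^ 7) * (2 * K * u) * ((2 * K) ^ 3 * u ^ 3) *
        ((1 + 32 * κ ^ 2) * H) * (4 * κ + 1) ^ 4 *
        (K5 ^ (1 + δ / 64) * y ^ (4 * (1 + δ / 64))) * y ^ (-(δ / 4))) := by gcongr
    _ = K3 * (C0 * K4 * (2 * K) ^ 7 * (2 * K) * (2 * K) ^ 3 * ((1 + 32 * κ ^ 2) * K3) *
      (4 * κ + 1) ^ 4 * K5 ^ (1 + δ / 64)) * (u ^ 31 * y ^ (4 * (1 + δ / 64)) *
        y ^ (-(δ / 4))) := by rw [hHd]; ring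
    _ ≤ K3 * (C0 * K4 * (2 * K) ^ 7 * (2 * K) * (2 * K) ^ 3 * ((1 + 32 * κ ^ 2) * K3) *
      (4 * κ + 1) ^ 4 * K5 ^ (1 + δ / 64)) * (y ^ (δ / 16) * y ^ (4 * (1 + δ / 64)) *
        y ^ (-(δ / 4))) := by gcongr
    _ = _ := by
        rw [← Real.rpow_add hy0, ← Real.rpow_add hy0]
        congr 2
        ring

theorem fin (CV cD δ : ℝ) (hV : 0 < CV) (hD : 0 < cD) (hδ : 0 < δ) : ∃ η C : ℝ, 0 < η ∧
    ∀ y : ℝ, 1 ≤ y → ∀ S : Finset Sp, (∀ P ∈ S, Qd P ∧ (∀ i, |(P i : ℝ)| ≤ CV * y) ∧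
      cD * y ^ 4 ≤ -(Df P : ℝ) ∧ ¬ ((2 : ℤ) ∣ Nf P ∧ (2 : ℤ) ∣ Bf P ∧ (2 : ℤ) ∣ Mf P) ∧
      y ^ δ ≤ (cf (qF P).1 : ℝ)) → (S.card : ℝ) ≤ C * y ^ (4 - η) := by
  have hd0 : 0 < min δ 1 := lt_min hδ one_pos
  have hd1 : min δ 1 ≤ 1 := min_le_right _ _
  obtain ⟨y0, K7, hy0, hK7, hlarge⟩ := Fin_large CV cD (min δ 1) hV hD hd0 hd1
  let X : Finset Sp := Fintype.piFinset (fun _ : Fin 12 => Finset.Icc (-⌊CV * y0⌋) ⌊CV * y0⌋)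
  refine ⟨min δ 1 / 8, K7 + X.card, by positivity, ?_⟩
  intro y hy S hS
  have hyp : 0 < y := by linarith
  have hp1 : 1 ≤ y ^ (4 - min δ 1 / 8) := Real.one_le_rpow hy (by linarith)
  have hp0 : 0 ≤ y ^ (4 - min δ 1 / 8) := by linarith
  rcases le_total y0 y with h | h
  · have h1 := hlarge y h S (by
      intro P hP
      obtain ⟨p1, p2, p3, p4, p5⟩ := hS P hP
      exact ⟨p1, p2, p3, p4,
        (Real.rpow_le_rpow_of_exponent_le hy (min_le_left _ _)).trans p5⟩)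
    refine h1.trans ?_
    refine mul_le_mul_of_nonneg_right ?_ hp0
    have : (0 : ℝ) ≤ X.card := by positivity
    linarith
  · have hsub : S ⊆ X := by
      intro P hP
      obtain ⟨p1, p2, p3, p4, p5⟩ := hS P hP
      rw [Fintype.mem_piFinset]
      intro i
      rw [Finset.mem_Icc]
      have h1 : |(P i : ℝ)| ≤ CV * y0 := (p2 i).trans (mul_le_mul_of_nonneg_left h hV.le)
      have h2 := abs_le.1 h1
      constructor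
      · rw [neg_le, Int.le_floor]
        push_cast
        linarith [h2.1]
      · rw [Int.le_floor]
        exact h2.2
    have h1 : (S.card : ℝ) ≤ X.card := by exact_mod_cast Finset.card_le_card hsub
    have h2 : (0 : ℝ) ≤ X.card := by positivity
    exact (h1.trans (by linarith : (X.card : ℝ) ≤ (K7 + X.card) * 1)).trans (mul_le_mul_of_nonneg_left hp1 (by linarith))

end Pool.Agent.LBT
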