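import Pool.Agent.LB.Defs
import Pool.Agent.LBT.Fin
import Pool.Agent.LBT.Cnd

/-!
# LBT/Mn: few points of large conductor (StF2)
-/

set_option autoImplicit false

namespace Pool.Agent.LBT

open Pool.Agent.PP5 Pool.Agent.LB

theorem stF2 : LB.StF2 := by
  intro CV cD δ hV hD hδ
  obtain ⟨η, C, hη, h⟩ := fin CV cD δ hV hD hδ
  refine ⟨η, C, hη, fun y hy S hS => h y hy S fun P hP => ?_⟩
  obtain ⟨⟨qd, -, le, dl⟩, h2, f, hf, d, hd, h4⟩ := hS P hP
  refine ⟨qd, le, dl, ?_, ?_⟩
  · rintro ⟨a, b, c⟩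
    exact h2 ⟨by exact_mod_cast a, by exact_mod_cast b, by exact_mod_cast c⟩
  · have hy4 : 0 < cD * y ^ 4 := by positivity
    have hneg : PP5.Df P < 0 := by
      have : (PP5.Df P : ℝ) < 0 := by linarith
      exact_mod_cast this
    have := cnd P f d hneg hd h4
    exact hf.trans (by exact_mod_cast this)

end Pool.Agent.LBT
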