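import Pool.Agent.LBT.Idn

/-!
# LBT/Act: changes of bases
-/

set_option autoImplicit false

namespace Pool.Agent.LBT

open Pool.Agent.PP5

variable {P : Sp}

/-! ## the basis of `V` -/

theorem TV_qd (h : Qd P) (s : ℤ) : Qd (TV s P) := by
  obtain ⟨h1, h2, h3, h4, h5, h6, h7, h8, h9, h10⟩ := h
  constructor <;> simp only [TV, Matrix.cons_val]
  · linear_combination h1 + s * (h5 + h6) + s ^ 2 * h3
  · linear_combination h2
  · linear_combination h3
  · linear_combination h4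
  · linear_combination h5 + s * h3
  · linear_combination h6 + s * h3
  · linear_combination h7 + s * h8
  · linear_combination h8
  · linear_combination h9 + s * h10
  · linear_combination h10

theorem TV_inj (s : ℤ) (P Q : Sp) (h : TV s P = TV s Q) : P = Q := by
  have H : ∀ i, TV s P i = TV s Q i := fun i => by rw [h]
  have a0 := H 0
  have a1 := H 1
  have a2 := H 2
  have a3 := H 3
  have a4 := H 4
  have a5 := H 5
  have a6 := H 6
  have a7 := H 7
  have a8 := H 8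
  have a9 := H 9
  have a10 := H 10
  have a11 := H 11
  simp only [TV, Matrix.cons_val] at a0 a1 a2 a3 a4 a5 a6 a7 a8 a9 a10 a11
  funext i
  fin_cases i
  · show P 0 = Q 0
    linear_combination a0 - 2 * s * a1 + s ^ 2 * a2
  · show P 1 = Q 1
    linear_combination a1 - s * a2
  · exact a2
  · show P 3 = Q 3
    linear_combination a3 - 2 * s * a4 + s ^ 2 * a5
  · show P 4 = Q 4
    linear_combination a4 - s * a5
  · exact a5
  · show P 6 = Q 6
    linear_combination a6 - s * a9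
  · show P 7 = Q 7
    linear_combination a7 - s * a10
  · show P 8 = Q 8
    linear_combination a8 - s * a11
  · exact a9
  · exact a10
  · exact a11

theorem TV_Nf (h : Qd P) (s : ℤ) : Nf (TV s P) = Nf P + s * Bf P + s ^ 2 * Mf P := by
  rw [Nf_R (TV_qd h s), Nf_R h]
  simp only [TV, Matrix.cons_val, Bf, Mf]
  ring

theorem TV_Bf (s : ℤ) : Bf (TV s P) = Bf P + 2 * s * Mf P := by
  simp only [TV, Matrix.cons_val, Bf, Mf]
  ring

theorem TV_Mf (s : ℤ) : Mf (TV s P) = Mf P := by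
  simp only [TV, Matrix.cons_val, Mf]

theorem TV_Df (s : ℤ) : Df (TV s P) = Df P := by
  simp only [TV, Matrix.cons_val, Df]
  ring

theorem TV_Kf (s : ℤ) : Kf (TV s P) = Kf P := by
  simp only [TV, Matrix.cons_val, Kf]
  ring

theorem TV_Kg (s : ℤ) : Kg (TV s P) = Kg P := by
  simp only [TV, Matrix.cons_val, Kg]
  ring

theorem TV_Bg (s : ℤ) : Bg (TV s P) = Bg P := by
  simp only [TV, Matrix.cons_val, Bg]
  ring

/-- `om (TV s P)` as a polynomial in `s` of degree at most 5, with the first two coefficients -/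
theorem TV_om (h : Qd P) : ∃ c2 c3 c4 c5 : ℤ, ∀ s : ℤ,
    om (TV s P) = om P + 5 * om2 P * s + c2 * s ^ 2 + c3 * s ^ 3 + c4 * s ^ 4 + c5 * s ^ 5 := by
  refine ⟨P 9 * (4 * P 3 * P 4) - 2 * P 10 * (2 * P 3 * P 1 + 2 * P 4 * P 0) + P 11 * (4 * P 0 * P 1)
      + P 6 * (4 * P 4 ^ 2 + 2 * P 3 * P 5) - 2 * P 7 * (P 3 * P 2 + 4 * P 4 * P 1 + P 5 * P 0)
      + P 8 * (4 * P 1 ^ 2 + 2 * P 0 * P 2),
    P 9 * (4 * P 4 ^ 2 + 2 * P 3 * P 5) - 2 * P 10 * (P 3 * P 2 + 4 * P 4 * P 1 + P 5 * P 0)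
      + P 11 * (4 * P 1 ^ 2 + 2 * P 0 * P 2)
      + P 6 * (4 * P 4 * P 5) - 2 * P 7 * (2 * P 4 * P 2 + 2 * P 5 * P 1) + P 8 * (4 * P 1 * P 2),
    P 9 * (4 * P 4 * P 5) - 2 * P 10 * (2 * P 4 * P 2 + 2 * P 5 * P 1) + P 11 * (4 * P 1 * P 2)
      + P 6 * P 5 ^ 2 - 2 * P 7 * P 5 * P 2 + P 8 * P 2 ^ 2,
    P 9 * P 5 ^ 2 - 2 * P 10 * P 5 * P 2 + P 11 * P 2 ^ 2, fun s => ?_⟩
  have h7 := h.h7
  have h9 := h.h9
  simp only [TV, Matrix.cons_val, om, om2]
  linear_combination 4 * s * (P 3 * h7 - P 0 * h9)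

/-! ## the basis of `W` -/

theorem AW_qd (h : Qd P) (p q r s : ℤ) (hd : p * s - q * r = 1) : Qd (AW p q r s P) := by
  obtain ⟨h1, h2, h3, h4, h5, h6, h7, h8, h9, h10⟩ := h
  constructor <;> simp only [AW, Matrix.cons_val]
  · linear_combination (p * s - q * r) * h1 + (p * s - q * r) * (P 6 * P 8 - P 7 ^ 2) * hd
  · linear_combination p ^ 2 * h2 + p * q * (h5 - h6) + q ^ 2 * h4 +
      ((P 6 * P 10 - P 7 * P 9) * p ^ 2 + (P 6 * P 11 - P 8 * P 9) * p * q +
        (P 7 * P 11 - P 8 * P 10) * q ^ 2) * hd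
  · linear_combination (p * s - q * r) * h3 + (p * s - q * r) * (P 9 * P 11 - P 10 ^ 2) * hd
  · linear_combination r ^ 2 * h2 + r * s * (h5 - h6) + s ^ 2 * h4 +
      ((P 6 * P 10 - P 7 * P 9) * r ^ 2 + (P 6 * P 11 - P 8 * P 9) * r * s +
        (P 7 * P 11 - P 8 * P 10) * s ^ 2) * hd
  · linear_combination p * s * h5 - q * r * h6 + p * r * h2 + q * s * h4 +
      (p * s * P 6 * P 11 - q * r * P 8 * P 9 - (p * s - q * r) * P 7 * P 10 +
        p * r * (P 6 * P 10 - P 7 * P 9) + q * s * (P 7 * P 11 - P 8 * P 10)) * hd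
  · linear_combination -q * r * h5 + p * s * h6 - p * r * h2 - q * s * h4 +
      (-q * r * P 6 * P 11 + p * s * P 8 * P 9 - (p * s - q * r) * P 7 * P 10 -
        p * r * (P 6 * P 10 - P 7 * P 9) - q * s * (P 7 * P 11 - P 8 * P 10)) * hd
  · linear_combination (p * s - q * r) * (p * h7 + q * h9)
  · linear_combination (p * s - q * r) * (p * h8 + q * h10)
  · linear_combination (p * s - q * r) * (r * h7 + s * h9)
  · linear_combination (p * s - q * r) * (r * h8 + s * h10)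

theorem AW_comp (p q r s p' q' r' s' : ℤ) (P : Sp) :
    AW p' q' r' s' (AW p q r s P) =
      AW (p' * p + q' * r) (p' * q + q' * s) (r' * p + s' * r) (r' * q + s' * s) P := by
  funext i
  fin_cases i <;> simp [AW] <;> ring

theorem AW_one (P : Sp) : AW 1 0 0 1 P = P := by
  funext i
  fin_cases i <;> simp [AW]

theorem AW_Nf (p q r s : ℤ) (hd : p * s - q * r = 1) : Nf (AW p q r s P) = Nf P := by
  simp only [AW, Matrix.cons_val, Nf]
  linear_combination (P 0 * P 4 - P 1 * P 3) * hd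

theorem AW_Bf (p q r s : ℤ) (hd : p * s - q * r = 1) : Bf (AW p q r s P) = Bf P := by
  simp only [AW, Matrix.cons_val, Bf]
  linear_combination (2 * P 7 * P 10 - P 6 * P 11 - P 8 * P 9) * (p * s - q * r + 1) * hd

theorem AW_Mf (p q r s : ℤ) (hd : p * s - q * r = 1) : Mf (AW p q r s P) = Mf P := by
  simp only [AW, Matrix.cons_val, Mf]
  linear_combination (P 10 ^ 2 - P 9 * P 11) * (p * s - q * r + 1) * hd

theorem AW_om (p q r s : ℤ) (hd : p * s - q * r = 1) : om (AW p q r s P) = om P := by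
  simp only [AW, Matrix.cons_val, om]
  linear_combination (P 6 * P 3 ^ 2 - 2 * P 7 * P 3 * P 0 + P 8 * P 0 ^ 2) * (p * s - q * r + 1) * hd

theorem AW_om2 (p q r s : ℤ) (hd : p * s - q * r = 1) : om2 (AW p q r s P) = om2 P := by
  simp only [AW, Matrix.cons_val, om2]
  linear_combination (P 9 * P 3 ^ 2 - 2 * P 10 * P 3 * P 0 + P 11 * P 0 ^ 2) * (p * s - q * r + 1) * hd

theorem AW_Kf (p q r s : ℤ) : Kf (AW p q r s P) = Kf P * p ^ 2 + Bg P * p * q + Kg P * q ^ 2 := by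
  simp only [AW, Matrix.cons_val, Kf, Bg, Kg]
  ring

theorem AW_Kg (p q r s : ℤ) : Kg (AW p q r s P) = Kf P * r ^ 2 + Bg P * r * s + Kg P * s ^ 2 := by
  simp only [AW, Matrix.cons_val, Kf, Bg, Kg]
  ring

end Pool.Agent.LBT
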