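import Mathlib

/-!
# LBT/Bct: square roots modulo `N` in an interval

PROOF of `bct`.  If `S` is empty clear; fix `b0 ∈ S`.  For `b ∈ S`: `N ∣ (b - b0) (b + b0)`.  Let `d = gcd (b - b0, N)`, a divisor of
`N` (`Int.gcd`); there are at most `card N.divisors` values (`Finset.card_eq_sum_card_fiberwise`, as `fib_const` of
Pool/Agent/FTA/Fib.lean).  For `b, b'` with the same `d`: `d ∣ b - b'`, and `N / d ∣ b + b0`, `N / d ∣ b' + b0`
(`N / d` is prime to `(b - b0) / d`), so `N / d ∣ b - b'`.  Let `e = gcd (d, N / d)`: `e` divides `b - b0` and `b + b0`, so `e ∣ 2 b0`; `e ∣ N`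
is prime to `b0`; so `e ∣ 2`.  So `m = lcm (d, N / d) = N / e ≥ N / 2` divides all the differences `b - b'` of the fibre.  The elements
of the fibre lie in `[-B, B]` and are congruent modulo `m`: at most `1 + 2 B / m ≤ 1 + 4 B / N` elements
(`b ↦ (b - b1) / m` for a smallest element `b1` of the fibre is injective into `Icc 0 ⌊2 B / m⌋`).
-/

set_option autoImplicit false

namespace Pool.Agent.LBT

/-- integers of an interval in one class -/
theorem cln (m : ℕ) (hm : 1 ≤ m) (B : ℝ) (S : Finset ℤ) (h1 : ∀ b ∈ S, |(b : ℝ)| ≤ B)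
    (h2 : ∀ b ∈ S, ∀ b' ∈ S, (m : ℤ) ∣ b - b') (h0 : 0 ≤ B) : (S.card : ℝ) ≤ 1 + 2 * B / m := by
  have hmR : (0 : ℝ) < m := by exact_mod_cast hm
  have hmZ : (0 : ℤ) < m := by exact_mod_cast hm
  have hq0 : 0 ≤ 2 * B / m := by positivity
  rcases S.eq_empty_or_nonempty with rfl | hne
  · simp; linarith
  set b1 := S.min' hne with hb1
  have hb1S : b1 ∈ S := S.min'_mem hne
  have hcard : S.card ≤ (Finset.Icc (0 : ℤ) ⌊2 * B / m⌋).card := by
    refine Finset.card_le_card_of_injOn (fun b => (b - b1) / m) ?_ ?_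
    · intro b hb
      rw [Finset.mem_coe] at hb
      rw [Finset.coe_Icc, Set.mem_Icc]
      have hle : b1 ≤ b := S.min'_le b hb
      refine ⟨Int.ediv_nonneg (by omega) hmZ.le, ?_⟩
      rw [Int.le_floor, le_div_iff₀ hmR]
      obtain ⟨k, hk⟩ := h2 b hb b1 hb1S
      have e : (b - b1) / (m : ℤ) = k := by rw [hk, Int.mul_ediv_cancel_left _ hmZ.ne']
      show (((b - b1) / (m : ℤ) : ℤ) : ℝ) * m ≤ 2 * B
      rw [e]
      have h3 : (k : ℝ) * m = b - b1 := by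
        have : (((m : ℤ) * k : ℤ) : ℝ) = ((b - b1 : ℤ) : ℝ) := by rw [hk]
        push_cast at this
        linarith
      rw [h3]
      have h4 := abs_le.mp (h1 b hb)
      have h5 := abs_le.mp (h1 b1 hb1S)
      linarith [h4.2, h5.1]
    · intro b hb b' hb' h
      rw [Finset.mem_coe] at hb hb'
      simp only at h
      obtain ⟨k, hk⟩ := h2 b hb b1 hb1S
      obtain ⟨k', hk'⟩ := h2 b' hb' b1 hb1S
      rw [hk, hk', Int.mul_ediv_cancel_left _ hmZ.ne', Int.mul_ediv_cancel_left _ hmZ.ne'] at h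
      rw [h] at hk
      linarith
  have h3 : ((Finset.Icc (0 : ℤ) ⌊2 * B / m⌋).card : ℝ) ≤ 1 + 2 * B / m := by
    rw [Int.card_Icc]
    have hf : 0 ≤ ⌊2 * B / m⌋ := Int.floor_nonneg.mpr hq0
    have h4 : (((⌊2 * B / m⌋ + 1 - 0).toNat : ℕ) : ℝ) = ((⌊2 * B / m⌋ : ℤ) : ℝ) + 1 := by
      have : (((⌊2 * B / m⌋ + 1 - 0).toNat : ℕ) : ℤ) = ⌊2 * B / m⌋ + 1 := by
        rw [Int.toNat_of_nonneg (by omega)]; ring
      exact_mod_cast this
    rw [h4]
    linarith [Int.floor_le (2 * B / m)]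
  exact le_trans (by exact_mod_cast hcard) h3

private theorem Bct_dvd {N : ℕ} (hN : 1 ≤ N) {D b0 b : ℤ} (h0 : (N : ℤ) ∣ b0 ^ 2 + D) (h1 : (N : ℤ) ∣ b ^ 2 + D) :
    ∃ n : ℕ, N = Int.gcd (b - b0) N * n ∧ ((Int.gcd (b - b0) N : ℕ) : ℤ) ∣ b - b0 ∧ (n : ℤ) ∣ b + b0 := by
  set d := Int.gcd (b - b0) N with hd
  have hdN : d ∣ N := by
    have : (d : ℤ) ∣ (N : ℤ) := Int.gcd_dvd_right ..
    exact_mod_cast this
  obtain ⟨n, hn⟩ := hdN
  have hdb : (d : ℤ) ∣ b - b0 := Int.gcd_dvd_left ..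
  refine ⟨n, hn, hdb, ?_⟩
  have hd0 : (d : ℤ) ≠ 0 := by
    intro h
    have : d = 0 := by exact_mod_cast h
    rw [this] at hn
    omega
  obtain ⟨k, hk⟩ := hdb
  have hbez := Int.gcd_eq_gcd_ab (b - b0) N
  rw [← hd] at hbez
  set x := Int.gcdA (b - b0) N with hx
  set y := Int.gcdB (b - b0) N with hy
  have hNZ : (N : ℤ) = d * n := by exact_mod_cast hn
  have h2 : 1 = k * x + n * y := by
    apply mul_left_cancel₀ hd0
    calc (d : ℤ) * 1 = (b - b0) * x + N * y := by rw [mul_one]; exact hbez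
      _ = d * (k * x + n * y) := by rw [hk, hNZ]; ring
  have h3 : (n : ℤ) ∣ k * (b + b0) := by
    have h4 : (N : ℤ) ∣ (b ^ 2 + D) - (b0 ^ 2 + D) := dvd_sub h1 h0
    have h5 : (b ^ 2 + D) - (b0 ^ 2 + D) = d * (k * (b + b0)) := by
      have : (b ^ 2 + D) - (b0 ^ 2 + D) = (b - b0) * (b + b0) := by ring
      rw [this, hk]; ring
    rw [h5, hNZ] at h4
    exact (mul_dvd_mul_iff_left hd0).mp h4
  have h6 : b + b0 = x * (k * (b + b0)) + n * (y * (b + b0)) := by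
    linear_combination (b + b0) * h2
  rw [h6]
  exact dvd_add (h3.mul_left _) (Dvd.intro _ rfl)

theorem bct (N : ℕ) (hN : 1 ≤ N) (D : ℤ) (B : ℝ) (h0 : 0 ≤ B) (S : Finset ℤ)
    (hS : ∀ b ∈ S, |(b : ℝ)| ≤ B ∧ (N : ℤ) ∣ b ^ 2 + D ∧ IsCoprime b (N : ℤ)) :
    (S.card : ℝ) ≤ N.divisors.card * (1 + 4 * B / N) := by
  classical
  have hNR : (0 : ℝ) < N := by exact_mod_cast hN
  have hq0 : 0 ≤ 4 * B / N := by positivity
  rcases S.eq_empty_or_nonempty with rfl | ⟨b0, hb0⟩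
  · simp; positivity
  have hmaps : ∀ b ∈ S, Int.gcd (b - b0) N ∈ N.divisors := by
    intro b _
    rw [Nat.mem_divisors]
    have : ((Int.gcd (b - b0) N : ℕ) : ℤ) ∣ (N : ℤ) := Int.gcd_dvd_right ..
    exact ⟨by exact_mod_cast this, by omega⟩
  rw [Finset.card_eq_sum_card_fiberwise (f := fun b => Int.gcd (b - b0) N) (t := N.divisors) hmaps]
  rw [Nat.cast_sum, ← nsmul_eq_mul]
  refine Finset.sum_le_card_nsmul _ _ _ ?_
  intro d _
  rcases (S.filter (fun b => Int.gcd (b - b0) N = d)).eq_empty_or_nonempty with he | ⟨b1, hb1⟩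
  · rw [he]; simp; linarith
  obtain ⟨hb1S, hb1d⟩ := Finset.mem_filter.mp hb1
  obtain ⟨n, hn, hd1, hn1⟩ := Bct_dvd hN (hS b0 hb0).2.1 (hS b1 hb1S).2.1
  rw [hb1d] at hn hd1
  have hd0 : d ≠ 0 := by rintro rfl; omega
  have hn0 : n ≠ 0 := by rintro rfl; omega
  set m := Nat.lcm d n with hm
  have hm1 : 1 ≤ m := Nat.pos_of_ne_zero (Nat.lcm_ne_zero hd0 hn0)
  -- the gcd of `d` and `n` divides 2
  have he : Nat.gcd d n ∣ 2 := by
    have k1 : ((Nat.gcd d n : ℕ) : ℤ) ∣ (d : ℤ) := by exact_mod_cast Nat.gcd_dvd_left d n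
    have k2 : ((Nat.gcd d n : ℕ) : ℤ) ∣ (n : ℤ) := by exact_mod_cast Nat.gcd_dvd_right d n
    have k3 : ((Nat.gcd d n : ℕ) : ℤ) ∣ 2 * b0 := by
      have := dvd_sub (k2.trans hn1) (k1.trans hd1)
      have e : b1 + b0 - (b1 - b0) = 2 * b0 := by ring
      rwa [e] at this
    have k4 : ((Nat.gcd d n : ℕ) : ℤ) ∣ (N : ℤ) := by
      have : (d : ℤ) ∣ (N : ℤ) := by rw [hn]; push_cast; exact Dvd.intro _ rfl
      exact k1.trans this
    have k5 : IsCoprime ((Nat.gcd d n : ℕ) : ℤ) b0 := by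
      have := (hS b0 hb0).2.2
      exact (IsCoprime.of_isCoprime_of_dvd_right this k4).symm
    have k6 : ((Nat.gcd d n : ℕ) : ℤ) ∣ 2 := k5.dvd_of_dvd_mul_right k3
    exact_mod_cast k6
  have he2 : Nat.gcd d n ≤ 2 := Nat.le_of_dvd (by norm_num) he
  have hmN : N ≤ 2 * m := by
    have h1 : Nat.gcd d n * Nat.lcm d n = d * n := Nat.gcd_mul_lcm d n
    rw [← hn, ← hm] at h1
    calc N = Nat.gcd d n * m := h1.symm
      _ ≤ 2 * m := Nat.mul_le_mul_right _ he2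
  have hfib := cln m hm1 B (S.filter (fun b => Int.gcd (b - b0) N = d))
    (fun b hb => (hS b (Finset.mem_filter.mp hb).1).1)
    (by
      intro b hb b' hb'
      obtain ⟨hbS, hbd⟩ := Finset.mem_filter.mp hb
      obtain ⟨hbS', hbd'⟩ := Finset.mem_filter.mp hb'
      obtain ⟨n2, hn2, hd2, hc2⟩ := Bct_dvd hN (hS b0 hb0).2.1 (hS b hbS).2.1
      obtain ⟨n3, hn3, hd3, hc3⟩ := Bct_dvd hN (hS b0 hb0).2.1 (hS b' hbS').2.1
      rw [hbd] at hn2 hd2
      rw [hbd'] at hn3 hd3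
      have e2 : n2 = n := Nat.eq_of_mul_eq_mul_left (Nat.pos_of_ne_zero hd0) (by rw [← hn2, ← hn])
      have e3 : n3 = n := Nat.eq_of_mul_eq_mul_left (Nat.pos_of_ne_zero hd0) (by rw [← hn3, ← hn])
      rw [e2] at hc2
      rw [e3] at hc3
      have g1 : (d : ℤ) ∣ b - b' := by
        have := dvd_sub hd2 hd3
        have e : b - b0 - (b' - b0) = b - b' := by ring
        rwa [e] at this
      have g2 : (n : ℤ) ∣ b - b' := by
        have := dvd_sub hc2 hc3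
        have e : b + b0 - (b' + b0) = b - b' := by ring
        rwa [e] at this
      have g3 : d ∣ (b - b').natAbs := Int.natCast_dvd.mp g1
      have g4 : n ∣ (b - b').natAbs := Int.natCast_dvd.mp g2
      exact Int.natCast_dvd.mpr (Nat.lcm_dvd g3 g4)) h0
  refine hfib.trans ?_
  have hmR : (0 : ℝ) < m := by exact_mod_cast hm1
  have hmNR : (N : ℝ) ≤ 2 * m := by exact_mod_cast hmN
  have : 2 * B / m ≤ 4 * B / N := by
    rw [div_le_div_iff₀ hmR hNR]
    nlinarith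
  linarith

end Pool.Agent.LBT
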