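import Mathlib

/-!
# LBT/Gcl: the number of classes

PROOF of `gcl`.  For `s ∈ S` let `d = gcd (s, G)`, a divisor of `G`.  For `s, s'` with the same `d`: `G / d ∣ 2 β + s a` and
`G / d ∣ 2 β + s' a` (`G / d` is prime to `s / d`, resp. `s' / d`), so `G / d ∣ (s - s') a`.  Also `G / d ∣ (s - s') a'`: clear if `a' = 0`, otherwise
in the same way.  As `a, a'` are coprime, `G / d ∣ s - s'`.  Also `d ∣ s - s'`, so `m = lcm (d, G / d) ∣ s - s'`.  The elements of `[0, G)`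
in one class modulo `m` (`m ∣ G`) are at most `G / m = gcd (d, G / d) = e`, and `e ^ 2 ∣ d (G / d) = G`, so `e ≤ √G`.
So every fibre of `s ↦ d` has at most `√G` elements.
-/

set_option autoImplicit false

namespace Pool.Agent.LBT

private lemma Gcl_div (d g s x : ℤ) (hd : d ≠ 0) (hs : Int.gcd s (d * g) = d.natAbs)
    (h : d * g ∣ s * x) : g ∣ x := by
  have hds : d ∣ s := by
    have h1 : ((Int.gcd s (d * g) : ℕ) : ℤ) ∣ s := Int.gcd_dvd_left ..
    rw [hs] at h1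
    exact Int.natAbs_dvd.mp h1
  obtain ⟨t, rfl⟩ := hds
  have h2 : g ∣ t * x := by
    have h3 : d * g ∣ d * (t * x) := by
      rw [← mul_assoc]; exact h
    exact Int.dvd_of_mul_dvd_mul_left hd h3
  have h4 : Int.gcd t g = 1 := by
    rw [Int.gcd_mul_left] at hs
    have h5 : 0 < d.natAbs := Int.natAbs_pos.mpr hd
    exact Nat.eq_of_mul_eq_mul_left h5 (by rw [hs, mul_one])
  have h6 : IsCoprime g t := by
    rw [isCoprime_comm, Int.isCoprime_iff_gcd_eq_one]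
    exact h4
  exact h6.dvd_of_dvd_mul_left h2

private lemma Gcl_fib (G : ℕ) (hG : 1 ≤ G) (a a' β β' : ℤ) (hc : IsCoprime a a') (S : Finset ℤ)
    (hS : ∀ s ∈ S, 0 ≤ s ∧ s < G ∧ (G : ℤ) ∣ s * (2 * β + s * a) ∧
      (a' = 0 ∨ (G : ℤ) ∣ s * (2 * β' + s * a'))) (d : ℕ) (hd : d ∈ G.divisors) :
    ((S.filter (fun s => Int.gcd s G = d)).card : ℝ) ≤ √(G : ℝ) := by
  obtain ⟨g, hg⟩ := (Nat.mem_divisors.mp hd).1
  have hG0 : G ≠ 0 := by omega
  have hd0 : 0 < d := Nat.pos_of_mem_divisors hd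
  have hg0 : 0 < g := by
    rcases Nat.eq_zero_or_pos g with h | h
    · rw [h, mul_zero] at hg; omega
    · exact h
  have hdz : (d : ℤ) ≠ 0 := by exact_mod_cast hd0.ne'
  have hGz : (G : ℤ) = (d : ℤ) * (g : ℤ) := by rw [hg]; push_cast; rfl
  -- congruence
  have hdiv : ∀ s ∈ S, Int.gcd s G = d → ∀ s' ∈ S, Int.gcd s' G = d →
      ((Nat.lcm d g : ℕ) : ℤ) ∣ s - s' := by
    intro s hs hsd s' hs' hsd'
    obtain ⟨-, -, h1, h2⟩ := hS s hs
    obtain ⟨-, -, h1', h2'⟩ := hS s' hs'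
    have key : ∀ x : ℤ, (G : ℤ) ∣ s * x → (g : ℤ) ∣ x := by
      intro x hx
      apply Gcl_div (d : ℤ) (g : ℤ) s x hdz _ (by rw [← hGz]; exact hx)
      rw [← hGz, hsd]; simp
    have key' : ∀ x : ℤ, (G : ℤ) ∣ s' * x → (g : ℤ) ∣ x := by
      intro x hx
      apply Gcl_div (d : ℤ) (g : ℤ) s' x hdz _ (by rw [← hGz]; exact hx)
      rw [← hGz, hsd']; simp
    have ha : (g : ℤ) ∣ (s - s') * a := by
      have := dvd_sub (key _ h1) (key' _ h1')
      have e : 2 * β + s * a - (2 * β + s' * a) = (s - s') * a := by ring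
      rwa [e] at this
    have ha' : (g : ℤ) ∣ (s - s') * a' := by
      rcases h2 with h | h
      · rw [h, mul_zero]; exact dvd_zero _
      · rcases h2' with h' | h'
        · rw [h', mul_zero]; exact dvd_zero _
        · have := dvd_sub (key _ h) (key' _ h')
          have e : 2 * β' + s * a' - (2 * β' + s' * a') = (s - s') * a' := by ring
          rwa [e] at this
    have hgs : (g : ℤ) ∣ s - s' := by
      obtain ⟨u, v, huv⟩ := hc
      have e : s - s' = (s - s') * a * u + (s - s') * a' * v := by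
        calc s - s' = (s - s') * (u * a + v * a') := by rw [huv, mul_one]
          _ = _ := by ring
      rw [e]
      exact dvd_add (Dvd.dvd.mul_right ha u) (Dvd.dvd.mul_right ha' v)
    have hds : (d : ℤ) ∣ s - s' := by
      apply dvd_sub
      · have : ((Int.gcd s G : ℕ) : ℤ) ∣ s := Int.gcd_dvd_left ..
        rwa [hsd] at this
      · have : ((Int.gcd s' G : ℕ) : ℤ) ∣ s' := Int.gcd_dvd_left ..
        rwa [hsd'] at this
    rw [Int.natCast_dvd] at hgs hds ⊢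
    exact Nat.lcm_dvd hds hgs
  -- the modulus
  have hm0 : 0 < Nat.lcm d g := Nat.lcm_pos hd0 hg0
  have hmz : (0 : ℤ) < ((Nat.lcm d g : ℕ) : ℤ) := by exact_mod_cast hm0
  have hprod : Nat.gcd d g * Nat.lcm d g = G := by rw [Nat.gcd_mul_lcm, hg]
  -- the injection
  have hcard : (S.filter (fun s => Int.gcd s G = d)).card ≤ (Finset.range (Nat.gcd d g)).card := by
    apply Finset.card_le_card_of_injOn (fun s => (s / ((Nat.lcm d g : ℕ) : ℤ)).toNat)
    · intro s hs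
      have hs1 := Finset.mem_filter.mp (Finset.mem_coe.mp hs)
      obtain ⟨h0, hlt, -, -⟩ := hS s hs1.1
      have h3 : s / ((Nat.lcm d g : ℕ) : ℤ) < ((Nat.gcd d g : ℕ) : ℤ) := by
        apply Int.ediv_lt_of_lt_mul hmz
        have : (((Nat.gcd d g : ℕ) : ℤ)) * ((Nat.lcm d g : ℕ) : ℤ) = (G : ℤ) := by
          exact_mod_cast hprod
        rw [this]; exact hlt
      have h4 : 0 ≤ s / ((Nat.lcm d g : ℕ) : ℤ) := Int.ediv_nonneg h0 hmz.le
      simp only [Finset.coe_range, Set.mem_Iio]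
      omega
    · intro s hs s' hs' heq
      have hs1 := Finset.mem_filter.mp (Finset.mem_coe.mp hs)
      have hs2 := Finset.mem_filter.mp (Finset.mem_coe.mp hs')
      obtain ⟨h0, -, -, -⟩ := hS s hs1.1
      obtain ⟨h0', -, -, -⟩ := hS s' hs2.1
      have h4 : 0 ≤ s / ((Nat.lcm d g : ℕ) : ℤ) := Int.ediv_nonneg h0 hmz.le
      have h4' : 0 ≤ s' / ((Nat.lcm d g : ℕ) : ℤ) := Int.ediv_nonneg h0' hmz.le
      have h5 : s / ((Nat.lcm d g : ℕ) : ℤ) = s' / ((Nat.lcm d g : ℕ) : ℤ) := by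
        have : (s / ((Nat.lcm d g : ℕ) : ℤ)).toNat = (s' / ((Nat.lcm d g : ℕ) : ℤ)).toNat := heq
        omega
      have h6 : s % ((Nat.lcm d g : ℕ) : ℤ) = s' % ((Nat.lcm d g : ℕ) : ℤ) :=
        Int.emod_eq_emod_iff_emod_sub_eq_zero.mpr (Int.emod_eq_zero_of_dvd (hdiv s hs1.1 hs1.2 s' hs2.1 hs2.2))
      rw [← Int.mul_ediv_add_emod s ((Nat.lcm d g : ℕ) : ℤ),
        ← Int.mul_ediv_add_emod s' ((Nat.lcm d g : ℕ) : ℤ), h5, h6]
  rw [Finset.card_range] at hcard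
  have hsq : Nat.gcd d g ^ 2 ≤ G := by
    have h1 : Nat.gcd d g * Nat.gcd d g ∣ d * g := Nat.mul_dvd_mul (Nat.gcd_dvd_left ..) (Nat.gcd_dvd_right ..)
    rw [← hg] at h1
    have := Nat.le_of_dvd (by omega) h1
    rw [sq]; exact this
  have hcR : ((S.filter (fun s => Int.gcd s G = d)).card : ℝ) ≤ ((Nat.gcd d g : ℕ) : ℝ) := by
    exact_mod_cast hcard
  refine hcR.trans ?_
  apply Real.le_sqrt_of_sq_le
  exact_mod_cast hsq

theorem gcl (G : ℕ) (hG : 1 ≤ G) (a a' β β' : ℤ) (hc : IsCoprime a a') (S : Finset ℤ)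
    (hS : ∀ s ∈ S, 0 ≤ s ∧ s < G ∧ (G : ℤ) ∣ s * (2 * β + s * a) ∧
      (a' = 0 ∨ (G : ℤ) ∣ s * (2 * β' + s * a'))) :
    (S.card : ℝ) ≤ G.divisors.card * √(G : ℝ) := by
  have hmap : ∀ s ∈ S, Int.gcd s G ∈ G.divisors := by
    intro s _
    rw [Nat.mem_divisors]
    refine ⟨?_, by omega⟩
    have := Int.gcd_dvd_right (a := s) (b := (G : ℤ))
    exact_mod_cast this
  rw [Finset.card_eq_sum_card_fiberwise hmap]
  push_cast
  calc ∑ d ∈ G.divisors, ((S.filter (fun s => Int.gcd s G = d)).card : ℝ)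
      ≤ ∑ _d ∈ G.divisors, √(G : ℝ) :=
        Finset.sum_le_sum (fun d hd => Gcl_fib G hG a a' β β' hc S hS d hd)
    _ = G.divisors.card * √(G : ℝ) := by rw [Finset.sum_const, nsmul_eq_mul]

end Pool.Agent.LBT
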