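import Pool.Agent.LBT.Nrm
import Pool.Agent.LBT.Gcl

/-!
# LBT/Cls: the points with given data and given `(l, Bf, gcd (P 0) (P 3))`

PROOF of `cls`.  If `S` is empty clear.  For `P ∈ S` let `P~ = AW p q r s P` with the matrix of `nrm` (choose it), so `P~ 0 = 0`,
`P~ 3 = g`, `Qd P~` (`AW_qd`), and `Nf, Bf, Mf, om, om2` of `P~` are those of `P` (`AW_*`).  `Mf P = M` is the same for all `P ∈ S`
(`4 N M = b ^ 2 - D`, `Df_V`).  By `nf2` the numbers `A = P~ 6`, `A' = P~ 9` are the same for all `P ∈ S` (cancel `g ^ 2`), `A ≠ 0`;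
by `nf1` also `P~ 1` is the same, `κ = (P~ 1) ^ 2`, `g ^ 2 κ = N ^ 2`, `κ > 0`; by `nf3`: `P~ 7 A' - A P~ 10 = κ`.
Let `G = gcd (A, A') ≥ 1`, `A = G a`, `A' = G a'`, `IsCoprime a a'`, `a ≠ 0`.  Fix `Q ∈ S`.  For `P ∈ S`:
`(P~ 7 - Q~ 7) a' = a (P~ 10 - Q~ 10)`, so there is `s P` with `P~ 7 = Q~ 7 + a s`, `P~ 10 = Q~ 10 + a' s`.
`Nf_R`: `A ∣ P~ 7 ^ 2 - N` and `A ∣ Q~ 7 ^ 2 - N`, so `G a ∣ a s (2 Q~ 7 + a s)`, `G ∣ s (2 Q~ 7 + s a)`.
`M = P~ 10 ^ 2 - A' P~ 11` (definition of `Mf`): the same with `a'` if `a' ≠ 0`.  The remainder `s P % G` has the same two properties.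
So by `gcl` the image of `P ↦ s P % G` has at most `card G.divisors * √G` elements.
`G ∣ κ ∣ N ^ 2`, so `G ≤ N ^ 2 ≤ Z` and `card G.divisors ≤ T` (`TauB`).
`√G ≤ l ^ (3 / 4)`, i.e. `G ^ 2 ≤ l ^ 3`: a prime `p ∣ G` divides `D = Bf ^ 2 - 4 Nf Mf` (`Nf = Q~ 7 ^ 2 - A Q~ 8`, `Mf = Q~ 10 ^ 2 - A' Q~ 11`,
`Bf = 2 Q~ 7 Q~ 10 - A Q~ 11 - Q~ 8 A'`).  `sqV` for `Q~` with `(x, y) = (1, 0)`: `N A' ^ 2 - b A' A + M A ^ 2 = (Kf Q~) ^ 2 = κ ^ 2` (`Kf Q~ = Q~ 1 ^ 2`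
as `Q~ 0 = 0`), so `l G ^ 2 ∣ κ ^ 2 ∣ N ^ 4 = l ^ 4 N1 ^ 4`, `N = l N1`, `IsCoprime N1 D`.  `l ^ 2 ∣ D`.  So `N1` is prime to `l G ^ 2` and
`l G ^ 2 ∣ l ^ 4`, `G ^ 2 ∣ l ^ 3`.
The fibres have at most `K` elements by `hO`: let `P0` and `P` be in one fibre, `s P = s P0 + G n`.  Then `P~ 7 = P0~ 7 + n A`,
`P~ 10 = P0~ 10 + n A'`, so `P~ = AW 1 0 n 1 P0~` by `shf`, and `P = AW _ _ _ _ P0` with a matrix of determinant 1: compose (`AW_comp`, `AW_one`;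
the inverse of `(p, q, r, s)` is `(s, -q, -r, p)`).
-/

set_option autoImplicit false

namespace Pool.Agent.LBT

open Pool.Agent.PP5

private theorem Cls_inv (p q r s : ℤ) (hd : p * s - q * r = 1) (P : Sp) :
    AW s (-q) (-r) p (AW p q r s P) = P := by
  rw [AW_comp]
  have e1 : s * p + -q * r = 1 := by linear_combination hd
  have e2 : s * q + -q * s = 0 := by ring
  have e3 : -r * p + p * r = 0 := by ring
  have e4 : -r * q + p * s = 1 := by linear_combination hd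
  rw [e1, e2, e3, e4, AW_one]

theorem cls (l g Z : ℕ) (N b w w2 D : ℤ) (T K : ℝ) (hT : Pool.Agent.FTB.TauB Z T) (hN : 0 < N) (hw : w ≠ 0)
    (hZ : N ^ 2 ≤ (Z : ℤ)) (hK : 0 ≤ K) (S : Finset Sp)
    (hS : ∀ P ∈ S, Qd P ∧ Gl l P ∧ Df P = D ∧ Nf P = N ∧ Bf P = b ∧ om P = w ∧ om2 P = w2 ∧
      Int.gcd (P 0) (P 3) = g)
    (hO : ∀ P0 ∈ S, ∀ S' : Finset Sp, S' ⊆ S →
      (∀ P ∈ S', ∃ p q r s : ℤ, p * s - q * r = 1 ∧ P = AW p q r s P0) → (S'.card : ℝ) ≤ K) :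
    (S.card : ℝ) ≤ T * (l : ℝ) ^ (3 / 4 : ℝ) * K := by
  classical
  rcases S.eq_empty_or_nonempty with rfl | ⟨Q0, hQ0⟩
  · simp only [Finset.card_empty, Nat.cast_zero]
    have hT0 : 0 ≤ T := by
      have h1 := hT.1
      linarith
    positivity
  -- the normalisation
  have hch : ∀ P : Sp, ∃ m : ℤ × ℤ × ℤ × ℤ, P ∈ S → (m.1 * m.2.2.2 - m.2.1 * m.2.2.1 = 1 ∧
      AW m.1 m.2.1 m.2.2.1 m.2.2.2 P 0 = 0 ∧ AW m.1 m.2.1 m.2.2.1 m.2.2.2 P 3 = (g : ℤ)) := by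
    intro P
    by_cases hP : P ∈ S
    · obtain ⟨-, -, -, h4, -, -, -, h8⟩ := hS P hP
      obtain ⟨p, q, r, s, e1, e2, e3⟩ := nrm P (by rw [h4]; exact hN.ne')
      exact ⟨(p, q, r, s), fun _ => ⟨e1, e2, by rw [e3, h8]⟩⟩
    · exact ⟨0, fun h => absurd h hP⟩
  choose m hm using hch
  set F : Sp → Sp := fun P => AW (m P).1 (m P).2.1 (m P).2.2.1 (m P).2.2.2 P with hFdef
  have hF : ∀ P ∈ S, Qd (F P) ∧ F P 0 = 0 ∧ F P 3 = (g : ℤ) ∧ Nf (F P) = N ∧ Bf (F P) = b ∧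
      om (F P) = w ∧ om2 (F P) = w2 ∧ 4 * N * Mf (F P) = b ^ 2 - D ∧ Mf (F P) = Mf P := by
    intro P hP
    obtain ⟨h1, -, h3, h4, h5, h6, h7, -⟩ := hS P hP
    obtain ⟨e1, e2, e3⟩ := hm P hP
    refine ⟨AW_qd h1 _ _ _ _ e1, e2, e3, ?_, ?_, ?_, ?_, ?_, AW_Mf _ _ _ _ e1⟩
    · rw [← h4]; exact AW_Nf _ _ _ _ e1
    · rw [← h5]; exact AW_Bf _ _ _ _ e1
    · rw [← h6]; exact AW_om _ _ _ _ e1
    · rw [← h7]; exact AW_om2 _ _ _ _ e1
    · have e4 : Mf (F P) = Mf P := AW_Mf _ _ _ _ e1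
      have e5 := Df_V h1
      rw [e4, ← h4, ← h5, ← h3, e5]
      ring
  obtain ⟨qQ, q0, q3, qN, qB, qo, qo2, qM, qMf⟩ := hF Q0 hQ0
  obtain ⟨-, hGl, hDf, hNf0, hBf0, -, -, -⟩ := hS Q0 hQ0
  set Q := F Q0 with hQdef
  have hg0 : (g : ℤ) ≠ 0 := by
    intro h0
    have h1 := (nf1 qQ q0).1
    rw [qN, q3, h0] at h1
    omega
  have hA0 : Q 6 ≠ 0 := by
    intro h0
    have h1 := (nf2 q0).1
    rw [qo, h0, mul_zero] at h1
    exact hw h1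
  have hc1 : N = -((g : ℤ) * Q 1) := by
    have h1 := (nf1 qQ q0).1
    rw [qN, q3] at h1
    exact h1
  have h6 : ∀ P ∈ S, F P 6 = Q 6 := by
    intro P hP
    obtain ⟨-, p0, p3, -, -, po, -, -, -⟩ := hF P hP
    have e1 := (nf2 p0).1
    have e2 := (nf2 q0).1
    rw [po, p3] at e1
    rw [qo, q3] at e2
    exact mul_left_cancel₀ (pow_ne_zero 2 hg0) (e1.symm.trans e2)
  have h9 : ∀ P ∈ S, F P 9 = Q 9 := by
    intro P hP
    obtain ⟨-, p0, p3, -, -, -, po, -, -⟩ := hF P hP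
    have e1 := (nf2 p0).2
    have e2 := (nf2 q0).2
    rw [po, p3] at e1
    rw [qo2, q3] at e2
    exact mul_left_cancel₀ (pow_ne_zero 2 hg0) (e1.symm.trans e2)
  have h1' : ∀ P ∈ S, F P 1 = Q 1 := by
    intro P hP
    obtain ⟨pQ, p0, p3, pN, -, -, -, -, -⟩ := hF P hP
    have e1 := (nf1 pQ p0).1
    rw [pN, p3, hc1] at e1
    exact mul_left_cancel₀ hg0 (by linarith)
  -- the gcd
  set G : ℕ := Int.gcd (Q 6) (Q 9) with hGdef
  have hG1 : 1 ≤ G := Nat.one_le_iff_ne_zero.mpr (by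
    rw [hGdef]
    exact fun h => hA0 (Int.gcd_eq_zero_iff.mp h).1)
  have hGz : (G : ℤ) ≠ 0 := by exact_mod_cast (by omega : G ≠ 0)
  obtain ⟨a, ha⟩ : (G : ℤ) ∣ Q 6 := Int.gcd_dvd_left _ _
  obtain ⟨a', ha'⟩ : (G : ℤ) ∣ Q 9 := Int.gcd_dvd_right _ _
  have hcop : IsCoprime a a' := by
    refine ⟨Int.gcdA (Q 6) (Q 9), Int.gcdB (Q 6) (Q 9), ?_⟩
    have h := Int.gcd_eq_gcd_ab (Q 6) (Q 9)
    apply mul_left_cancel₀ hGz
    rw [mul_one]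
    conv_rhs => rw [hGdef, h]
    linear_combination (-(Int.gcdA (Q 6) (Q 9))) * ha - Int.gcdB (Q 6) (Q 9) * ha'
  have ha0 : a ≠ 0 := by
    rintro rfl
    exact hA0 (by rw [ha, mul_zero])
  have hs : ∀ P : Sp, ∃ s : ℤ, P ∈ S → F P 7 = Q 7 + a * s ∧ F P 10 = Q 10 + a' * s := by
    intro P
    by_cases hP : P ∈ S
    · obtain ⟨pQ, p0, -, -, -, -, -, -, -⟩ := hF P hP
      have e1 := nf3 pQ p0
      have e2 := nf3 qQ q0
      rw [h6 P hP, h9 P hP, h1' P hP] at e1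
      have e3 : (F P 7 - Q 7) * a' = a * (F P 10 - Q 10) := by
        apply mul_left_cancel₀ hGz
        rw [ha, ha'] at e1 e2
        linear_combination e1 - e2
      have e4 : a ∣ F P 7 - Q 7 := by
        apply hcop.dvd_of_dvd_mul_right
        rw [e3]
        exact dvd_mul_right _ _
      obtain ⟨s, hs⟩ := e4
      refine ⟨s, fun _ => ⟨by linarith, ?_⟩⟩
      rw [hs] at e3
      have e5 := mul_left_cancel₀ ha0 (by linarith : a * (s * a') = a * (F P 10 - Q 10))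
      linarith
    · exact ⟨0, fun h => absurd h hP⟩
  choose sf hsf using hs
  -- the two congruences
  have hd1 : ∀ P ∈ S, (G : ℤ) ∣ sf P * (2 * Q 7 + sf P * a) := by
    intro P hP
    obtain ⟨pQ, -, -, pN, -, -, -, -, -⟩ := hF P hP
    obtain ⟨e7, -⟩ := hsf P hP
    have e1 := Nf_R pQ
    have e2 := Nf_R qQ
    rw [pN, h6 P hP, e7, ha] at e1
    rw [qN, ha] at e2
    refine ⟨F P 8 - Q 8, ?_⟩
    apply mul_left_cancel₀ ha0
    linear_combination e2 - e1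
  have hd2 : ∀ P ∈ S, a' = 0 ∨ (G : ℤ) ∣ sf P * (2 * Q 10 + sf P * a') := by
    intro P hP
    by_cases h0 : a' = 0
    · exact Or.inl h0
    · right
      obtain ⟨-, -, -, -, -, -, -, pM, -⟩ := hF P hP
      obtain ⟨-, e7⟩ := hsf P hP
      have e0 : Mf (F P) = Mf Q := by
        apply mul_left_cancel₀ (mul_ne_zero four_ne_zero hN.ne')
        rw [pM, qM]
      unfold Mf at e0
      rw [h9 P hP, e7, ha'] at e0
      refine ⟨F P 11 - Q 11, ?_⟩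
      apply mul_left_cancel₀ h0
      linear_combination e0
  -- the number of classes
  have hGN : (G : ℤ) ∣ Q 1 ^ 2 := by
    have e := nf3 qQ q0
    rw [← e, ha, ha']
    exact ⟨Q 7 * a' - a * Q 10, by ring⟩
  have hcl : ((S.image fun P => sf P % (G : ℤ)).card : ℝ) ≤ G.divisors.card * √(G : ℝ) := by
    apply gcl G hG1 a a' (Q 7) (Q 10) hcop
    intro t ht
    obtain ⟨P, hP, rfl⟩ := Finset.mem_image.mp ht
    have hGp : (0 : ℤ) < G := by exact_mod_cast hG1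
    refine ⟨Int.emod_nonneg _ hGz, Int.emod_lt_of_pos _ hGp, ?_, ?_⟩
    · have e := Int.emod_add_mul_ediv (sf P) (G : ℤ)
      set t := sf P % (G : ℤ)
      set k := sf P / (G : ℤ)
      have h1 := hd1 P hP
      rw [← e] at h1
      have e2 : t * (2 * Q 7 + t * a) = (t + G * k) * (2 * Q 7 + (t + G * k) * a) -
          G * (k * (2 * Q 7 + (t + G * k) * a) + t * k * a) := by ring
      rw [e2]
      exact dvd_sub h1 (dvd_mul_right _ _)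
    · rcases hd2 P hP with h0 | h1
      · exact Or.inl h0
      · right
        have e := Int.emod_add_mul_ediv (sf P) (G : ℤ)
        set t := sf P % (G : ℤ)
        set k := sf P / (G : ℤ)
        rw [← e] at h1
        have e2 : t * (2 * Q 10 + t * a') = (t + G * k) * (2 * Q 10 + (t + G * k) * a') -
            G * (k * (2 * Q 10 + (t + G * k) * a') + t * k * a') := by ring
        rw [e2]
        exact dvd_sub h1 (dvd_mul_right _ _)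
  -- the size of `G`
  have hGN2 : (G : ℤ) ∣ N ^ 2 := by
    refine hGN.trans ⟨(g : ℤ) ^ 2, ?_⟩
    rw [hc1]; ring
  have hGZ : G ≤ Z := by
    have h1 : (G : ℤ) ≤ N ^ 2 := Int.le_of_dvd (by positivity) hGN2
    exact_mod_cast h1.trans hZ
  have hTau : (G.divisors.card : ℝ) ≤ T := hT.2 G hG1 hGZ
  have hl1 := hGl.l1
  have hlz : (l : ℤ) ≠ 0 := by exact_mod_cast (by omega : l ≠ 0)
  have hG2 : G ^ 2 ∣ l ^ 3 := by
    obtain ⟨N1, hN1⟩ := hGl.dN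
    have hcp := hGl.cp
    rw [hN1, Int.mul_ediv_cancel_left _ hlz, hDf] at hcp
    rw [hNf0] at hN1
    obtain ⟨B1, hB1⟩ := hGl.dB
    rw [hBf0] at hB1
    obtain ⟨M1, hM1⟩ := hGl.dM
    rw [← qMf] at hM1
    have hD : D = b ^ 2 - 4 * N * Mf Q := by linear_combination qM
    have hlD : (l : ℤ) ∣ D := by
      rw [hD, hB1, hM1]
      exact ⟨l * B1 ^ 2 - 4 * N * M1, by ring⟩
    have hGD : (G : ℤ) ∣ D := by
      have e1 := Nf_R qQ
      rw [qN] at e1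
      have e2 : b = 2 * Q 7 * Q 10 - Q 6 * Q 11 - Q 8 * Q 9 := by rw [← qB]; rfl
      have e3 : Mf Q = Q 10 ^ 2 - Q 9 * Q 11 := rfl
      rw [hD, e1, e2, e3, ha, ha']
      refine ⟨-(2 * (2 * Q 7 * Q 10) * (a * Q 11 + Q 8 * a')) + G * (a * Q 11 + Q 8 * a') ^ 2 +
        4 * (a * Q 8 * Q 10 ^ 2 + Q 7 ^ 2 * a' * Q 11) - 4 * G * a * Q 8 * a' * Q 11, ?_⟩
      ring
    have hs1 := sqV qQ 1 0
    have e4 : Kf Q = Q 1 ^ 2 := by
      unfold Kf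
      rw [q0]; ring
    rw [qN, qB, e4] at hs1
    have h5 : (l : ℤ) * (G : ℤ) ^ 2 ∣ (l : ℤ) ^ 4 * N1 ^ 4 := by
      have e5 : (l : ℤ) ^ 4 * N1 ^ 4 = (g : ℤ) ^ 4 * ((Q 1 ^ 2) ^ 2) := by
        calc (l : ℤ) ^ 4 * N1 ^ 4 = N ^ 4 := by rw [hN1]; ring
          _ = (g : ℤ) ^ 4 * ((Q 1 ^ 2) ^ 2) := by rw [hc1]; ring
      have e6 : (Q 1 ^ 2) ^ 2 = (l : ℤ) * (G : ℤ) ^ 2 * (N1 * a' ^ 2 - B1 * a' * a + M1 * a ^ 2) := by
        have e7 : (Q 1 ^ 2) ^ 2 = N * (Q 9) ^ 2 - b * Q 9 * Q 6 + Mf Q * (Q 6) ^ 2 := by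
          linear_combination -hs1
        rw [e7, ha, ha', hM1]
        conv_lhs => rw [hN1, hB1]
        ring
      rw [e5, e6]
      exact ⟨(g : ℤ) ^ 4 * (N1 * a' ^ 2 - B1 * a' * a + M1 * a ^ 2), by ring⟩
    have c1 : IsCoprime N1 (l : ℤ) := IsCoprime.of_isCoprime_of_dvd_right hcp hlD
    have c2 : IsCoprime N1 (G : ℤ) := IsCoprime.of_isCoprime_of_dvd_right hcp hGD
    have c3 : IsCoprime ((l : ℤ) * (G : ℤ) ^ 2) (N1 ^ 4) :=
      (IsCoprime.pow_left (c1.mul_right (c2.pow_right))).symm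
    have h6 : (l : ℤ) * (G : ℤ) ^ 2 ∣ (l : ℤ) * (l : ℤ) ^ 3 := by
      have := c3.dvd_of_dvd_mul_right h5
      have e : (l : ℤ) ^ 4 = l * l ^ 3 := by ring
      rwa [e] at this
    have h7 := (mul_dvd_mul_iff_left hlz).mp h6
    exact_mod_cast h7
  have hsq : √(G : ℝ) ≤ (l : ℝ) ^ (3 / 4 : ℝ) := by
    have h1 : G ^ 2 ≤ l ^ 3 := Nat.le_of_dvd (by positivity) hG2
    have h2 : ((G : ℝ)) ^ 2 ≤ (l : ℝ) ^ 3 := by exact_mod_cast h1
    have h3 : √(G : ℝ) = ((G : ℝ) ^ 2) ^ (1 / 4 : ℝ) := by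
      rw [Real.sqrt_eq_rpow, ← Real.rpow_natCast, ← Real.rpow_mul (Nat.cast_nonneg _)]
      norm_num
    have h4 : (l : ℝ) ^ (3 / 4 : ℝ) = ((l : ℝ) ^ 3) ^ (1 / 4 : ℝ) := by
      rw [← Real.rpow_natCast (l : ℝ) 3, ← Real.rpow_mul (Nat.cast_nonneg _)]
      norm_num
    rw [h3, h4]
    exact Real.rpow_le_rpow (by positivity) h2 (by norm_num)
  have him : ((S.image fun P => sf P % (G : ℤ)).card : ℝ) ≤ T * (l : ℝ) ^ (3 / 4 : ℝ) := by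
    refine hcl.trans ?_
    have hT0 : 0 ≤ T := le_trans (Nat.cast_nonneg _) hTau
    exact mul_le_mul hTau hsq (Real.sqrt_nonneg _) hT0
  -- the fibres
  have hfib : ∀ t ∈ S.image (fun P => sf P % (G : ℤ)),
      ((S.filter fun P => sf P % (G : ℤ) = t).card : ℝ) ≤ K := by
    intro t ht
    obtain ⟨P0, hP0, hP0t⟩ := Finset.mem_image.mp ht
    apply hO P0 hP0 _ (Finset.filter_subset _ _)
    intro P hP
    obtain ⟨hPS, hPt⟩ := Finset.mem_filter.mp hP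
    obtain ⟨n, hn⟩ : ∃ n : ℤ, sf P = sf P0 + G * n := by
      have : sf P0 ≡ sf P [ZMOD (G : ℤ)] := by
        show sf P0 % (G : ℤ) = sf P % (G : ℤ)
        rw [hPt, hP0t]
      obtain ⟨n, hn⟩ := (Int.modEq_iff_dvd.mp this)
      exact ⟨n, by linarith⟩
    obtain ⟨pQ, p0, p3, pN, pB, po, po2, -, -⟩ := hF P hPS
    obtain ⟨rQ, r0, r3, rN, rB, ro, ro2, -, -⟩ := hF P0 hP0
    obtain ⟨e7, e10⟩ := hsf P hPS
    obtain ⟨f7, f10⟩ := hsf P0 hP0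
    have e := shf (F P) (F P0) pQ rQ (g : ℤ) n hg0 p0 r0 p3 r3 (by rw [pN, rN]) (by rw [pB, rB])
      (by rw [po, ro]) (by rw [po2, ro2]) (by rw [po]; exact hw)
      (by rw [e7, f7, h6 P0 hP0, hn, ha]; ring) (by rw [e10, f10, h9 P0 hP0, hn, ha']; ring)
    obtain ⟨d1, -, -⟩ := hm P hPS
    obtain ⟨d2, -, -⟩ := hm P0 hP0
    have e8 := Cls_inv _ _ _ _ d1 P
    have e9 : AW (m P).2.2.2 (-(m P).2.1) (-(m P).2.2.1) (m P).1 (F P) = P := e8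
    rw [e] at e9
    have e10 : F P0 = AW (m P0).1 (m P0).2.1 (m P0).2.2.1 (m P0).2.2.2 P0 := rfl
    rw [e10, AW_comp, AW_comp] at e9
    refine ⟨_, _, _, _, ?_, e9.symm⟩
    linear_combination ((m P).1 * (m P).2.2.2 - (m P).2.1 * (m P).2.2.1) * d2 + d1
  rw [Finset.card_eq_sum_card_image (fun P => sf P % (G : ℤ)) S]
  push_cast
  calc (∑ t ∈ S.image (fun P => sf P % (G : ℤ)), ((S.filter fun P => sf P % (G : ℤ) = t).card : ℝ))
      ≤ ∑ _t ∈ S.image (fun P => sf P % (G : ℤ)), K := Finset.sum_le_sum hfib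
    _ = ((S.image fun P => sf P % (G : ℤ)).card : ℝ) * K := by
        rw [Finset.sum_const, nsmul_eq_mul]
    _ ≤ T * (l : ℝ) ^ (3 / 4 : ℝ) * K := mul_le_mul_of_nonneg_right him hK

end Pool.Agent.LBT
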