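import Pool.Agent.LBT.Ndg

/-!
# LBT/Dat: the data of a good point

PROOF of `dat`.  `D = (- Df P).toNat`, `(D : ℤ) = - Df P > 0`, `(N : ℤ) = Nf P`.
`D3`: `Df P = Bf ^ 2 - 4 Nf Mf` (`Df_V`), so `- Df P ≡ - Bf ^ 2` modulo 4, `0` or `3`.  `eq` is `tt_sq`.  `w0` is `o0`.
`bad`: let `p` be a prime, `p ∣ N`, `p ∣ tt P = Bf om - 2 Nf om2`, so `p ∣ Bf om`.  First `p ∣ Df P`: otherwise `p ∤ Bf` (`Df_V` and `p ∣ Nf`), so
`p ∣ om` and `ndg` gives `p ∣ Df P`, a contradiction.  Let `Gl l P`: `Nf P = l N1`, `IsCoprime N1 (Df P)`, so `p ∤ N1`, so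
`p ∣ l`; `l` is odd, so `2 < p`; and `l` divides `Nf, Bf, Mf`, so `p ^ 2 ∣ Df P` and `p ^ 2 ∣ D`.
-/

set_option autoImplicit false

namespace Pool.Agent.LBT

open Pool.Agent.PP5

theorem dat (P : Sp) (E c H : ℝ) (hc : 0 < c) (hP : GP E c H P) (X a : ℕ) (h1 : (X : ℝ) ≤ 2 * (-(Df P : ℝ)))
    (h2 : -(Df P : ℝ) ≤ X) (h3 : 2 ≤ Nf P) (h4 : Nf P ≤ 4 * (a : ℤ) ^ 2) :
    Pool.Agent.FTL.Qdq X a 2 (qF P) := by
  have hdl : (0 : ℝ) < -(Df P : ℝ) := lt_of_lt_of_le hc hP.dl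
  have hD0 : 0 < -(Df P) := by
    have h5 : (0 : ℝ) < ((-(Df P) : ℤ) : ℝ) := by push_cast; exact hdl
    exact_mod_cast h5
  have hDc : (((-(Df P)).toNat : ℕ) : ℤ) = -(Df P) := Int.toNat_of_nonneg hD0.le
  have hNc : (((Nf P).toNat : ℕ) : ℤ) = Nf P := Int.toNat_of_nonneg hP.np.le
  have g1 : (X : ℤ) ≤ 2 * -(Df P) := by
    have h5 : ((X : ℤ) : ℝ) ≤ ((2 * -(Df P) : ℤ) : ℝ) := by push_cast; exact h1
    exact_mod_cast h5
  have g2 : -(Df P) ≤ (X : ℤ) := by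
    have h5 : ((-(Df P) : ℤ) : ℝ) ≤ ((X : ℤ) : ℝ) := by push_cast; exact h2
    exact_mod_cast h5
  have hV := Df_V hP.qd
  show Pool.Agent.FTL.Qd X a 2 (-(Df P)).toNat (Nf P).toNat (om P) (tt P)
  refine ⟨?_, ?_, ?_, ?_, ?_, hP.o0, ?_, ?_⟩
  · omega
  · omega
  · have h6 : (Bf P) ^ 2 % 4 = 0 ∨ (Bf P) ^ 2 % 4 = 1 := by
      rcases Int.even_or_odd (Bf P) with ⟨k, hk⟩ | ⟨k, hk⟩
      · left
        have e : (Bf P) ^ 2 = 4 * k ^ 2 := by rw [hk]; ring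
        rw [e]
        omega
      · right
        have e : (Bf P) ^ 2 = 4 * (k ^ 2 + k) + 1 := by rw [hk]; ring
        rw [e]
        omega
    obtain ⟨M, hM⟩ : ∃ M : ℤ, M = Nf P * Mf P := ⟨_, rfl⟩
    have e2 : Df P = (Bf P) ^ 2 - 4 * M := by rw [hV, hM]; ring
    obtain ⟨B, hB⟩ : ∃ B : ℤ, B = (Bf P) ^ 2 := ⟨_, rfl⟩
    rw [← hB] at h6 e2
    omega
  · omega
  · zify
    rw [hNc]
    exact_mod_cast h4
  · rw [hDc, hNc, tt_sq hP.qd]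
    ring
  · intro p hp hpN hpt
    have hpN' : (p : ℤ) ∣ Nf P := by
      rw [← hNc]
      exact_mod_cast hpN
    have hpp : Prime (p : ℤ) := Nat.prime_iff_prime_int.1 hp
    have hBo : (p : ℤ) ∣ Bf P * om P := by
      have e : Bf P * om P = tt P + 2 * om2 P * Nf P := by unfold tt; ring
      rw [e]
      exact dvd_add hpt (Dvd.dvd.mul_left hpN' _)
    have hpD : (p : ℤ) ∣ Df P := by
      rcases hpp.dvd_or_dvd hBo with h5 | h5
      · rw [hV]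
        refine dvd_sub (dvd_pow h5 (by norm_num)) ?_
        have e : 4 * Nf P * Mf P = 4 * Mf P * Nf P := by ring
        rw [e]
        exact Dvd.dvd.mul_left hpN' _
      · exact ndg P hP.qd p hp hpN' h5
    obtain ⟨l, hl⟩ := hP.gl
    have hpl : (p : ℤ) ∣ (l : ℤ) := by
      have e : Nf P = (l : ℤ) * (Nf P / (l : ℤ)) := (Int.mul_ediv_cancel' hl.dN).symm
      rw [e] at hpN'
      rcases hpp.dvd_or_dvd hpN' with h5 | h5
      · exact h5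
      · exact absurd (hl.cp.isUnit_of_dvd' h5 hpD) hpp.not_isUnit
    have hpl' : p ∣ l := by exact_mod_cast hpl
    refine ⟨?_, ?_⟩
    · have h5 : p ≠ 2 := by
        rintro rfl
        exact (Nat.not_even_iff_odd.2 hl.od) (even_iff_two_dvd.2 hpl')
      have h6 := hp.two_le
      have h7 : 2 < p := by omega
      exact_mod_cast h7
    · obtain ⟨x1, hx1⟩ := hpl.trans hl.dN
      obtain ⟨x2, hx2⟩ := hpl.trans hl.dB
      obtain ⟨x3, hx3⟩ := hpl.trans hl.dM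
      have h8 : (((p ^ 2 : ℕ)) : ℤ) ∣ (((-(Df P)).toNat : ℕ) : ℤ) := by
        rw [hDc, hV, hx1, hx2, hx3]
        push_cast
        exact ⟨-(x2 ^ 2 - 4 * x1 * x3), by ring⟩
      exact_mod_cast h8

end Pool.Agent.LBT
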