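import Pool.Agent.LBT.Act

/-!
# LBT/Orb: few points of an orbit of `SL2(Z)` (basis of `W`) in the box

PROOF of `orb`.  Let `P = AW p q r s P0`.  `AW_Kf`, `Df_W P0`: `4 Kf P0 · Kf P = (2 Kf P0 p + Bg P0 q) ^ 2 - Df P0 q ^ 2 ≥ c q ^ 2`, so
`q ^ 2 ≤ 4 E ^ 2 / c`, `|q| ≤ 2 E / √c`; `4 Kg P0 · Kf P = (2 Kg P0 q + Bg P0 p) ^ 2 - Df P0 p ^ 2 ≥ c p ^ 2`, so `|p| ≤ 2 E / √c`; the same for
`r, s` with `AW_Kg`.  There are at most `4 E / √c + 1` integers `x` with `|x| ≤ 2 E / √c`.  So `S` is contained in the image of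
`I ^ 4` (`I = Icc (-m) m`, `m = ⌊2 E / √c⌋`) under `(p, q, r, s) ↦ AW p q r s P0`.
-/

set_option autoImplicit false

namespace Pool.Agent.LBT

open Pool.Agent.PP5

private theorem Orb_sq (E c : ℝ) (hc : 0 < c) (hE : 0 < E) (A B C D K p q : ℤ) (hD : D = B ^ 2 - 4 * A * C)
    (hcD : c ≤ -(D : ℝ)) (hA : 0 < A) (hAE : (A : ℝ) ≤ E) (hK : K = A * p ^ 2 + B * p * q + C * q ^ 2)
    (hKE : (K : ℝ) ≤ E) : |(q : ℝ)| ≤ 2 * E / √c := by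
  have hAr : (0 : ℝ) < A := by exact_mod_cast hA
  have h1 : 4 * A * K = (2 * A * p + B * q) ^ 2 - D * q ^ 2 := by
    rw [hK, hD]; ring
  have h1r : 4 * (A : ℝ) * K = (2 * (A : ℝ) * p + B * q) ^ 2 - D * (q : ℝ) ^ 2 := by
    exact_mod_cast h1
  have h2 : 4 * (A : ℝ) * K ≤ 4 * E * E := by
    have e1 : (A : ℝ) * K ≤ A * E := mul_le_mul_of_nonneg_left hKE hAr.le
    have e2 : (A : ℝ) * E ≤ E * E := mul_le_mul_of_nonneg_right hAE hE.le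
    nlinarith
  have h3 : c * (q : ℝ) ^ 2 ≤ -(D : ℝ) * (q : ℝ) ^ 2 :=
    mul_le_mul_of_nonneg_right hcD (sq_nonneg _)
  have h4 : c * (q : ℝ) ^ 2 ≤ 4 * E * E := by
    nlinarith [sq_nonneg (2 * (A : ℝ) * p + B * q)]
  have hs : 0 < √c := Real.sqrt_pos.mpr hc
  have hs2 : √c ^ 2 = c := Real.sq_sqrt hc.le
  rw [le_div_iff₀ hs]
  have h5 : (|(q : ℝ)| * √c) ^ 2 ≤ (2 * E) ^ 2 := by
    rw [mul_pow, sq_abs, hs2]
    nlinarith
  exact le_of_sq_le_sq h5 (by positivity)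

theorem orb (E c : ℝ) (hc : 0 < c) (hE : 0 < E) (P0 : Sp) (hq : Qd P0) (hD : c ≤ -(Df P0 : ℝ))
    (hk : 0 < Kf P0 ∧ (Kf P0 : ℝ) ≤ E) (hk' : 0 < Kg P0 ∧ (Kg P0 : ℝ) ≤ E) (S : Finset Sp)
    (hS : ∀ P ∈ S, (Kf P : ℝ) ≤ E ∧ (Kg P : ℝ) ≤ E ∧
      ∃ p q r s : ℤ, p * s - q * r = 1 ∧ P = AW p q r s P0) :
    (S.card : ℝ) ≤ (4 * E / √c + 1) ^ 4 := by
  classical
  have hs : 0 < √c := Real.sqrt_pos.mpr hc
  set M : ℝ := 2 * E / √c with hM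
  have hM0 : 0 ≤ M := by positivity
  set m : ℕ := ⌊M⌋₊ with hm
  have hmM : (m : ℝ) ≤ M := Nat.floor_le hM0
  set I : Finset ℤ := Finset.Icc (-(m : ℤ)) m with hI
  have hmem : ∀ x : ℤ, |(x : ℝ)| ≤ M → x ∈ I := by
    intro x hx
    have h1 : ((x.natAbs : ℕ) : ℝ) ≤ M := by
      rw [Nat.cast_natAbs]
      push_cast
      exact hx
    have h2 : x.natAbs ≤ m := Nat.le_floor h1
    rw [hI, Finset.mem_Icc]
    omega
  have hIc : I.card = 2 * m + 1 := by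
    rw [hI, Int.card_Icc]
    omega
  have hDf : Df P0 = Bg P0 ^ 2 - 4 * Kf P0 * Kg P0 := Df_W hq
  have hDf' : Df P0 = Bg P0 ^ 2 - 4 * Kg P0 * Kf P0 := by rw [hDf]; ring
  have hsub : S ⊆ (I ×ˢ I ×ˢ I ×ˢ I).image (fun t => AW t.1 t.2.1 t.2.2.1 t.2.2.2 P0) := by
    intro P hP
    obtain ⟨h1, h2, p, q, r, s, hd, rfl⟩ := hS P hP
    rw [Finset.mem_image]
    refine ⟨(p, q, r, s), ?_, rfl⟩
    simp only [Finset.mem_product]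
    refine ⟨hmem p ?_, hmem q ?_, hmem r ?_, hmem s ?_⟩
    · exact Orb_sq E c hc hE (Kg P0) (Bg P0) (Kf P0) (Df P0) _ q p hDf' hD hk'.1 hk'.2
        (by rw [AW_Kf]; ring) h1
    · exact Orb_sq E c hc hE (Kf P0) (Bg P0) (Kg P0) (Df P0) _ p q hDf hD hk.1 hk.2
        (by rw [AW_Kf]) h1
    · exact Orb_sq E c hc hE (Kg P0) (Bg P0) (Kf P0) (Df P0) _ s r hDf' hD hk'.1 hk'.2
        (by rw [AW_Kg]; ring) h2
    · exact Orb_sq E c hc hE (Kf P0) (Bg P0) (Kg P0) (Df P0) _ r s hDf hD hk.1 hk.2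
        (by rw [AW_Kg]) h2
  have hcard : S.card ≤ (2 * m + 1) ^ 4 := by
    refine (Finset.card_le_card hsub).trans (Finset.card_image_le.trans ?_)
    simp only [Finset.card_product, hIc]
    apply le_of_eq
    ring
  have h6 : (S.card : ℝ) ≤ (2 * (m : ℝ) + 1) ^ 4 := by exact_mod_cast hcard
  refine h6.trans ?_
  have h7 : 2 * (m : ℝ) + 1 ≤ 4 * E / √c + 1 := by
    have : 4 * E / √c = 2 * M := by rw [hM]; ring
    rw [this]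
    linarith
  gcongr

end Pool.Agent.LBT
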