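import Pool.Agent.FTA.Fib
import Pool.Agent.LBT.Cls
import Pool.Agent.LBT.Orb

/-!
# LBT/Fbo: the points with given data and given `(l, Bf)`

PROOF of `fb1`.  For `P ∈ S`, `q = ((- Df P).toNat, (Nf P).toNat, om P, tt P)` with `- Df P > 0` and `Nf P > 0`, so `Df P`, `Nf P`, `om P`, `tt P` are
the same for all `P ∈ S`; `tt = Bf om - 2 Nf om2` and `Nf ≠ 0` give `om2 P` the same.  `g P = gcd (P 0) (P 3)` divides `Nf P = P 0 P 4 - P 1 P 3`, so it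
lies in `(Nf P).toNat.divisors`, at most `T` elements (`N ≤ N ^ 2 ≤ (E H ^ 2) ^ 2 ≤ Z`).  For fixed `g` use `cls` with
`K = (4 E / √c + 1) ^ 4`, `hO` from `orb` (`GP` gives the hypotheses for `P0` and for `P ∈ S'`).  `Pool.Agent.FTA.fib_const`.
-/

set_option autoImplicit false

namespace Pool.Agent.LBT

open Pool.Agent.PP5

theorem fb1 (E c H T : ℝ) (Z l : ℕ) (b : ℤ) (q : Pool.Agent.FTL.Qt) (hc : 0 < c) (hE : 0 < E)
    (hT : Pool.Agent.FTB.TauB Z T) (hZ : (E * H ^ 2) ^ 2 ≤ (Z : ℝ)) (S : Finset Sp)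
    (hS : ∀ P ∈ S, GP E c H P ∧ Gl l P ∧ Bf P = b ∧ qF P = q) :
    (S.card : ℝ) ≤ T ^ 2 * (l : ℝ) ^ (3 / 4 : ℝ) * (4 * E / √c + 1) ^ 4 := by
  have hT1 : 1 ≤ T := hT.1
  have hT0 : 0 ≤ T := le_trans zero_le_one hT1
  have hl0 : (0 : ℝ) ≤ (l : ℝ) ^ (3 / 4 : ℝ) := Real.rpow_nonneg (Nat.cast_nonneg l) _
  have hK : (0 : ℝ) ≤ (4 * E / √c + 1) ^ 4 := by positivity
  rcases S.eq_empty_or_nonempty with he | ⟨Q, hQ⟩
  · subst he
    simp only [Finset.card_empty, Nat.cast_zero]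
    positivity
  obtain ⟨gQ, -, bQ, qQ⟩ := hS Q hQ
  have hNQ : 0 < Nf Q := gQ.np
  have hneg : ∀ P ∈ S, 0 < -(Df P) := by
    intro P hP
    have h1 : (0 : ℝ) < -(Df P : ℝ) := lt_of_lt_of_le hc (hS P hP).1.dl
    exact_mod_cast h1
  have hsame : ∀ P ∈ S, Df P = Df Q ∧ Nf P = Nf Q ∧ om P = om Q ∧ om2 P = om2 Q := by
    intro P hP
    obtain ⟨gP, -, bP, qP⟩ := hS P hP
    have h1 : qF P = qF Q := qP.trans qQ.symm
    have e1 : (-(Df P)).toNat = (-(Df Q)).toNat := congrArg (fun x => x.1) h1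
    have e2 : (Nf P).toNat = (Nf Q).toNat := congrArg (fun x => x.2.1) h1
    have e3 : om P = om Q := congrArg (fun x => x.2.2.1) h1
    have e4 : tt P = tt Q := congrArg (fun x => x.2.2.2) h1
    have d1 := hneg P hP
    have d2 := hneg Q hQ
    have n1 := gP.np
    have hD : Df P = Df Q := by omega
    have hN : Nf P = Nf Q := by omega
    refine ⟨hD, hN, e3, ?_⟩
    unfold tt at e4
    rw [bP, bQ, e3, hN] at e4
    have h2 : Nf Q * om2 P = Nf Q * om2 Q := by linarith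
    exact mul_left_cancel₀ hNQ.ne' h2
  have hZN : (Nf Q) ^ 2 ≤ (Z : ℤ) := by
    have h1 : (Nf Q : ℝ) ≤ E * H ^ 2 := gQ.nu
    have h0 : (0 : ℝ) ≤ (Nf Q : ℝ) := by exact_mod_cast hNQ.le
    have h2 : (Nf Q : ℝ) ^ 2 ≤ (E * H ^ 2) ^ 2 := pow_le_pow_left₀ h0 h1 2
    have h3 : (Nf Q : ℝ) ^ 2 ≤ (Z : ℝ) := h2.trans hZ
    exact_mod_cast h3
  have hdiv : (((Nf Q).toNat.divisors.card : ℕ) : ℝ) ≤ T := by
    refine hT.2 _ ?_ ?_
    · omega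
    · have h1 : Nf Q ≤ (Nf Q) ^ 2 := by nlinarith
      omega
  have hmain := Pool.Agent.FTA.fib_const S (fun P => Int.gcd (P 0) (P 3))
    ((Nf Q).toNat.divisors) ?_ (T * (l : ℝ) ^ (3 / 4 : ℝ) * (4 * E / √c + 1) ^ 4) ?_
  · refine hmain.trans ?_
    have h1 : (0 : ℝ) ≤ T * (l : ℝ) ^ (3 / 4 : ℝ) * (4 * E / √c + 1) ^ 4 := by positivity
    calc (((Nf Q).toNat.divisors.card : ℕ) : ℝ)
          * (T * (l : ℝ) ^ (3 / 4 : ℝ) * (4 * E / √c + 1) ^ 4)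
        ≤ T * (T * (l : ℝ) ^ (3 / 4 : ℝ) * (4 * E / √c + 1) ^ 4) :=
          mul_le_mul_of_nonneg_right hdiv h1
      _ = T ^ 2 * (l : ℝ) ^ (3 / 4 : ℝ) * (4 * E / √c + 1) ^ 4 := by ring
  · intro P hP
    have hN := (hsame P hP).2.1
    have h1 : ((Int.gcd (P 0) (P 3) : ℕ) : ℤ) ∣ Nf Q := by
      rw [← hN]
      unfold Nf
      exact dvd_sub (Dvd.dvd.mul_right (Int.gcd_dvd_left _ _) _)
        (Dvd.dvd.mul_left (Int.gcd_dvd_right _ _) _)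
    rw [Nat.mem_divisors]
    refine ⟨?_, by omega⟩
    have h2 : ((Int.gcd (P 0) (P 3) : ℕ) : ℤ) ∣ (((Nf Q).toNat : ℕ) : ℤ) := by
      rw [Int.toNat_of_nonneg hNQ.le]
      exact h1
    exact Int.natCast_dvd_natCast.1 h2
  · intro g _
    refine cls l g Z (Nf Q) b (om Q) (om2 Q) (Df Q) T _ hT hNQ gQ.o0 hZN hK _ ?_ ?_
    · intro P hP
      obtain ⟨hPS, hPg⟩ := Finset.mem_filter.1 hP
      obtain ⟨gP, lP, bP, -⟩ := hS P hPS
      obtain ⟨h1, h2, h3, h4⟩ := hsame P hPS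
      exact ⟨gP.qd, lP, h1, h2, bP, h3, h4, hPg⟩
    · intro P0 hP0 S' hS' hex
      have g0 := (hS P0 (Finset.mem_filter.1 hP0).1).1
      refine orb E c hc hE P0 g0.qd g0.dl ⟨g0.kp, g0.ku⟩ ⟨g0.gp, g0.gu⟩ S' ?_
      intro P hP
      have gP := (hS P (Finset.mem_filter.1 (hS' hP)).1).1
      exact ⟨gP.ku, gP.gu, hex P hP⟩

end Pool.Agent.LBT
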