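import Pool.Agent.FTL.LFd
import Pool.Agent.LBT.Fbo
import Pool.Agent.LBT.Bct

/-!
# LBT/Fbt: the points with given data

PROOF of `fb2`.  If `S` is empty clear (right side `≥ 0`).  All `P ∈ S` have the same `N = Nf P > 0`, `Df P = - D`, `D = q.1 ≥ 1`.
Choose `l P` with `Gl (l P) P` (field `gl`); `l P ∣ N`, so at most `card N.toNat.divisors ≤ T` values (`N ≤ (E H ^ 2) ^ 2 ≤ Z` because `N ≤ N ^ 2`).
Fix `l`.  `N = l N1`, and for `P` in the fibre `Bf P = l b1`, `Mf P = l M1`, `D = l ^ 2 D1` with `D1 = 4 N1 M1 - b1 ^ 2` (`Df_V`; `D1` does not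
depend on `P`); so `N1 ∣ b1 ^ 2 + D1`, and `IsCoprime b1 N1` (a prime dividing both divides `D1`, so `D = - Df P`, but `N1` is prime to `Df P`).
`|b1| ≤ 2 E H / l`.  `bct`: at most `card N1.divisors * (1 + 8 E H / N)` values of `b1`; `card N1.divisors ≤ T`, and `4 N Mf ≥ D ≥ c`, `Mf ≤ E`, so
`N ≥ c / (4 E)` and `8 E H / N ≤ 32 E ^ 2 H / c`.  Fix also `b = Bf P`: `fb1`.  `l ≤ F`: `l` odd, `l ^ 2 ∣ D`, so `l ∣ cf D` by `fld` of FTL
(`D % 4 = 0 ∨ D % 4 = 3` from `- D = b ^ 2 - 4 N M`), `1 ≤ cf D ≤ F`.  Together `T * (T (1 + 32 E ^ 2 H / c)) * (T ^ 2 F ^ (3/4) (4 E / √c + 1) ^ 4)`.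
-/

set_option autoImplicit false

namespace Pool.Agent.LBT

open Pool.Agent.PP5

private noncomputable def fbt_l (P : Sp) : ℕ := by
  classical
  exact if h : ∃ l : ℕ, Gl l P then h.choose else 0

private theorem fbt_l_spec {P : Sp} (h : ∃ l : ℕ, Gl l P) : Gl (fbt_l P) P := by
  unfold fbt_l
  rw [dif_pos h]
  exact h.choose_spec

/-- the data of a point -/
private theorem fbt_dat {E c H : ℝ} {q : Pool.Agent.FTL.Qt} {P : Sp} (hc : 0 < c) (hP : GP E c H P)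
    (hq : qF P = q) : Df P = -(q.1 : ℤ) ∧ Nf P = (q.2.1 : ℤ) ∧ 1 ≤ q.1 ∧ 1 ≤ q.2.1 := by
  have h1 : (-(Df P)).toNat = q.1 := by rw [← hq]; rfl
  have h2 : (Nf P).toNat = q.2.1 := by rw [← hq]; rfl
  have hd : 0 < -(Df P) := by
    have : (0 : ℝ) < ((-(Df P) : ℤ) : ℝ) := by
      push_cast
      exact lt_of_lt_of_le hc hP.dl
    exact_mod_cast this
  have hn := hP.np
  refine ⟨?_, ?_, ?_, ?_⟩
  · rw [← h1]; omega
  · rw [← h2]; omega
  · rw [← h1]; omega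
  · rw [← h2]; omega

/-- `D % 4` -/
private theorem fbt_mod {P : Sp} (D : ℕ) (hP : Qd P) (hD : Df P = -(D : ℤ)) : D % 4 = 0 ∨ D % 4 = 3 := by
  have h1 := Df_V hP
  rw [hD] at h1
  have h2 : (D : ℤ) = 4 * (Nf P * Mf P) - Bf P ^ 2 := by linarith
  rcases Int.even_or_odd (Bf P) with ⟨k, hk⟩ | ⟨k, hk⟩
  · left
    rw [hk] at h2
    have h3 : (D : ℤ) = 4 * (Nf P * Mf P - k ^ 2) := by rw [h2]; ring
    omega
  · right
    rw [hk] at h2
    have h3 : (D : ℤ) = 4 * (Nf P * Mf P - k ^ 2 - k) - 1 := by rw [h2]; ring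
    omega

/-- what a point of the fibre of `l` gives -/
private theorem fbt_fib {E c H : ℝ} {q : Pool.Agent.FTL.Qt} {P : Sp} {l : ℕ} (hc : 0 < c)
    (hP : GP E c H P) (hq : qF P = q) (hl : Gl l P) :
    (l ^ 2 : ℕ) ∣ q.1 ∧ l ∣ q.2.1 ∧ (l : ℤ) ∣ Bf P ∧
      ((q.2.1 / l : ℕ) : ℤ) ∣ (Bf P / l) ^ 2 + ((q.1 / l ^ 2 : ℕ) : ℤ) ∧
      IsCoprime (Bf P / l) ((q.2.1 / l : ℕ) : ℤ) := by
  obtain ⟨hD, hN, hD1, hN1⟩ := fbt_dat hc hP hq
  have hl0 : (l : ℤ) ≠ 0 := by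
    have := hl.l1
    exact_mod_cast (by omega : l ≠ 0)
  have hl0' : 0 < l := hl.l1
  obtain ⟨n1, hn1⟩ := hl.dN
  obtain ⟨b1, hb1⟩ := hl.dB
  obtain ⟨m1, hm1⟩ := hl.dM
  have hV := Df_V hP.qd
  rw [hD, hn1, hb1, hm1] at hV
  have hDl : (q.1 : ℤ) = (l : ℤ) ^ 2 * (4 * n1 * m1 - b1 ^ 2) := by linarith
  have hd1 : (l ^ 2 : ℕ) ∣ q.1 := by
    have : ((l ^ 2 : ℕ) : ℤ) ∣ (q.1 : ℤ) := by
      rw [hDl]; push_cast
      exact dvd_mul_right _ _
    exact_mod_cast this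
  have hd2 : l ∣ q.2.1 := by
    have : (l : ℤ) ∣ (q.2.1 : ℤ) := by rw [← hN]; exact hl.dN
    exact_mod_cast this
  have e1 : ((q.2.1 / l : ℕ) : ℤ) = n1 := by
    rw [Int.natCast_div, ← hN, hn1]
    exact Int.mul_ediv_cancel_left _ hl0
  have e2 : Bf P / (l : ℤ) = b1 := by
    rw [hb1]; exact Int.mul_ediv_cancel_left _ hl0
  have e3 : ((q.1 / l ^ 2 : ℕ) : ℤ) = 4 * n1 * m1 - b1 ^ 2 := by
    rw [Int.natCast_div, hDl]
    push_cast
    exact Int.mul_ediv_cancel_left _ (pow_ne_zero 2 hl0)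
  refine ⟨hd1, hd2, hl.dB, ?_, ?_⟩
  · rw [e1, e2, e3]
    exact ⟨4 * m1, by ring⟩
  · rw [e1, e2]
    have h3 := hl.cp
    rw [hD, hDl, hn1, Int.mul_ediv_cancel_left _ hl0] at h3
    obtain ⟨u, v, huv⟩ := h3
    refine ⟨v * (l : ℤ) ^ 2 * b1, u - v * (l : ℤ) ^ 2 * (4 * m1), ?_⟩
    linear_combination huv

theorem fb2 (E c H T : ℝ) (Z F : ℕ) (q : Pool.Agent.FTL.Qt) (hc : 0 < c) (hE : 0 < E) (hH : 1 ≤ H)
    (hT : Pool.Agent.FTB.TauB Z T) (hZ : (E * H ^ 2) ^ 2 ≤ (Z : ℝ)) (hF : Pool.Agent.FTL.cf q.1 ≤ F)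
    (S : Finset Sp) (hS : ∀ P ∈ S, GP E c H P ∧ qF P = q) :
    (S.card : ℝ) ≤ T ^ 4 * (1 + 32 * E ^ 2 * H / c) * (4 * E / √c + 1) ^ 4 * (F : ℝ) ^ (3 / 4 : ℝ) := by
  classical
  have hT1 : 1 ≤ T := hT.1
  have hT0 : 0 < T := by linarith
  have hH0 : 0 < H := by linarith
  have hK : 0 ≤ (4 * E / √c + 1) ^ 4 := by positivity
  have hFp : 0 ≤ (F : ℝ) ^ (3 / 4 : ℝ) := by positivity
  rcases S.eq_empty_or_nonempty with rfl | ⟨P0, hP0⟩
  · simp only [Finset.card_empty, Nat.cast_zero]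
    positivity
  obtain ⟨hG0, hq0⟩ := hS P0 hP0
  obtain ⟨hD0, hN0, hD1, hN1⟩ := fbt_dat hc hG0 hq0
  -- sizes
  have hNr : (1 : ℝ) ≤ (q.2.1 : ℝ) := by exact_mod_cast hN1
  have hNu : (q.2.1 : ℝ) ≤ E * H ^ 2 := by
    have := hG0.nu
    rw [hN0] at this
    exact_mod_cast this
  have hNZ : q.2.1 ≤ Z := by
    have : (q.2.1 : ℝ) ≤ (Z : ℝ) := by
      calc (q.2.1 : ℝ) ≤ (q.2.1 : ℝ) ^ 2 := by nlinarith
        _ ≤ (E * H ^ 2) ^ 2 := by
            apply pow_le_pow_left₀ (by linarith) hNu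
        _ ≤ Z := hZ
    exact_mod_cast this
  have hdivT : ∀ n : ℕ, 1 ≤ n → n ≤ q.2.1 → (n.divisors.card : ℝ) ≤ T :=
    fun n h1 h2 => hT.2 n h1 (h2.trans hNZ)
  have hNc : c ≤ 4 * E * (q.2.1 : ℝ) := by
    have h1 := Df_V hG0.qd
    have h2 := hG0.dl
    have h3 := hG0.mu
    rw [h1, hN0] at h2
    push_cast at h2
    have h4 : (Mf P0 : ℝ) * (q.2.1 : ℝ) ≤ E * (q.2.1 : ℝ) := mul_le_mul_of_nonneg_right h3 (by linarith)
    nlinarith [sq_nonneg (Bf P0 : ℝ)]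
  have hfin : ∀ l : ℕ, l ∈ q.2.1.divisors →
      ((S.filter (fun P => fbt_l P = l)).card : ℝ) ≤
        T * (1 + 32 * E ^ 2 * H / c) * (T ^ 2 * (F : ℝ) ^ (3 / 4 : ℝ) * (4 * E / √c + 1) ^ 4) := by
    intro l hl
    rcases (S.filter (fun P => fbt_l P = l)).eq_empty_or_nonempty with he | ⟨P1, hP1⟩
    · rw [he]
      simp only [Finset.card_empty, Nat.cast_zero]
      positivity
    rw [Finset.mem_filter] at hP1
    have hSl : ∀ P ∈ S.filter (fun P => fbt_l P = l), GP E c H P ∧ qF P = q ∧ Gl l P := by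
      intro P hP
      rw [Finset.mem_filter] at hP
      obtain ⟨h1, h2⟩ := hS P hP.1
      have h3 := fbt_l_spec h1.gl
      rw [hP.2] at h3
      exact ⟨h1, h2, h3⟩
    obtain ⟨hG1, hq1, hl1⟩ := hSl P1 (by rw [Finset.mem_filter]; exact hP1)
    obtain ⟨hlD, hlN, -, -, -⟩ := fbt_fib hc hG1 hq1 hl1
    have hlp : 0 < l := hl1.l1
    have hl0 : (l : ℤ) ≠ 0 := by exact_mod_cast (by omega : l ≠ 0)
    have hlr : (0 : ℝ) < (l : ℝ) := by exact_mod_cast hlp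
    -- `l ≤ F`
    have hlF : l ≤ F := by
      obtain ⟨-, -, -, h4, h5⟩ := Pool.Agent.FTL.fld q.1 hD1 (fbt_mod q.1 hG1.qd
        (fbt_dat hc hG1 hq1).1)
      exact (Nat.le_of_dvd (by omega) (h5 l hl1.od hlD)).trans hF
    have hlF' : (l : ℝ) ^ (3 / 4 : ℝ) ≤ (F : ℝ) ^ (3 / 4 : ℝ) := by
      apply Real.rpow_le_rpow hlr.le (by exact_mod_cast hlF) (by norm_num)
    -- the values of `b`
    have hN1' : 1 ≤ q.2.1 / l := Nat.div_pos (Nat.le_of_dvd hN1 hlN) hlp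
    have hb := bct (q.2.1 / l) hN1' ((q.1 / l ^ 2 : ℕ) : ℤ) (2 * E * H / l) (by positivity)
      ((S.filter (fun P => fbt_l P = l)).image (fun P => Bf P / (l : ℤ))) (by
        intro b hb
        rw [Finset.mem_image] at hb
        obtain ⟨P, hP, rfl⟩ := hb
        obtain ⟨hG, hq, hl⟩ := hSl P hP
        obtain ⟨-, -, h3, h4, h5⟩ := fbt_fib hc hG hq hl
        refine ⟨?_, h4, h5⟩
        obtain ⟨b1, hb1⟩ := h3
        have h6 := hG.bu
        rw [hb1, Int.mul_ediv_cancel_left _ hl0]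
        rw [hb1] at h6
        push_cast at h6
        rw [abs_mul, abs_of_pos hlr] at h6
        rw [le_div_iff₀ hlr]
        linarith)
    have hNl : ((q.2.1 / l : ℕ) : ℝ) * (l : ℝ) = (q.2.1 : ℝ) := by
      exact_mod_cast Nat.div_mul_cancel hlN
    have hb2 : (((S.filter (fun P => fbt_l P = l)).image (fun P => Bf P / (l : ℤ))).card : ℝ) ≤
        T * (1 + 32 * E ^ 2 * H / c) := by
      refine hb.trans ?_
      have h1 : ((q.2.1 / l).divisors.card : ℝ) ≤ T := hdivT _ hN1' (Nat.div_le_self _ _)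
      have h2 : 4 * (2 * E * H / l) / ((q.2.1 / l : ℕ) : ℝ) ≤ 32 * E ^ 2 * H / c := by
        have h3 : 4 * (2 * E * H / l) / ((q.2.1 / l : ℕ) : ℝ) = 8 * E * H / (q.2.1 : ℝ) := by
          have h0 : (0 : ℝ) < ((q.2.1 / l : ℕ) : ℝ) := by exact_mod_cast hN1'
          rw [← hNl]
          field_simp
          ring
        rw [h3, div_le_div_iff₀ (by linarith) hc]
        have : 8 * E * H * c ≤ 8 * E * H * (4 * E * (q.2.1 : ℝ)) :=
          mul_le_mul_of_nonneg_left hNc (by positivity)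
        linarith
      have h4 : (0 : ℝ) ≤ 1 + 4 * (2 * E * H / l) / ((q.2.1 / l : ℕ) : ℝ) := by positivity
      calc ((q.2.1 / l).divisors.card : ℝ) * (1 + 4 * (2 * E * H / l) / ((q.2.1 / l : ℕ) : ℝ))
          ≤ T * (1 + 4 * (2 * E * H / l) / ((q.2.1 / l : ℕ) : ℝ)) :=
            mul_le_mul_of_nonneg_right h1 h4
        _ ≤ T * (1 + 32 * E ^ 2 * H / c) :=
            mul_le_mul_of_nonneg_left (by linarith) hT0.le
    have hfc := Pool.Agent.FTA.fib_const (S.filter (fun P => fbt_l P = l))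
      (fun P => Bf P / (l : ℤ))
      ((S.filter (fun P => fbt_l P = l)).image (fun P => Bf P / (l : ℤ)))
      (fun P hP => Finset.mem_image_of_mem _ hP)
      (T ^ 2 * (F : ℝ) ^ (3 / 4 : ℝ) * (4 * E / √c + 1) ^ 4) (by
        intro b hb
        have h1 := fb1 E c H T Z l ((l : ℤ) * b) q hc hE hT hZ
          ((S.filter (fun P => fbt_l P = l)).filter (fun P => Bf P / (l : ℤ) = b)) (by
            intro P hP
            rw [Finset.mem_filter] at hP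
            obtain ⟨hG, hq, hl⟩ := hSl P hP.1
            refine ⟨hG, hl, ?_, hq⟩
            rw [← hP.2]
            exact (Int.mul_ediv_cancel' hl.dB).symm)
        refine h1.trans ?_
        exact mul_le_mul_of_nonneg_right (mul_le_mul_of_nonneg_left hlF' (by positivity)) hK)
    refine hfc.trans ?_
    exact mul_le_mul_of_nonneg_right hb2 (by positivity)
  have hfc := Pool.Agent.FTA.fib_const S fbt_l q.2.1.divisors (by
      intro P hP
      obtain ⟨h1, h2⟩ := hS P hP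
      have h3 := fbt_fib hc h1 h2 (fbt_l_spec h1.gl)
      rw [Nat.mem_divisors]
      exact ⟨h3.2.1, by omega⟩) _ hfin
  refine hfc.trans ?_
  have h1 : (q.2.1.divisors.card : ℝ) ≤ T := hdivT _ hN1 le_rfl
  calc (q.2.1.divisors.card : ℝ) * (T * (1 + 32 * E ^ 2 * H / c) * (T ^ 2 * (F : ℝ) ^ (3 / 4 : ℝ) *
        (4 * E / √c + 1) ^ 4))
      ≤ T * (T * (1 + 32 * E ^ 2 * H / c) * (T ^ 2 * (F : ℝ) ^ (3 / 4 : ℝ) *
        (4 * E / √c + 1) ^ 4)) := mul_le_mul_of_nonneg_right h1 (by positivity)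
    _ = T ^ 4 * (1 + 32 * E ^ 2 * H / c) * (4 * E / √c + 1) ^ 4 * (F : ℝ) ^ (3 / 4 : ℝ) := by ring

end Pool.Agent.LBT
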