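import Pool.Agent.FTL.LKn
import Pool.Agent.FTL.LDt

/-!
# LBF/Kss: the number of data with given `K` and `F ≤ f < 2 F`, for `a ^ 4 ≤ B ^ 2 X`

The proof of FTL/LKs with `a ^ 2 ≤ B √X` instead of `a ^ 2 ≤ √X`.

PROOF of `lks`.  For `q ∈ S` let `n = nS N t`, `f = cf q.1`; by `lns` every prime `p` of `n` has
`p ^ 2 ∣ D` and is odd (`R < p`, `R ≥ 2`), so `p ∣ f` (`fld`, last part).  So `n` lies in
`NN = biUnion (Ico F (2 F)) (fun f => (Icc 1 Z).filter (primeFactors ⊆ f.primeFactors))`, which has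
at most `F Q` elements (`UniB`; `f < 2 F ≤ 2 X ≤ Z`: `F ≤ f`, `f ^ 2 ≤ D ≤ X`), and also
`n ≤ N ≤ 4 a ^ 2`.  `fib` over `NN' = NN.filter (· ≤ 4 a ^ 2)` with `lkn` (data from `ldt`):
`card S ≤ ∑ n ∈ NN', 15 T ^ 3 c5 (5 + 12 (4 a ^ 2 / n) / √(aD K))`.
`aD K = D / f ^ 2 ≥ X / (8 F ^ 2)`, so `√(aD K) ≥ √X / (3 F)` and
`12 (4 a ^ 2 / n) / √(aD K) ≤ 144 F a ^ 2 / (n √X) ≤ 144 F / n` (`a ^ 4 ≤ X`).
`∑ n ∈ NN', 5 ≤ 5 F Q`, `∑ n ∈ NN', 144 F / n ≤ 144 F (1 + log (4 a ^ 2)) ≤ 144 F L` (harmonic sum over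
`Icc 1 (4 a ^ 2)`, `harmonic_le_one_add_log`).  Together
`card S ≤ 15 T ^ 3 c5 (5 F Q + 144 F L) ≤ 2300 T ^ 3 Q L F c5`.
-/

set_option autoImplicit false

namespace Pool.Agent.LBT

open NumberField Pool.Agent.FTA Pool.Agent.FTB Pool.Agent.FTL nonZeroDivisors

private theorem Kss_harm (s : Finset ℕ) (M : ℕ) (hs : ∀ n ∈ s, 1 ≤ n ∧ n ≤ M) :
    ∑ n ∈ s, (1 : ℝ) / n ≤ 1 + Real.log M := by
  have h1 : ∑ n ∈ s, (1 : ℝ) / n ≤ ∑ n ∈ Finset.Icc 1 M, (1 : ℝ) / n := by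
    apply Finset.sum_le_sum_of_subset_of_nonneg
    · intro n hn
      exact Finset.mem_Icc.2 (hs n hn)
    · intros
      positivity
  have h2 : ∑ n ∈ Finset.Icc 1 M, (1 : ℝ) / n = ((harmonic M : ℚ) : ℝ) := by
    rw [harmonic_eq_sum_Icc]
    push_cast
    simp [one_div]
  rw [h2] at h1
  exact h1.trans (harmonic_le_one_add_log M)

/-- the arithmetic of one datum -/
private theorem Kss_one (X a : ℕ) (R : ℝ) (hX : 1 ≤ X) (hR : 2 ≤ R) (q : Qt)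
    (hq : Qdq X a R q) :
    q.1 = cf q.1 ^ 2 * aD (Kf q.1) ∧ 1 ≤ cf q.1 ∧ cf q.1 ≤ X ∧ X ≤ 2 * q.1 ∧
      1 ≤ nS q.2.1 q.2.2.2 ∧ nS q.2.1 q.2.2.2 ≤ 4 * a ^ 2 ∧ 1 ≤ a ∧
      (nS q.2.1 q.2.2.2).primeFactors ⊆ (cf q.1).primeFactors := by
  have hq' : Qd X a R q.1 q.2.1 q.2.2.1 q.2.2.2 := hq
  have hD1 := hq'.D1
  have hD2 := hq'.D2
  have hD : 1 ≤ q.1 := by omega
  obtain ⟨-, -, f1, f2, f3⟩ := fld q.1 hD hq'.D3
  obtain ⟨⟨n1, g1, g2, -, -⟩, g3, -, g5⟩ := lns X a R hR q.1 q.2.1 q.2.2.1 q.2.2.2 hq'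
  have hN2 := hq'.N2
  have hN1 := hq'.N1
  have haD : 0 < aD (Kf q.1) := by
    rcases Nat.eq_zero_or_pos (aD (Kf q.1)) with h | h
    · rw [h, mul_zero] at f1
      omega
    · exact h
  refine ⟨f1, f2, ?_, hD1, g3, ?_, ?_, ?_⟩
  · calc cf q.1 ≤ cf q.1 ^ 2 * aD (Kf q.1) := by nlinarith
      _ = q.1 := f1.symm
      _ ≤ X := hD2
  · calc nS q.2.1 q.2.2.2 ≤ nS q.2.1 q.2.2.2 * n1 := Nat.le_mul_of_pos_right _ g1
      _ = q.2.1 := g2.symm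
      _ ≤ _ := hN2
  · rcases Nat.eq_zero_or_pos a with h | h
    · rw [h] at hN2
      omega
    · exact h
  · intro p hp
    have hpp := Nat.prime_of_mem_primeFactors hp
    have hpd := Nat.dvd_of_mem_primeFactors hp
    obtain ⟨-, -, k3, k4⟩ := g5 p hpp hpd
    have hp2 : 2 < p := by
      have : (2 : ℝ) < (p : ℝ) := lt_of_le_of_lt hR k3
      exact_mod_cast this
    have hodd : Odd p := hpp.odd_of_ne_two (by omega)
    exact Nat.mem_primeFactors.2 ⟨hpp, f3 p hodd k4, by omega⟩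

theorem kss (X a B : ℕ) (R : ℝ) (hX : 1 ≤ X) (hR : 2 ≤ R) (hB : 1 ≤ B) (haX : a ^ 4 ≤ B ^ 2 * X)
    (Z F : ℕ) (T Q L : ℝ) (hT : TauB Z T) (hQ : UniB Z Q) (hZ : (4 * B * X) ^ 5 ≤ Z)
    (hL : 1 + Real.log (4 * B * X) ≤ L) (hF : 1 ≤ F)
    (K : IntermediateField ℚ ℂ) [NumberField K] (h2 : Module.finrank ℚ K = 2)
    (him : ∃ x : K, (x : ℂ).im ≠ 0) (S : Finset Qt)
    (hS : ∀ q ∈ S, Qdq X a R q ∧ Kf q.1 = K ∧ F ≤ cf q.1 ∧ cf q.1 < 2 * F) :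
    (S.card : ℝ) ≤ 2300 * B * T ^ 3 * Q * L * F *
      (Nat.card {c : ClassGroup (𝓞 K) // c ^ 5 = 1} : ℝ) := by
  classical
  have hT1 := hT.1
  have hQ1 := hQ.1
  have hX0 : (1 : ℝ) ≤ X := by exact_mod_cast hX
  have hB0 : (1 : ℝ) ≤ B := by exact_mod_cast hB
  have hXB : X ≤ B * X := Nat.le_mul_of_pos_left _ hB
  have hlog : 0 ≤ Real.log (4 * B * X) := Real.log_nonneg (by nlinarith)
  have hL1 : 1 ≤ L := by linarith
  set c5 : ℝ := (Nat.card {c : ClassGroup (𝓞 K) // c ^ 5 = 1} : ℝ) with hc5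
  have hc50 : 0 ≤ c5 := Nat.cast_nonneg _
  rcases S.eq_empty_or_nonempty with hSe | ⟨q0, hq0⟩
  · rw [hSe, Finset.card_empty, Nat.cast_zero]
    positivity
  obtain ⟨d1, d2, d3, d4⟩ := hS q0 hq0
  obtain ⟨e1, e2, e3, e4, e5, e6, e7, -⟩ := Kss_one X a R hX hR q0 d1
  rw [d2] at e1
  have hFX : F ≤ X := d3.trans e3
  have ha4 : (a : ℝ) ^ 4 ≤ (B : ℝ) ^ 2 * X := by exact_mod_cast haX
  have haBX : a ^ 2 ≤ B * X := by
    have h1 : (a ^ 2) ^ 2 ≤ (B * X) ^ 2 := by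
      calc (a ^ 2) ^ 2 = a ^ 4 := by ring
        _ ≤ B ^ 2 * X := haX
        _ ≤ B ^ 2 * X ^ 2 := by
          gcongr
          nlinarith
        _ = (B * X) ^ 2 := by ring
    exact (Nat.pow_le_pow_iff_left (by norm_num)).1 h1
  have hBX1 : 1 ≤ B * X := by nlinarith
  have hZX : 4 * (B * X) ≤ Z := by
    calc 4 * (B * X) = (4 * B * X) ^ 1 := by ring
      _ ≤ (4 * B * X) ^ 5 := Nat.pow_le_pow_right (by nlinarith) (by norm_num)
      _ ≤ Z := hZ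
  -- the lower bound for the discriminant
  have haD : (X : ℝ) ≤ 8 * F ^ 2 * (aD K : ℝ) := by
    have h1 : cf q0.1 ^ 2 ≤ (2 * F) ^ 2 := Nat.pow_le_pow_left d4.le 2
    have h3 : X ≤ 8 * F ^ 2 * aD K := by
      calc X ≤ 2 * q0.1 := e4
        _ = 2 * (cf q0.1 ^ 2 * aD K) := congrArg (fun z => 2 * z) e1
        _ ≤ 2 * ((2 * F) ^ 2 * aD K) := by gcongr
        _ = 8 * F ^ 2 * aD K := by ring
    exact_mod_cast h3
  have hF0 : (1 : ℝ) ≤ F := by exact_mod_cast hF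
  have hsX : 0 < √(X : ℝ) := Real.sqrt_pos.2 (by linarith)
  have hsD : √(X : ℝ) / (3 * F) ≤ √(aD K : ℝ) := by
    apply Real.le_sqrt_of_sq_le
    rw [div_pow, Real.sq_sqrt (by linarith), div_le_iff₀ (by positivity)]
    have : (0 : ℝ) ≤ aD K := Nat.cast_nonneg _
    nlinarith [mul_nonneg this (sq_nonneg (F : ℝ))]
  have ha2 : (a : ℝ) ^ 2 ≤ B * √(X : ℝ) := by
    have h1 : ((a : ℝ) ^ 2) ^ 2 ≤ (B * √(X : ℝ)) ^ 2 := by
      rw [mul_pow, Real.sq_sqrt (by linarith)]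
      calc ((a : ℝ) ^ 2) ^ 2 = (a : ℝ) ^ 4 := by ring
        _ ≤ _ := ha4
    exact (pow_le_pow_iff_left₀ (by positivity) (by positivity) (by norm_num)).1 h1
  have hterm : ∀ n : ℕ, 1 ≤ n →
      12 * (4 * (a : ℝ) ^ 2 / n) / √(aD K : ℝ) ≤ B * (144 * F * (1 / n)) := by
    intro n hn
    have hn0 : (0 : ℝ) < n := by exact_mod_cast hn
    calc 12 * (4 * (a : ℝ) ^ 2 / n) / √(aD K : ℝ)
        ≤ 12 * (4 * (a : ℝ) ^ 2 / n) / (√(X : ℝ) / (3 * F)) := by gcongr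
      _ ≤ 12 * (4 * (B * √(X : ℝ)) / n) / (√(X : ℝ) / (3 * F)) := by gcongr
      _ = B * (144 * F * (1 / n)) := by
        field_simp
        norm_num
  -- the set of the `n`
  set NN : Finset ℕ := ((Finset.Ico F (2 * F)).biUnion (fun f =>
    (Finset.Icc 1 Z).filter fun q => q.primeFactors ⊆ f.primeFactors)).filter
      (fun n => n ≤ 4 * a ^ 2) with hNN
  have hNNcard : (NN.card : ℝ) ≤ F * Q := by
    have h1 : NN.card ≤ ∑ f ∈ Finset.Ico F (2 * F),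
        ((Finset.Icc 1 Z).filter fun q => q.primeFactors ⊆ f.primeFactors).card :=
      (Finset.card_filter_le _ _).trans Finset.card_biUnion_le
    have h2 : (NN.card : ℝ) ≤ ∑ f ∈ Finset.Ico F (2 * F),
        (((Finset.Icc 1 Z).filter fun q => q.primeFactors ⊆ f.primeFactors).card : ℝ) := by
      exact_mod_cast h1
    refine h2.trans ?_
    have h3 : ∀ f ∈ Finset.Ico F (2 * F),
        (((Finset.Icc 1 Z).filter fun q => q.primeFactors ⊆ f.primeFactors).card : ℝ) ≤ Q := by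
      intro f hf
      have hf2 := Finset.mem_Ico.1 hf
      exact hQ.2 f (by omega) (by omega)
    refine (Finset.sum_le_sum h3).trans (le_of_eq ?_)
    rw [Finset.sum_const, Nat.card_Ico, nsmul_eq_mul]
    have : 2 * F - F = F := by omega
    rw [this]
  have hNNmem : ∀ n ∈ NN, 1 ≤ n ∧ n ≤ 4 * a ^ 2 := by
    intro n hn
    obtain ⟨h1, h2⟩ := Finset.mem_filter.1 hn
    obtain ⟨f, -, h3⟩ := Finset.mem_biUnion.1 h1
    exact ⟨(Finset.mem_Icc.1 (Finset.mem_filter.1 h3).1).1, h2⟩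
  have hharm : ∑ n ∈ NN, (1 : ℝ) / n ≤ L := by
    have h1 := Kss_harm NN (4 * a ^ 2) hNNmem
    refine h1.trans (le_trans ?_ hL)
    have h2 : Real.log ((4 * a ^ 2 : ℕ) : ℝ) ≤ Real.log (4 * B * X) := by
      apply Real.log_le_log
      · have : 0 < 4 * a ^ 2 := by positivity
        exact_mod_cast this
      · have : 4 * a ^ 2 ≤ 4 * B * X := by
          rw [mul_assoc]
          omega
        exact_mod_cast this
    linarith
  have hmaps : ∀ q ∈ S, nS q.2.1 q.2.2.2 ∈ NN := by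
    intro q hq
    obtain ⟨d1, d2, d3, d4⟩ := hS q hq
    obtain ⟨-, -, -, -, e5, e6, -, e8⟩ := Kss_one X a R hX hR q d1
    refine Finset.mem_filter.2 ⟨Finset.mem_biUnion.2 ⟨cf q.1, Finset.mem_Ico.2 ⟨d3, d4⟩,
      Finset.mem_filter.2 ⟨Finset.mem_Icc.2 ⟨e5, by omega⟩, e8⟩⟩, e6⟩
  have hb : ∀ n ∈ NN, ((S.filter (fun q => nS q.2.1 q.2.2.2 = n)).card : ℝ) ≤
      15 * T ^ 3 * c5 * (B * (5 + 144 * F * (1 / n))) := by
    intro n hn
    obtain ⟨hn1, hn2⟩ := hNNmem n hn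
    have h1 : 64 * a ^ 5 ≤ Z := by
      refine le_trans ?_ hZ
      calc 64 * a ^ 5 ≤ 64 * a ^ 10 :=
            Nat.mul_le_mul_left 64 (Nat.pow_le_pow_right e7 (by norm_num))
        _ ≤ 1024 * a ^ 10 := by gcongr; norm_num
        _ = (4 * a ^ 2) ^ 5 := by ring
        _ ≤ (4 * (B * X)) ^ 5 := by gcongr
        _ = (4 * B * X) ^ 5 := by ring
    have h2' : n ^ 5 ≤ Z := by
      refine le_trans ?_ hZ
      have : n ≤ 4 * B * X := by
        rw [mul_assoc]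
        omega
      gcongr
    have h3 := lkn K h2 him a n Z T hT h1 h2' (S.filter (fun q => nS q.2.1 q.2.2.2 = n)) (by
      intro q hq
      obtain ⟨hq1, hq2⟩ := Finset.mem_filter.1 hq
      obtain ⟨d1, d2, -, -⟩ := hS q hq1
      have h4 := ldt X a R hX hR K h2 him q d1 d2
      rw [hq2] at h4
      exact h4)
    refine h3.trans ?_
    have h5 := hterm n hn1
    calc T ^ 2 * (c5 * ((5 + 12 * (4 * (a : ℝ) ^ 2 / n) / √(aD K : ℝ)) * 15 * T))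
        ≤ T ^ 2 * (c5 * ((B * 5 + B * (144 * F * (1 / n))) * 15 * T)) := by
          gcongr
          linarith
      _ = _ := by ring
  have hfib := fib S (fun q => nS q.2.1 q.2.2.2) NN hmaps
    (fun n => 15 * T ^ 3 * c5 * (B * (5 + 144 * F * (1 / n)))) hb
  refine hfib.trans ?_
  rw [← Finset.mul_sum, ← Finset.mul_sum, Finset.sum_add_distrib, Finset.sum_const,
    ← Finset.mul_sum, nsmul_eq_mul]
  have hfin : (NN.card : ℝ) * 5 + 144 * F * ∑ n ∈ NN, (1 : ℝ) / n ≤ 149 * (F * (Q * L)) := by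
    have h1 : (NN.card : ℝ) * 5 ≤ 5 * (F * (Q * L)) := by
      have : (NN.card : ℝ) ≤ F * (Q * L) := hNNcard.trans (by
        gcongr
        nlinarith)
      linarith
    have h2 : 144 * F * ∑ n ∈ NN, (1 : ℝ) / n ≤ 144 * (F * (Q * L)) := by
      calc 144 * F * ∑ n ∈ NN, (1 : ℝ) / n ≤ 144 * F * L := by gcongr
        _ ≤ 144 * (F * (Q * L)) := by
          have : L ≤ Q * L := by nlinarith
          calc 144 * F * L ≤ 144 * F * (Q * L) := by gcongr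
            _ = _ := by ring
    linarith
  calc 15 * T ^ 3 * c5 * (B * ((NN.card : ℝ) * 5 + 144 * F * ∑ n ∈ NN, (1 : ℝ) / n))
      ≤ 15 * T ^ 3 * c5 * (B * (149 * (F * (Q * L)))) := by gcongr
    _ = 2235 * (B * T ^ 3 * Q * L * F * c5) := by ring
    _ ≤ 2300 * (B * T ^ 3 * Q * L * F * c5) := by gcongr; norm_num
    _ = _ := by ring

end Pool.Agent.LBT
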