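import Pool.Agent.LBT.Dat
import Pool.Agent.LBT.Fbt
import Pool.Agent.LBT.Qff

/-!
# LBT/Fno: good points of large conductor

PROOF of `fn1`.  `C1` from `qff ε`.  If `S` is empty clear (right side `≥ 0`).  For `P ∈ S` let `D = (qF P).1 = (- Df P).toNat`, `(D : ℝ) = - Df P ≥ c > 0`, `1 ≤ D ≤ W`,
`f = cf D`, `i = Nat.log 2 D`, `j = Nat.log 2 f`; `f ≤ D` (`Nat.sqrt_le_self`, `Nat.div_le_self`), `1 ≤ f` (`R0 ≤ f`); `i, j ≤ Nat.log 2 W`, and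
`Nat.log 2 W + 1 ≤ 2 L` (see `ltl_num` in FTL/LTl.lean).  So the map `P ↦ (i, j)` has at most `(2 L) ^ 2` values.
Fix `(i, j)`, `X = 2 ^ (i + 1)`, `F = 2 ^ j`: `D < X ≤ 2 D ≤ 2 W`, `F ≤ f < 2 F` (`Nat.pow_log_le_self`, `Nat.lt_pow_succ_log_self`).
`dat` (with this `X` and `a`): `Qdq X a 2 (qF P)`.  `a ^ 4 ≤ B ^ 2 c ≤ B ^ 2 D ≤ B ^ 2 X` (reals, then `exact_mod_cast`).
`qff`: the image of the fibre under `qF` has at most `C1 B T ^ 3 Q L X ^ (1 + ε) / F` elements; `fb2` (with `2 F` for `F`): every fibre of `qF` in it has at most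
`T ^ 4 (1 + 32 E ^ 2 H / c) (4 E / √c + 1) ^ 4 (2 F) ^ (3/4)` elements.  `X ^ (1 + ε) ≤ (2 W) ^ (1 + ε) = 2 ^ (1 + ε) W ^ (1 + ε)`,
`(2 F) ^ (3/4) / F ≤ 2 F ^ (-1/4)` and `F > f / 2 ≥ R0 / 2`, so `F ^ (-1/4) ≤ (R0 / 2) ^ (-1/4) ≤ 2 R0 ^ (-1/4)`.
So `C = 16 * 2 ^ (1 + ε) * C1`.  (`Pool.Agent.FTA.fib_const` twice.)
-/

set_option autoImplicit false

namespace Pool.Agent.LBT

open Pool.Agent.PP5 Pool.Agent.FTL Pool.Agent.FTB

/-- the conductor is at most `D` -/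
private theorem Fno_cf (D : ℕ) : cf D ≤ D := by
  unfold cf
  exact (Nat.sqrt_le_self _).trans (Nat.div_le_self _ _)

private theorem Fno_num (B W : ℕ) (hB : 1 ≤ B) (hW : 1 ≤ W) (L : ℝ)
    (hL : 1 + Real.log (4 * B * (2 * W)) ≤ L) : ((Nat.log 2 W : ℕ) : ℝ) + 1 ≤ 2 * L := by
  have hW0 : (1 : ℝ) ≤ W := by exact_mod_cast hW
  have hB0 : (1 : ℝ) ≤ B := by exact_mod_cast hB
  have h1 : ((Nat.log 2 W : ℕ) : ℝ) * Real.log 2 ≤ Real.log W := by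
    have h2 : ((2 : ℝ) ^ (Nat.log 2 W)) ≤ W := by
      exact_mod_cast Nat.pow_log_le_self 2 (by omega)
    have h3 := Real.log_le_log (by positivity) h2
    rw [Real.log_pow] at h3
    exact h3
  have h4 : (1 : ℝ) / 2 ≤ Real.log 2 := by
    have := Real.log_two_gt_d9
    linarith
  have h5 : Real.log W ≤ Real.log (4 * B * (2 * W)) := by
    apply Real.log_le_log (by linarith)
    nlinarith
  have h6 : (0 : ℝ) ≤ ((Nat.log 2 W : ℕ) : ℝ) := Nat.cast_nonneg _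
  nlinarith

/-- `(2 F) ^ (3 / 4) / F ≤ 2 R ^ (-1 / 4)` for `R ≤ 2 F` -/
private theorem Fno_F {F R : ℝ} (hR : 1 ≤ R) (hF : R ≤ 2 * F) :
    (2 * F) ^ (3 / 4 : ℝ) / F ≤ 2 * R ^ (-(1 / 4) : ℝ) := by
  have hF0 : 0 < 2 * F := by linarith
  have h1 : (2 * F) ^ (3 / 4 : ℝ) / F = 2 * (2 * F) ^ (-(1 / 4) : ℝ) := by
    have h2 : (2 * F) ^ (3 / 4 : ℝ) = (2 * F) ^ (-(1 / 4) : ℝ) * (2 * F) := by
      nth_rewrite 3 [← Real.rpow_one (2 * F)]
      rw [← Real.rpow_add hF0]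
      norm_num
    have h3 : F ≠ 0 := by
      intro h
      rw [h] at hF0
      norm_num at hF0
    rw [h2]
    field_simp
  rw [h1]
  have h4 : (2 * F) ^ (-(1 / 4) : ℝ) ≤ R ^ (-(1 / 4) : ℝ) :=
    Real.rpow_le_rpow_of_nonpos (by linarith) hF (by norm_num)
  linarith

theorem fn1 (ε : ℝ) (hε : 0 < ε) : ∃ C : ℝ, 0 < C ∧ ∀ (E c H T Q L R0 : ℝ) (Z a B W : ℕ),
    0 < c → 0 < E → 1 ≤ H → 1 ≤ R0 → 1 ≤ B → 1 ≤ W → TauB Z T → UniB Z Q →
    (4 * B * (2 * W)) ^ 5 ≤ Z → 1 + Real.log (4 * B * (2 * W)) ≤ L →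
    (E * H ^ 2) ^ 2 ≤ (Z : ℝ) → (a : ℝ) ^ 4 ≤ (B : ℝ) ^ 2 * c →
    ∀ S : Finset Sp, (∀ P ∈ S, GP E c H P ∧ R0 ≤ (cf (qF P).1 : ℝ) ∧ -(Df P) ≤ (W : ℤ) ∧ 2 ≤ Nf P ∧
      Nf P ≤ 4 * (a : ℤ) ^ 2) →
    (S.card : ℝ) ≤ C * B * T ^ 7 * Q * L ^ 3 * (1 + 32 * E ^ 2 * H / c) * (4 * E / √c + 1) ^ 4 *
      (W : ℝ) ^ (1 + ε) * R0 ^ (-(1 / 4) : ℝ) := by
  classical
  obtain ⟨C1, hC1, key⟩ := qff ε hε
  refine ⟨8 * (2 : ℝ) ^ (1 + ε) * C1, by positivity, ?_⟩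
  intro E c H T Q L R0 Z a B W hc hE hH hR0 hB hW hT hQ hZ hL hEZ ha S hS
  have hT1 : 1 ≤ T := hT.1
  have hQ1 : 1 ≤ Q := hQ.1
  have hT0 : 0 ≤ T := by linarith
  have hQ0 : 0 ≤ Q := by linarith
  have hW1 : (1 : ℝ) ≤ W := by exact_mod_cast hW
  have hB1 : (1 : ℝ) ≤ B := by exact_mod_cast hB
  have hlog : 0 ≤ Real.log (4 * B * (2 * W)) := Real.log_nonneg (by nlinarith)
  have hL1 : 1 ≤ L := by linarith
  have hL0 : 0 ≤ L := by linarith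
  obtain ⟨M, hM⟩ : ∃ M : ℝ, M = (1 + 32 * E ^ 2 * H / c) * (4 * E / √c + 1) ^ 4 := ⟨_, rfl⟩
  have hM0 : 0 ≤ M := by
    rw [hM]
    positivity
  have hWp : 0 < (W : ℝ) ^ (1 + ε) := Real.rpow_pos_of_pos (by linarith) _
  have hRp : 0 < R0 ^ (-(1 / 4) : ℝ) := Real.rpow_pos_of_pos (by linarith) _
  -- facts about one point
  have hpt : ∀ P ∈ S, ((-(Df P)).toNat : ℤ) = -(Df P) ∧ (((-(Df P)).toNat : ℕ) : ℝ) = -(Df P : ℝ) ∧
      1 ≤ (-(Df P)).toNat ∧ (-(Df P)).toNat ≤ W := by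
    intro P hP
    obtain ⟨h1, -, h3, -⟩ := hS P hP
    have h4 : (0 : ℝ) < -(Df P : ℝ) := lt_of_lt_of_le hc h1.dl
    have h5 : 0 < -(Df P) := by exact_mod_cast h4
    have h6 : ((-(Df P)).toNat : ℤ) = -(Df P) := Int.toNat_of_nonneg h5.le
    refine ⟨h6, ?_, by omega, by omega⟩
    have h7 : (((-(Df P)).toNat : ℤ) : ℝ) = ((-(Df P) : ℤ) : ℝ) := by rw [h6]
    push_cast at h7
    exact h7
  set g : Sp → ℕ × ℕ := fun P => (Nat.log 2 (qF P).1, Nat.log 2 (cf (qF P).1)) with hg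
  have hfib : ∀ ij ∈ Finset.range (Nat.log 2 W + 1) ×ˢ Finset.range (Nat.log 2 W + 1),
      ((S.filter (fun P => g P = ij)).card : ℝ) ≤
        2 * (2 : ℝ) ^ (1 + ε) * C1 * B * T ^ 7 * Q * L * M * (W : ℝ) ^ (1 + ε) *
          R0 ^ (-(1 / 4) : ℝ) := by
    rintro ⟨i, j⟩ -
    set Si := S.filter (fun P => g P = (i, j)) with hSi
    have hmem : ∀ P ∈ Si, P ∈ S ∧ Nat.log 2 (qF P).1 = i ∧ Nat.log 2 (cf (qF P).1) = j := by
      intro P hP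
      rw [hSi, Finset.mem_filter, hg] at hP
      simp only [Prod.mk.injEq] at hP
      exact ⟨hP.1, hP.2.1, hP.2.2⟩
    rcases Si.eq_empty_or_nonempty with h0 | ⟨P0, hP0⟩
    · rw [h0]
      simp only [Finset.card_empty, Nat.cast_zero]
      positivity
    have hdy : ∀ P ∈ Si, 2 ^ i ≤ (qF P).1 ∧ (qF P).1 < 2 ^ (i + 1) := by
      intro P hP
      obtain ⟨h1, h2, -⟩ := hmem P hP
      have h3 := (hpt P h1).2.2.1
      have h4 : (qF P).1 = (-(Df P)).toNat := rfl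
      constructor
      · rw [← h2]
        exact Nat.pow_log_le_self 2 (by omega)
      · rw [← h2]
        exact Nat.lt_pow_succ_log_self (by norm_num) _
    have hdf : ∀ P ∈ Si, 2 ^ j ≤ cf (qF P).1 ∧ cf (qF P).1 < 2 * 2 ^ j := by
      intro P hP
      obtain ⟨h1, -, h2⟩ := hmem P hP
      have h3 := (hS P h1).2.1
      have h4 : cf (qF P).1 ≠ 0 := by
        intro h
        rw [h] at h3
        simp only [Nat.cast_zero] at h3
        linarith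
      constructor
      · rw [← h2]
        exact Nat.pow_log_le_self 2 h4
      · rw [← h2, ← pow_succ']
        exact Nat.lt_pow_succ_log_self (by norm_num) _
    have hXW : 2 ^ (i + 1) ≤ 2 * W := by
      have h1 := (hdy P0 hP0).1
      have h2 := (hpt P0 (hmem P0 hP0).1).2.2.2
      have h3 : (qF P0).1 = (-(Df P0)).toNat := rfl
      rw [pow_succ']
      omega
    have hRF : R0 ≤ 2 * (2 : ℝ) ^ j := by
      have h1 := (hS P0 (hmem P0 hP0).1).2.1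
      have h2 := (hdf P0 hP0).2
      have h3 : ((cf (qF P0).1 : ℕ) : ℝ) < 2 * 2 ^ j := by exact_mod_cast h2
      linarith
    have haX : a ^ 4 ≤ B ^ 2 * 2 ^ (i + 1) := by
      have h1 := (hpt P0 (hmem P0 hP0).1).2.1
      have h2 := (hdy P0 hP0).2
      have h3 := (hS P0 (hmem P0 hP0).1).1.dl
      have h4 : (((qF P0).1 : ℕ) : ℝ) < 2 ^ (i + 1) := by exact_mod_cast h2
      have h5 : (qF P0).1 = (-(Df P0)).toNat := rfl
      rw [h5, h1] at h4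
      have h6 : (a : ℝ) ^ 4 ≤ (B : ℝ) ^ 2 * 2 ^ (i + 1) :=
        ha.trans (mul_le_mul_of_nonneg_left (h3.trans h4.le) (by positivity))
      exact_mod_cast h6
    have hZ' : (4 * B * 2 ^ (i + 1)) ^ 5 ≤ Z :=
      (Nat.pow_le_pow_left (Nat.mul_le_mul_left _ hXW) 5).trans hZ
    have hX1 : 1 ≤ 2 ^ (i + 1) := Nat.one_le_two_pow
    have hXW' : (((2 ^ (i + 1) : ℕ) : ℕ) : ℝ) ≤ 2 * W := by exact_mod_cast hXW
    have hX0' : (1 : ℝ) ≤ (((2 ^ (i + 1) : ℕ) : ℕ) : ℝ) := by exact_mod_cast hX1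
    have hL' : 1 + Real.log (4 * B * (((2 ^ (i + 1) : ℕ) : ℕ) : ℝ)) ≤ L := by
      have h1 : Real.log (4 * B * (((2 ^ (i + 1) : ℕ) : ℕ) : ℝ)) ≤
          Real.log (4 * B * (2 * W)) := by
        apply Real.log_le_log (by positivity)
        exact mul_le_mul_of_nonneg_left hXW' (by positivity)
      linarith
    have hF0 : (0 : ℝ) < (2 : ℝ) ^ j := by positivity
    set F : ℝ := (2 : ℝ) ^ j with hFdef
    have hval : ((Si.image qF).card : ℝ) ≤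
        C1 * B * T ^ 3 * Q * L * ((2 : ℝ) ^ (1 + ε) * (W : ℝ) ^ (1 + ε)) / F := by
      have h1 := key (2 ^ (i + 1)) a Z (2 ^ j) B 2 T Q L hX1 (le_refl _) hB haX hT hQ hZ' hL'
        Nat.one_le_two_pow (Si.image qF) ?_
      · have h2 : (((2 ^ j : ℕ) : ℕ) : ℝ) = F := by
          rw [hFdef]
          push_cast
          rfl
        rw [h2] at h1
        refine h1.trans ?_
        have h3 : (((2 ^ (i + 1) : ℕ) : ℕ) : ℝ) ^ (1 + ε) ≤
            (2 : ℝ) ^ (1 + ε) * (W : ℝ) ^ (1 + ε) := by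
          rw [← Real.mul_rpow (by norm_num) (by linarith)]
          exact Real.rpow_le_rpow (by linarith) hXW' (by linarith)
        have h4 : C1 * B * T ^ 3 * Q * L * (((2 ^ (i + 1) : ℕ) : ℕ) : ℝ) ^ (1 + ε) ≤
            C1 * B * T ^ 3 * Q * L * ((2 : ℝ) ^ (1 + ε) * (W : ℝ) ^ (1 + ε)) :=
          mul_le_mul_of_nonneg_left h3 (by positivity)
        exact div_le_div_of_nonneg_right h4 hF0.le
      · intro q hq
        rw [Finset.mem_image] at hq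
        obtain ⟨P, hP, rfl⟩ := hq
        obtain ⟨h1, h2, h3⟩ := hmem P hP
        obtain ⟨e1, e2, e3, e4⟩ := hpt P h1
        obtain ⟨d1, d2⟩ := hdy P hP
        obtain ⟨s1, s2, s3, s4, s5⟩ := hS P h1
        have h5 : (qF P).1 = (-(Df P)).toNat := rfl
        rw [h5] at d1 d2
        refine ⟨dat P E c H hc s1 (2 ^ (i + 1)) a ?_ ?_ s4 s5, (hdf P hP).1, (hdf P hP).2⟩
        · rw [← e2]
          have h6 : (2 : ℝ) ^ i ≤ (((-(Df P)).toNat : ℕ) : ℝ) := by exact_mod_cast d1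
          push_cast
          rw [pow_succ]
          linarith
        · rw [← e2]
          have h6 : (((-(Df P)).toNat : ℕ) : ℝ) ≤ ((2 ^ (i + 1) : ℕ) : ℝ) := by
            exact_mod_cast d2.le
          exact h6
    have hBf : ∀ q ∈ Si.image qF, ((Si.filter (fun P => qF P = q)).card : ℝ) ≤
        T ^ 4 * M * (2 * F) ^ (3 / 4 : ℝ) := by
      intro q hq
      rw [Finset.mem_image] at hq
      obtain ⟨P, hP, rfl⟩ := hq
      have h1 := fb2 E c H T Z (2 * 2 ^ j) (qF P) hc hE hH hT hEZ (hdf P hP).2.le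
        (Si.filter (fun P' => qF P' = qF P)) (by
          intro P' hP'
          rw [Finset.mem_filter] at hP'
          exact ⟨(hS P' (hmem P' hP'.1).1).1, hP'.2⟩)
      have h2 : (((2 * 2 ^ j : ℕ) : ℕ) : ℝ) = 2 * F := by
        rw [hFdef]
        push_cast
        rfl
      rw [h2] at h1
      refine h1.trans (le_of_eq ?_)
      rw [hM]
      ring
    have hcard := Pool.Agent.FTA.fib_const Si qF (Si.image qF)
      (fun q hq => Finset.mem_image_of_mem _ hq) (T ^ 4 * M * (2 * F) ^ (3 / 4 : ℝ)) hBf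
    refine hcard.trans ?_
    have hb0 : 0 ≤ T ^ 4 * M * (2 * F) ^ (3 / 4 : ℝ) := by positivity
    calc ((Si.image qF).card : ℝ) * (T ^ 4 * M * (2 * F) ^ (3 / 4 : ℝ))
        ≤ (C1 * B * T ^ 3 * Q * L * ((2 : ℝ) ^ (1 + ε) * (W : ℝ) ^ (1 + ε)) / F) *
            (T ^ 4 * M * (2 * F) ^ (3 / 4 : ℝ)) := mul_le_mul_of_nonneg_right hval hb0
      _ = (C1 * B * T ^ 7 * Q * L * M * ((2 : ℝ) ^ (1 + ε) * (W : ℝ) ^ (1 + ε))) *
            ((2 * F) ^ (3 / 4 : ℝ) / F) := by ring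
      _ ≤ (C1 * B * T ^ 7 * Q * L * M * ((2 : ℝ) ^ (1 + ε) * (W : ℝ) ^ (1 + ε))) *
            (2 * R0 ^ (-(1 / 4) : ℝ)) :=
          mul_le_mul_of_nonneg_left (Fno_F hR0 hRF) (by positivity)
      _ = 2 * (2 : ℝ) ^ (1 + ε) * C1 * B * T ^ 7 * Q * L * M * (W : ℝ) ^ (1 + ε) *
          R0 ^ (-(1 / 4) : ℝ) := by ring
  have hmap : ∀ P ∈ S, g P ∈ Finset.range (Nat.log 2 W + 1) ×ˢ Finset.range (Nat.log 2 W + 1) := by
    intro P hP
    have h1 : (qF P).1 ≤ W := (hpt P hP).2.2.2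
    have h2 : Nat.log 2 (qF P).1 ≤ Nat.log 2 W := Nat.log_mono_right h1
    have h3 : Nat.log 2 (cf (qF P).1) ≤ Nat.log 2 W := Nat.log_mono_right ((Fno_cf _).trans h1)
    rw [Finset.mem_product, Finset.mem_range, Finset.mem_range]
    constructor
    · show Nat.log 2 (qF P).1 < Nat.log 2 W + 1
      omega
    · show Nat.log 2 (cf (qF P).1) < Nat.log 2 W + 1
      omega
  have hfin := Pool.Agent.FTA.fib_const S g _ hmap _ hfib
  refine hfin.trans ?_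
  rw [Finset.card_product, Finset.card_range]
  have hn := Fno_num B W hB hW L hL
  have hn0 : (0 : ℝ) ≤ ((Nat.log 2 W : ℕ) : ℝ) + 1 := by positivity
  have hb0 : 0 ≤ 2 * (2 : ℝ) ^ (1 + ε) * C1 * B * T ^ 7 * Q * L * M * (W : ℝ) ^ (1 + ε) *
      R0 ^ (-(1 / 4) : ℝ) := by
    positivity
  calc (((Nat.log 2 W + 1) * (Nat.log 2 W + 1) : ℕ) : ℝ) *
        (2 * (2 : ℝ) ^ (1 + ε) * C1 * B * T ^ 7 * Q * L * M * (W : ℝ) ^ (1 + ε) *
          R0 ^ (-(1 / 4) : ℝ))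
      ≤ ((2 * L) * (2 * L)) * (2 * (2 : ℝ) ^ (1 + ε) * C1 * B * T ^ 7 * Q * L * M *
          (W : ℝ) ^ (1 + ε) * R0 ^ (-(1 / 4) : ℝ)) := by
        apply mul_le_mul_of_nonneg_right _ hb0
        push_cast
        exact mul_le_mul hn hn hn0 (by linarith)
    _ = 8 * (2 : ℝ) ^ (1 + ε) * C1 * B * T ^ 7 * Q * L ^ 3 * (1 + 32 * E ^ 2 * H / c) *
          (4 * E / √c + 1) ^ 4 * (W : ℝ) ^ (1 + ε) * R0 ^ (-(1 / 4) : ℝ) := by
        rw [hM]
        ring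

end Pool.Agent.LBT
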