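import Pool.Agent.LBT.Act

/-!
# LBT/Gbx: a point of the box in a good basis is a good point

PROOF of `gbx`.  Write `N, b, M` for `Nf P, Bf P, Mf P`.  From the box: `|M|, |Kf P|, |Kg P| ≤ 2 B0 ^ 2`, `|b| ≤ 4 B0 ^ 2`, `|N| ≤ 2 B0 ^ 2`
(each is a sum of products of two coordinates).  `Nf (TV s P) = N + s b + s ^ 2 M ≤ 2 B0 ^ 2 (1 + s) ^ 2`,
`|Bf (TV s P)| = |b + 2 s M| ≤ 4 B0 ^ 2 (1 + s)`, and `Mf`, `Kf`, `Kg`, `Df` do not change (`TV_*`).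
Positivity, with `Q = TV s P`, `Df Q = Df P < 0`: `tt_sq` gives `4 Nf Q ^ 5 = tt ^ 2 - Df om ^ 2 > 0` (`om Q ≠ 0`), so `Nf Q > 0`
(`Odd.pow_pos_iff` or `by_contra` and `nlinarith`); `4 Nf Mf = Bf ^ 2 - Df > 0` (`Df_V`), so `Mf Q > 0`.
`fWz` and `Df_W`: `4 Kf N ^ 2 = (2 Kf P3 - Bg P0) ^ 2 - Df P0 ^ 2 ≥ 0`, `4 Kf Kg = Bg ^ 2 - Df > 0`, so `Kf Q > 0` (`Kf ≥ 0` because `N ≠ 0`,
and `Kf ≠ 0`) and `Kg Q > 0`.
-/

set_option autoImplicit false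

namespace Pool.Agent.LBT

open Pool.Agent.PP5

private theorem gbx_mul {B a b : ℝ} (ha : |a| ≤ B) (hb : |b| ≤ B) : |a * b| ≤ B ^ 2 := by
  rw [abs_mul, sq]
  exact mul_le_mul ha hb (abs_nonneg _) ((abs_nonneg _).trans ha)

private theorem gbx_sub {B a b c d : ℝ} (ha : |a| ≤ B) (hb : |b| ≤ B) (hc : |c| ≤ B) (hd : |d| ≤ B) :
    |a * b - c * d| ≤ 2 * B ^ 2 := by
  have h1 := abs_le.1 (gbx_mul ha hb)
  have h2 := abs_le.1 (gbx_mul hc hd)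
  rw [abs_le]
  constructor <;> linarith [h1.1, h1.2, h2.1, h2.2]

private theorem gbx_pos {Q : Sp} (h : Qd Q) (hD : Df Q < 0) (ho : om Q ≠ 0) :
    0 < Nf Q ∧ 0 < Mf Q ∧ 0 < Kf Q ∧ 0 < Kg Q := by
  have ho2 : 0 < om Q ^ 2 := by positivity
  have hN : 0 < Nf Q := by
    have h1 := tt_sq h
    have h2 : 0 < -(Df Q) * om Q ^ 2 := mul_pos (by linarith) ho2
    have h3 : 0 < Nf Q ^ 5 := by
      have := sq_nonneg (tt Q)
      linarith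
    exact (Odd.pow_pos_iff (by decide : Odd 5)).1 h3
  have hM : 0 < Mf Q := by
    have h1 := Df_V h
    have h2 := sq_nonneg (Bf Q)
    have h3 : 0 < Nf Q * Mf Q := by linarith
    exact (mul_pos_iff_of_pos_left hN).1 h3
  have hKK : 0 < Kf Q * Kg Q := by
    have h1 := Df_W h
    have h2 := sq_nonneg (Bg Q)
    linarith
  have hK0 : 0 ≤ Kf Q := by
    have h1 := fWz Q
    have h2 := Df_W h
    have h3 : 4 * Kf Q * Nf Q ^ 2 = (2 * Kf Q * Q 3 - Bg Q * Q 0) ^ 2 + -(Df Q) * Q 0 ^ 2 := by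
      rw [← h1, h2]; ring
    have h4 : 0 ≤ -(Df Q) * Q 0 ^ 2 := mul_nonneg (by linarith) (sq_nonneg _)
    have h5 := sq_nonneg (2 * Kf Q * Q 3 - Bg Q * Q 0)
    have h6 : 0 ≤ Kf Q * Nf Q ^ 2 := by linarith
    exact nonneg_of_mul_nonneg_left h6 (by positivity)
  have hK : 0 < Kf Q := by
    rcases hK0.lt_or_eq with h1 | h1
    · exact h1
    · rw [← h1, zero_mul] at hKK
      exact absurd hKK (lt_irrefl _)
  exact ⟨hN, hM, hK, (mul_pos_iff_of_pos_left hK).1 hKK⟩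

theorem gbx (P : Sp) (hq : Qd P) (B0 c H : ℝ) (hc : 0 < c) (hB : ∀ i, |(P i : ℝ)| ≤ B0)
    (hD : c ≤ -(Df P : ℝ)) (s : ℕ) (hs : (s : ℝ) + 1 ≤ H) (ho : om (TV s P) ≠ 0)
    (hl : ∃ l : ℕ, Gl l (TV s P)) : GP (2 * B0 ^ 2) c H (TV s P) := by
  have hDz : Df (TV s P) < 0 := by
    rw [TV_Df]
    have h1 : (Df P : ℝ) < 0 := by linarith
    exact_mod_cast h1
  obtain ⟨hN, hM, hK, hG⟩ := gbx_pos (TV_qd hq s) hDz ho
  have hs0 : (0 : ℝ) ≤ s := Nat.cast_nonneg s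
  have hB0 : 0 ≤ B0 ^ 2 := sq_nonneg _
  have bN : |(Nf P : ℝ)| ≤ 2 * B0 ^ 2 := by
    have := gbx_sub (hB 0) (hB 4) (hB 1) (hB 3)
    unfold Nf
    push_cast
    exact this
  have bM : |(Mf P : ℝ)| ≤ 2 * B0 ^ 2 := by
    have := gbx_sub (hB 10) (hB 10) (hB 9) (hB 11)
    unfold Mf
    push_cast
    rw [sq]
    exact this
  have bK : |(Kf P : ℝ)| ≤ 2 * B0 ^ 2 := by
    have := gbx_sub (hB 1) (hB 1) (hB 0) (hB 2)
    unfold Kf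
    push_cast
    rw [sq]
    exact this
  have bG : |(Kg P : ℝ)| ≤ 2 * B0 ^ 2 := by
    have := gbx_sub (hB 4) (hB 4) (hB 3) (hB 5)
    unfold Kg
    push_cast
    rw [sq]
    exact this
  have bB : |(Bf P : ℝ)| ≤ 4 * B0 ^ 2 := by
    have h1 := abs_le.1 (gbx_mul (hB 7) (hB 10))
    have h2 := abs_le.1 (gbx_mul (hB 6) (hB 11))
    have h3 := abs_le.1 (gbx_mul (hB 8) (hB 9))
    unfold Bf
    push_cast
    rw [abs_le]
    constructor <;> linarith [h1.1, h1.2, h2.1, h2.2, h3.1, h3.2]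
  have h1s : ((s : ℝ) + 1) ^ 2 ≤ H ^ 2 := pow_le_pow_left₀ (by linarith) hs 2
  constructor
  · exact TV_qd hq s
  · rw [TV_Df]; exact hD
  · exact hN
  · rw [TV_Nf hq]
    push_cast
    have e1 : (s : ℝ) * (Bf P : ℝ) ≤ s * (4 * B0 ^ 2) :=
      mul_le_mul_of_nonneg_left ((le_abs_self _).trans bB) hs0
    have e2 : (s : ℝ) ^ 2 * (Mf P : ℝ) ≤ s ^ 2 * (2 * B0 ^ 2) :=
      mul_le_mul_of_nonneg_left ((le_abs_self _).trans bM) (by positivity)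
    have e3 : 2 * B0 ^ 2 * ((s : ℝ) + 1) ^ 2 ≤ 2 * B0 ^ 2 * H ^ 2 :=
      mul_le_mul_of_nonneg_left h1s (by linarith)
    have e4 := (le_abs_self _).trans bN
    calc (Nf P : ℝ) + s * Bf P + s ^ 2 * Mf P ≤ 2 * B0 ^ 2 + s * (4 * B0 ^ 2) + s ^ 2 * (2 * B0 ^ 2) := by
          linarith
      _ = 2 * B0 ^ 2 * ((s : ℝ) + 1) ^ 2 := by ring
      _ ≤ 2 * B0 ^ 2 * H ^ 2 := e3
  · exact hM
  · rw [TV_Mf]; exact (le_abs_self _).trans bM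
  · rw [TV_Bf]
    push_cast
    have e1 : |2 * (s : ℝ) * (Mf P : ℝ)| ≤ 2 * s * (2 * B0 ^ 2) := by
      rw [abs_mul, abs_of_nonneg (by positivity : (0 : ℝ) ≤ 2 * s)]
      exact mul_le_mul_of_nonneg_left bM (by positivity)
    calc |(Bf P : ℝ) + 2 * s * Mf P| ≤ |(Bf P : ℝ)| + |2 * (s : ℝ) * (Mf P : ℝ)| := abs_add_le _ _
      _ ≤ 4 * B0 ^ 2 + 2 * s * (2 * B0 ^ 2) := add_le_add bB e1
      _ = 2 * (2 * B0 ^ 2) * ((s : ℝ) + 1) := by ring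
      _ ≤ 2 * (2 * B0 ^ 2) * H := mul_le_mul_of_nonneg_left hs (by positivity)
  · exact hK
  · rw [TV_Kf]; exact (le_abs_self _).trans bK
  · exact hG
  · rw [TV_Kg]; exact (le_abs_self _).trans bG
  · exact ho
  · exact hl

end Pool.Agent.LBT
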