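import Pool.Agent.LBT.Gds
import Pool.Agent.LBT.Gbx
import Pool.Agent.LBT.Fno

/-!
# LBT/Fns: points of large conductor in the box, sum over the basis change

PROOF of `fns`.  `C` from `fn1 ε`.  Put `E = 2 B0 ^ 2`, `n = Nat.log 2 ⌊T⌋₊` (`T ≥ 1`).  For `P ∈ S` let `D = (Df P).natAbs`, `1 ≤ D ≤ W ≤ Z`, so
`2 ^ (card D.primeFactors) ≤ card D.divisors ≤ T` (the subsets of `primeFactors` give different divisors: their products; or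
`Nat.card_divisors` with every factor `≥ 2`), so `card D.primeFactors ≤ n`.  `gds` gives `s` with `s + 1 ≤ 2 ((2 n + 6) 4 ^ (2 n + 6))`; as
`2 ^ n ≤ T` and `2 n + 6 ≤ 8 * 2 ^ n`, this is `≤ 2 * 8 T * 4 ^ 6 * (2 ^ n) ^ 4 ≤ 65536 T ^ 5 ≤ H`.  Choose `s P`.
The map `P ↦ s P` has values `< H`: at most `H` values (natural numbers `s` with `s + 1 ≤ H`).  Fix `s`; the map `TV s` is injective
(`TV_inj`) and the image `S'` of the fibre satisfies the hypotheses of `fn1`: `gbx` gives `GP E c H (TV s P)`; `(qF (TV s P)).1 = (qF P).1`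
(`TV_Df`); `Nf (TV s P) ≥ 2`: `4 Nf Mf ≥ - Df ≥ c ≥ 16 B0 ^ 2 = 8 E` (`Df_V`) and `Mf ≤ E`, so `Nf ≥ 2`; `Nf ≤ E H ^ 2 ≤ 4 a ^ 2`.
-/

set_option autoImplicit false

namespace Pool.Agent.LBT

open Pool.Agent.PP5 Pool.Agent.FTL Pool.Agent.FTB

private theorem fns_pow (n : ℕ) (hn : n ≠ 0) : 2 ^ n.primeFactors.card ≤ n.divisors.card := by
  rw [Nat.card_divisors hn]
  apply Finset.pow_card_le_prod
  intro p hp
  have h1 := Nat.prime_of_mem_primeFactors hp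
  have h2 := Nat.dvd_of_mem_primeFactors hp
  have h3 := h1.factorization_pos_of_dvd hn h2
  omega

private theorem fns_num (n : ℕ) : 2 * ((2 * n + 6) * 4 ^ (2 * n + 6)) ≤ 65536 * (2 ^ n) ^ 5 := by
  have h1 : n < 2 ^ n := Nat.lt_two_pow_self
  have h2 : 1 ≤ 2 ^ n := Nat.one_le_two_pow
  have h3 : 4 ^ (2 * n + 6) = 4096 * (2 ^ n) ^ 4 := by
    rw [pow_add, show (4 : ℕ) = 2 ^ 2 by norm_num, ← pow_mul, ← pow_mul, ← pow_mul]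
    rw [show 2 * (2 * n) = n * 4 by ring]
    norm_num
    ring
  rw [h3]
  have h4 : 2 * n + 6 ≤ 8 * 2 ^ n := by omega
  calc 2 * ((2 * n + 6) * (4096 * (2 ^ n) ^ 4)) ≤ 2 * ((8 * 2 ^ n) * (4096 * (2 ^ n) ^ 4)) := by gcongr
    _ = 65536 * (2 ^ n) ^ 5 := by ring

theorem fns (ε : ℝ) (hε : 0 < ε) : ∃ C : ℝ, 0 < C ∧ ∀ (B0 c H T Q L R0 : ℝ) (Z a B W : ℕ),
    0 < c → 0 < B0 → 16 * B0 ^ 2 ≤ c → 65536 * T ^ 5 ≤ H → 1 ≤ R0 → 1 ≤ B → 1 ≤ W →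
    TauB Z T → UniB Z Q → (4 * B * (2 * W)) ^ 5 ≤ Z → 1 + Real.log (4 * B * (2 * W)) ≤ L →
    (2 * B0 ^ 2 * H ^ 2) ^ 2 ≤ (Z : ℝ) → (a : ℝ) ^ 4 ≤ (B : ℝ) ^ 2 * c →
    2 * B0 ^ 2 * H ^ 2 ≤ 4 * (a : ℝ) ^ 2 →
    ∀ S : Finset Sp, (∀ P ∈ S, Qd P ∧ (∀ i, |(P i : ℝ)| ≤ B0) ∧ c ≤ -(Df P : ℝ) ∧ -(Df P) ≤ (W : ℤ) ∧
      ¬ ((2 : ℤ) ∣ Nf P ∧ (2 : ℤ) ∣ Bf P ∧ (2 : ℤ) ∣ Mf P) ∧ R0 ≤ (cf (qF P).1 : ℝ)) →
    (S.card : ℝ) ≤ H * (C * B * T ^ 7 * Q * L ^ 3 * (1 + 32 * (2 * B0 ^ 2) ^ 2 * H / c) *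
      (4 * (2 * B0 ^ 2) / √c + 1) ^ 4 * (W : ℝ) ^ (1 + ε) * R0 ^ (-(1 / 4) : ℝ)) := by
  obtain ⟨C, hC, hfn⟩ := fn1 ε hε
  refine ⟨C, hC, ?_⟩
  intro B0 c H T Q L R0 Z a B W hc hB0 hcB hHT hR0 hB hW hTau hUni hZ hL hEZ haB hEa S hS
  classical
  have hT1 : 1 ≤ T := hTau.1
  have hH1 : 1 ≤ H := by
    have : (1 : ℝ) ≤ T ^ 5 := one_le_pow₀ hT1
    linarith
  have hE : 0 < 2 * B0 ^ 2 := by positivity
  have hWZ : W ≤ Z := by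
    have h1 : W ≤ 4 * B * (2 * W) := by nlinarith
    have h2 : 4 * B * (2 * W) ≤ (4 * B * (2 * W)) ^ 5 := Nat.le_self_pow (by norm_num) _
    exact (h1.trans h2).trans hZ
  -- the choice of `s`
  have hex : ∀ P ∈ S, ∃ s : ℕ, (s : ℝ) + 1 ≤ H ∧ om (TV s P) ≠ 0 ∧ ∃ l : ℕ, Gl l (TV s P) := by
    intro P hP
    obtain ⟨hq, hbx, hD, hDW, h2, hR⟩ := hS P hP
    have hDneg : Df P < 0 := by
      have : (Df P : ℝ) < 0 := by linarith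
      exact_mod_cast this
    have hD0 : (Df P).natAbs ≠ 0 := by
      rw [Int.natAbs_ne_zero]
      exact hDneg.ne
    have hDZ : (Df P).natAbs ≤ Z := by
      have : ((Df P).natAbs : ℤ) ≤ W := by
        rw [Int.ofNat_natAbs_of_nonpos hDneg.le]
        exact hDW
      have h3 : (Df P).natAbs ≤ W := by exact_mod_cast this
      exact h3.trans hWZ
    have h3 : (((Df P).natAbs.divisors.card : ℕ) : ℝ) ≤ T := hTau.2 _ (Nat.one_le_iff_ne_zero.mpr hD0) hDZ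
    have h4 : (Df P).natAbs.divisors.card ≤ ⌊T⌋₊ := Nat.le_floor h3
    have h5 : 2 ^ (Df P).natAbs.primeFactors.card ≤ ⌊T⌋₊ := (fns_pow _ hD0).trans h4
    have hT0 : ⌊T⌋₊ ≠ 0 := by
      have : 0 < ⌊T⌋₊ := Nat.floor_pos.mpr hT1
      omega
    have h6 : (Df P).natAbs.primeFactors.card ≤ Nat.log 2 ⌊T⌋₊ := Nat.le_log_of_pow_le (by norm_num) h5
    obtain ⟨s, hs, ho, hl⟩ := gds P hq hDneg h2 _ h6
    refine ⟨s, ?_, ho, hl⟩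
    have h7 : s + 1 ≤ 65536 * (2 ^ (Nat.log 2 ⌊T⌋₊)) ^ 5 := hs.trans (fns_num _)
    have h8 : 2 ^ (Nat.log 2 ⌊T⌋₊) ≤ ⌊T⌋₊ := Nat.pow_log_le_self 2 hT0
    have h9 : ((2 ^ (Nat.log 2 ⌊T⌋₊) : ℕ) : ℝ) ≤ T :=
      (Nat.cast_le.mpr h8).trans (Nat.floor_le (by linarith))
    have h10 : ((s + 1 : ℕ) : ℝ) ≤ ((65536 * (2 ^ (Nat.log 2 ⌊T⌋₊)) ^ 5 : ℕ) : ℝ) := Nat.cast_le.mpr h7
    calc (s : ℝ) + 1 = ((s + 1 : ℕ) : ℝ) := by push_cast; ring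
      _ ≤ ((65536 * (2 ^ (Nat.log 2 ⌊T⌋₊)) ^ 5 : ℕ) : ℝ) := h10
      _ = 65536 * ((2 ^ (Nat.log 2 ⌊T⌋₊) : ℕ) : ℝ) ^ 5 := by push_cast; ring
      _ ≤ 65536 * T ^ 5 := by gcongr
      _ ≤ H := hHT
  let sP : Sp → ℕ := fun P => if h : P ∈ S then (hex P h).choose else 0
  have hsP : ∀ P ∈ S, (sP P : ℝ) + 1 ≤ H ∧ om (TV (sP P) P) ≠ 0 ∧ ∃ l : ℕ, Gl l (TV (sP P) P) := by
    intro P hP
    have h1 : sP P = (hex P hP).choose := dif_pos hP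
    rw [h1]
    exact (hex P hP).choose_spec
  set b : ℝ := C * B * T ^ 7 * Q * L ^ 3 * (1 + 32 * (2 * B0 ^ 2) ^ 2 * H / c) *
      (4 * (2 * B0 ^ 2) / √c + 1) ^ 4 * (W : ℝ) ^ (1 + ε) * R0 ^ (-(1 / 4) : ℝ) with hb
  have hLpos : 0 ≤ L := by
    have : (1 : ℝ) ≤ 4 * B * (2 * W) := by
      have h1 : (1 : ℝ) ≤ B := by exact_mod_cast hB
      have h2 : (1 : ℝ) ≤ W := by exact_mod_cast hW
      nlinarith
    have := Real.log_nonneg this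
    linarith
  have hQ1 : 1 ≤ Q := hUni.1
  have hb0 : 0 ≤ b := by
    rw [hb]
    have h1 : 0 ≤ R0 ^ (-(1 / 4) : ℝ) := Real.rpow_nonneg (by linarith) _
    have h2 : 0 ≤ (W : ℝ) ^ (1 + ε) := Real.rpow_nonneg (by positivity) _
    have h3 : 0 ≤ 32 * (2 * B0 ^ 2) ^ 2 * H / c := by positivity
    have h4 : 0 ≤ 4 * (2 * B0 ^ 2) / √c := by positivity
    positivity
  have hmap : ∀ P ∈ S, sP P ∈ Finset.range ⌊H⌋₊ := by
    intro P hP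
    rw [Finset.mem_range]
    have h1 := (hsP P hP).1
    have h2 : sP P + 1 ≤ ⌊H⌋₊ := Nat.le_floor (by push_cast; exact h1)
    omega
  have hfib := Pool.Agent.FTA.fib_const S sP (Finset.range ⌊H⌋₊) hmap b (by
    intro s hs
    have hcard : ((S.filter (fun P => sP P = s)).image (TV s)).card =
        (S.filter (fun P => sP P = s)).card :=
      Finset.card_image_of_injective _ (fun P Q h => TV_inj _ P Q h)
    rw [← hcard]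
    refine hfn (2 * B0 ^ 2) c H T Q L R0 Z a B W hc hE hH1 hR0 hB hW hTau hUni hZ hL hEZ haB _ ?_
    intro P' hP'
    obtain ⟨P, hP, rfl⟩ := Finset.mem_image.mp hP'
    rw [Finset.mem_filter] at hP
    obtain ⟨hPS, rfl⟩ := hP
    obtain ⟨hq, hbx, hD, hDW, h2, hR⟩ := hS P hPS
    obtain ⟨h3, h4, h5⟩ := hsP P hPS
    have hg := gbx P hq B0 c H hc hbx hD (sP P) h3 h4 h5
    have hDf : Df (TV (sP P) P) = Df P := TV_Df _
    refine ⟨hg, ?_, ?_, ?_, ?_⟩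
    · have : (qF (TV (sP P) P)).1 = (qF P).1 := by
        simp only [qF, hDf]
      rw [this]
      exact hR
    · rw [hDf]
      exact hDW
    · have hV := Df_V hg.qd
      have hVr : (Df (TV (sP P) P) : ℝ) = (Bf (TV (sP P) P) : ℝ) ^ 2 -
          4 * (Nf (TV (sP P) P) : ℝ) * (Mf (TV (sP P) P) : ℝ) := by exact_mod_cast hV
      have hM0 : (0 : ℝ) < (Mf (TV (sP P) P) : ℝ) := by exact_mod_cast hg.mp
      have hMu := hg.mu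
      have hdl := hg.dl
      by_contra hlt
      have hN1 : Nf (TV (sP P) P) ≤ 1 := by omega
      have hN1r : (Nf (TV (sP P) P) : ℝ) ≤ 1 := by exact_mod_cast hN1
      have hsq : 0 ≤ (Bf (TV (sP P) P) : ℝ) ^ 2 := sq_nonneg _
      have h6 : (Nf (TV (sP P) P) : ℝ) * (Mf (TV (sP P) P) : ℝ) ≤ 1 * (Mf (TV (sP P) P) : ℝ) :=
        mul_le_mul_of_nonneg_right hN1r hM0.le
      have hB2 : 0 < B0 ^ 2 := by positivity
      nlinarith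
    · have h6 : (Nf (TV (sP P) P) : ℝ) ≤ 4 * (a : ℝ) ^ 2 := hg.nu.trans hEa
      exact_mod_cast h6)
  calc (S.card : ℝ) ≤ ((Finset.range ⌊H⌋₊).card : ℝ) * b := hfib
    _ ≤ H * b := by
      apply mul_le_mul_of_nonneg_right _ hb0
      rw [Finset.card_range]
      exact Nat.floor_le (by linarith)

end Pool.Agent.LBT
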