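import Mathlib

/-!
# LBT/Rct: numbers of roots

PROOF of `rc2`.  Work in the field `ZMod p` (`p` odd).  The polynomial `f = a + b X + c X ^ 2` over `ZMod p` is not zero and
has degree at most `2`, so at most `2` roots (`Polynomial.card_roots'`).  The map `x ↦ (s0 + 2 x : ZMod p)` on
`range p` is injective (`2` is invertible modulo `p`, `x < p`) with values in the roots of `f`.
PROOF of `rc5`.  The polynomial `f = ∑ c_i X ^ i` over `ℤ` is not zero (`c0 ≠ 0` or `c1 ≠ 0`), of degree `≤ 5`, so it has at most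
`5` roots; the map `x ↦ (s0 + 2 x : ℤ)` is injective on `S` with values in the roots.
-/

set_option autoImplicit false

namespace Pool.Agent.LBT

theorem rc2 (p : ℕ) (hp : p.Prime) (h2 : p ≠ 2) (a b c s0 : ℤ)
    (h : ¬ ((p : ℤ) ∣ a ∧ (p : ℤ) ∣ b ∧ (p : ℤ) ∣ c)) :
    ((Finset.range p).filter (fun x : ℕ =>
      (p : ℤ) ∣ a + (s0 + 2 * x) * b + (s0 + 2 * x) ^ 2 * c)).card ≤ 2 := by
  classical
  have : Fact p.Prime := ⟨hp⟩
  let f : Polynomial (ZMod p) := Polynomial.C (a : ZMod p) + Polynomial.C (b : ZMod p) * Polynomial.X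
    + Polynomial.C (c : ZMod p) * Polynomial.X ^ 2
  have hf : f ≠ 0 := by
    intro h0
    apply h
    have h1 : ∀ n, f.coeff n = 0 := fun n => by rw [h0, Polynomial.coeff_zero]
    have c0 : (a : ZMod p) = 0 := by
      have := h1 0
      simpa [f] using this
    have c1 : (b : ZMod p) = 0 := by
      have := h1 1
      simp only [f, Polynomial.coeff_add, Polynomial.coeff_C_mul, Polynomial.coeff_X,
        Polynomial.coeff_C, Polynomial.coeff_X_pow] at this
      norm_num at this
      exact this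
    have c2 : (c : ZMod p) = 0 := by
      have := h1 2
      simp only [f, Polynomial.coeff_add, Polynomial.coeff_C_mul, Polynomial.coeff_X,
        Polynomial.coeff_C, Polynomial.coeff_X_pow] at this
      norm_num at this
      exact this
    exact ⟨(ZMod.intCast_zmod_eq_zero_iff_dvd _ _).1 c0, (ZMod.intCast_zmod_eq_zero_iff_dvd _ _).1 c1,
      (ZMod.intCast_zmod_eq_zero_iff_dvd _ _).1 c2⟩
  have hdeg : f.natDegree ≤ 2 := by
    simp only [f]
    compute_degree
  have hcard : f.roots.toFinset.card ≤ 2 :=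
    (Multiset.toFinset_card_le _).trans ((Polynomial.card_roots' f).trans hdeg)
  refine le_trans (Finset.card_le_card_of_injOn
    (fun x : ℕ => (((s0 + 2 * (x : ℤ) : ℤ)) : ZMod p)) ?_ ?_) hcard
  · intro x hx
    rw [Finset.mem_coe, Finset.mem_filter] at hx
    rw [Finset.mem_coe, Multiset.mem_toFinset, Polynomial.mem_roots hf]
    have h1 := (ZMod.intCast_zmod_eq_zero_iff_dvd _ _).2 hx.2
    simp only [Polynomial.IsRoot.def, f, Polynomial.eval_add, Polynomial.eval_mul,
      Polynomial.eval_pow, Polynomial.eval_C, Polynomial.eval_X]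
    push_cast at h1 ⊢
    linear_combination h1
  · intro x hx y hy hxy
    rw [Finset.mem_coe, Finset.mem_filter, Finset.mem_range] at hx hy
    have h1 : (((s0 + 2 * (x : ℤ) : ℤ)) : ZMod p) = ((s0 + 2 * (y : ℤ) : ℤ) : ZMod p) := hxy
    push_cast at h1
    have h3 : (2 : ZMod p) ≠ 0 := by
      intro h4
      have h5 : ((2 : ℕ) : ZMod p) = 0 := by exact_mod_cast h4
      rw [ZMod.natCast_eq_zero_iff] at h5
      exact h2 ((Nat.prime_dvd_prime_iff_eq hp Nat.prime_two).1 h5)
    have h6 : (x : ZMod p) = (y : ZMod p) := by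
      apply mul_left_cancel₀ h3
      linear_combination h1
    rw [ZMod.natCast_eq_natCast_iff'] at h6
    rw [Nat.mod_eq_of_lt hx.1, Nat.mod_eq_of_lt hy.1] at h6
    exact h6

theorem rc5 (c0 c1 c2 c3 c4 c5 s0 : ℤ) (h : ¬ (c0 = 0 ∧ c1 = 0)) (S : Finset ℕ)
    (hS : ∀ x ∈ S, c0 + c1 * (s0 + 2 * x) + c2 * (s0 + 2 * x) ^ 2 + c3 * (s0 + 2 * x) ^ 3 +
      c4 * (s0 + 2 * x) ^ 4 + c5 * (s0 + 2 * x) ^ 5 = 0) : S.card ≤ 5 := by
  classical
  let f : Polynomial ℤ := Polynomial.C c0 + Polynomial.C c1 * Polynomial.X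
    + Polynomial.C c2 * Polynomial.X ^ 2 + Polynomial.C c3 * Polynomial.X ^ 3
    + Polynomial.C c4 * Polynomial.X ^ 4 + Polynomial.C c5 * Polynomial.X ^ 5
  have hf : f ≠ 0 := by
    intro h0
    apply h
    have h1 : ∀ n, f.coeff n = 0 := fun n => by rw [h0, Polynomial.coeff_zero]
    have d0 : c0 = 0 := by
      have := h1 0
      simpa [f] using this
    have d1 : c1 = 0 := by
      have := h1 1
      simp only [f, Polynomial.coeff_add, Polynomial.coeff_C_mul, Polynomial.coeff_X,
        Polynomial.coeff_C, Polynomial.coeff_X_pow] at this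
      norm_num at this
      exact this
    exact ⟨d0, d1⟩
  have hdeg : f.natDegree ≤ 5 := by
    simp only [f]
    compute_degree
  have hcard : f.roots.toFinset.card ≤ 5 :=
    (Multiset.toFinset_card_le _).trans ((Polynomial.card_roots' f).trans hdeg)
  refine le_trans (Finset.card_le_card_of_injOn (fun x : ℕ => s0 + 2 * (x : ℤ)) ?_ ?_) hcard
  · intro x hx
    rw [Finset.mem_coe, Multiset.mem_toFinset, Polynomial.mem_roots hf]
    have h1 := hS x hx
    simp only [Polynomial.IsRoot.def, f, Polynomial.eval_add, Polynomial.eval_mul,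
      Polynomial.eval_pow, Polynomial.eval_C, Polynomial.eval_X]
    linear_combination h1
  · intro x hx y hy hxy
    have h1 : s0 + 2 * (x : ℤ) = s0 + 2 * (y : ℤ) := hxy
    omega

end Pool.Agent.LBT
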