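import Mathlib

/-!
# LBT/Svl: a small integer avoiding few residue classes

PROOF of `svl`.  Let `n = card P` and `z = 2 n + 6`.  Let `P1` be the primes of `P` that are `≤ z` and `M` their
product; `M ≤ primorial z ≤ 4 ^ z` (`primorial_le_4_pow`, `Finset.prod_le_prod_of_subset_of_one_le'`).  For every `p ∈ P1`
(`p ≥ 3 > card (B p)`) choose `c p < p` not in `B p`; by the Chinese remainder theorem
(`Nat.chineseRemainderOfFinset` or induction) there is `s0 < M` with `s0 % p = c p` for all `p ∈ P1`.  Consider the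
`z` numbers `s0 + M j`, `j < z`: all are `< M z`, all have residue `c p` modulo `p ∈ P1`.  For `p ∈ P`, `z < p`,
`M` is prime to `p`, so `j ↦ (s0 + M j) % p` is injective on `j < z` (`z < p`), so at most `2` of the `j` are
bad for `p`; the map `j ↦ s0 + M j` is injective (`M ≥ 1`), so at most `5` of the `j` give an element of `E`.  Together at most
`2 n + 5 < z` of the `j` are bad; take another one.
-/

set_option autoImplicit false

namespace Pool.Agent.LBT

theorem svl (P : Finset ℕ) (hP : ∀ p ∈ P, p.Prime ∧ p ≠ 2) (B : ℕ → Finset ℕ)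
    (hB : ∀ p ∈ P, (B p).card ≤ 2) (E : Finset ℕ) (hE : E.card ≤ 5) :
    ∃ s : ℕ, s < (2 * P.card + 6) * 4 ^ (2 * P.card + 6) ∧ s ∉ E ∧ ∀ p ∈ P, s % p ∉ B p := by
  classical
  set n := P.card with hn
  set z := 2 * n + 6 with hz
  set P1 := P.filter (fun p => p ≤ z) with hP1
  set P2 := P.filter (fun p => z < p) with hP2
  set M := ∏ p ∈ P1, p with hM
  have hp1 : ∀ p ∈ P1, p ∈ P ∧ p ≤ z := fun p hp => Finset.mem_filter.1 hp
  have hp2 : ∀ p ∈ P2, p ∈ P ∧ z < p := fun p hp => Finset.mem_filter.1 hp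
  have hMpos : 0 < M := Finset.prod_pos fun p hp => (hP p (hp1 p hp).1).1.pos
  have hMle : M ≤ 4 ^ z := by
    refine le_trans ?_ (primorial_le_four_pow z)
    unfold primorial
    refine Finset.prod_le_prod_of_subset_of_one_le' ?_ ?_
    · intro p hp
      rw [Finset.mem_filter, Finset.mem_range]
      exact ⟨Nat.lt_succ_of_le (hp1 p hp).2, (hP p (hp1 p hp).1).1⟩
    · intro p hp _
      exact (Finset.mem_filter.1 hp).2.one_le
  have hc : ∀ p : ℕ, ∃ c : ℕ, p ∈ P → c < p ∧ c ∉ B p := by
    intro p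
    by_cases hp : p ∈ P
    · have h3 : 2 < p := by
        have h1 := (hP p hp).1.two_le
        have h2 := (hP p hp).2
        omega
      have h4 : (B p).card < (Finset.range p).card := by
        rw [Finset.card_range]; exact lt_of_le_of_lt (hB p hp) h3
      obtain ⟨c, hc1, hc2⟩ := Finset.exists_mem_notMem_of_card_lt_card h4
      exact ⟨c, fun _ => ⟨Finset.mem_range.1 hc1, hc2⟩⟩
    · exact ⟨0, fun h => absurd h hp⟩
  choose c hc using hc
  have hcop : Set.Pairwise (P1 : Set ℕ) (Function.onFun Nat.Coprime (fun p => p)) := by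
    intro p hp q hq hpq
    exact (Nat.coprime_primes (hP p (hp1 p hp).1).1 (hP q (hp1 q hq).1).1).2 hpq
  obtain ⟨s1, hs1⟩ := Nat.chineseRemainderOfFinset c (fun p => p) P1
    (fun p hp => (hP p (hp1 p hp).1).1.ne_zero) hcop
  set s0 := s1 % M with hs0
  have hs0M : s0 < M := Nat.mod_lt _ hMpos
  have hv1 : ∀ j : ℕ, ∀ p ∈ P1, (s0 + M * j) % p = c p := by
    intro j p hp
    have hd : p ∣ M := Finset.dvd_prod_of_mem (fun p => p) hp
    have e1 : (s0 + M * j) % p = s0 % p := by
      obtain ⟨k, hk⟩ := hd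
      rw [hk, mul_assoc, Nat.add_mul_mod_self_left]
    rw [e1, hs0, Nat.mod_mod_of_dvd _ hd]
    have e2 : s1 % p = c p % p := hs1 p hp
    rw [e2, Nat.mod_eq_of_lt (hc p (hp1 p hp).1).1]
  let v : ℕ → ℕ := fun j => s0 + M * j
  have hvinj : Function.Injective v := by
    intro a b hab
    have h1 : s0 + M * a = s0 + M * b := hab
    exact Nat.eq_of_mul_eq_mul_left hMpos (Nat.add_left_cancel h1)
  have bE : ((Finset.range z).filter (fun j => v j ∈ E)).card ≤ 5 := by
    refine le_trans (Finset.card_le_card_of_injOn v (fun j hj => ?_) (hvinj.injOn)) hE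
    exact (Finset.mem_filter.1 hj).2
  have bP : ∀ p ∈ P2, ((Finset.range z).filter (fun j => v j % p ∈ B p)).card ≤ 2 := by
    intro p hp
    refine le_trans (Finset.card_le_card_of_injOn (fun j => v j % p) (fun j hj => ?_) ?_) (hB p (hp2 p hp).1)
    · exact (Finset.mem_filter.1 hj).2
    · intro a ha b hb hab
      have ha' : a < z := Finset.mem_range.1 (Finset.mem_filter.1 ha).1
      have hb' : b < z := Finset.mem_range.1 (Finset.mem_filter.1 hb).1
      have hpp := (hP p (hp2 p hp).1).1
      have hzp := (hp2 p hp).2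
      have hcopM : Nat.Coprime p M := by
        rw [hM]
        refine Nat.Coprime.prod_right fun q hq => ?_
        refine (Nat.coprime_primes hpp (hP q (hp1 q hq).1).1).2 ?_
        have := (hp1 q hq).2
        omega
      have h1 : s0 + M * a ≡ s0 + M * b [MOD p] := hab
      have h2 : M * a ≡ M * b [MOD p] := Nat.ModEq.add_left_cancel' s0 h1
      have h3 : a ≡ b [MOD p] := Nat.ModEq.cancel_left_of_coprime hcopM h2
      exact Nat.ModEq.eq_of_lt_of_lt h3 (by omega) (by omega)
  have hU : ((Finset.range z).filter (fun j => v j ∈ E) ∪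
      P2.biUnion (fun p => (Finset.range z).filter (fun j => v j % p ∈ B p))).card < (Finset.range z).card := by
    have h1 := Finset.card_union_le ((Finset.range z).filter (fun j => v j ∈ E))
      (P2.biUnion (fun p => (Finset.range z).filter (fun j => v j % p ∈ B p)))
    have h2 := Finset.card_biUnion_le_card_mul P2 (fun p => (Finset.range z).filter (fun j => v j % p ∈ B p)) 2 bP
    have h3 : P2.card ≤ n := Finset.card_le_card (Finset.filter_subset _ _)
    rw [Finset.card_range]
    omega
  obtain ⟨j, hj1, hj2⟩ := Finset.exists_mem_notMem_of_card_lt_card hU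
  rw [Finset.mem_union, not_or] at hj2
  refine ⟨v j, ?_, ?_, ?_⟩
  · have hjz : j < z := Finset.mem_range.1 hj1
    calc v j = s0 + M * j := rfl
      _ < M + M * j := Nat.add_lt_add_right hs0M _
      _ = M * (j + 1) := by ring
      _ ≤ M * z := Nat.mul_le_mul_left _ hjz
      _ ≤ 4 ^ z * z := Nat.mul_le_mul_right _ hMle
      _ = z * 4 ^ z := Nat.mul_comm _ _
  · intro h
    exact hj2.1 (Finset.mem_filter.2 ⟨hj1, h⟩)
  · intro p hp
    by_cases hpz : p ≤ z
    · have hp' : p ∈ P1 := Finset.mem_filter.2 ⟨hp, hpz⟩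
      rw [show v j % p = c p from hv1 j p hp']
      exact (hc p hp).2
    · have hp' : p ∈ P2 := Finset.mem_filter.2 ⟨hp, by omega⟩
      intro h
      exact hj2.2 (Finset.mem_biUnion.2 ⟨p, hp', Finset.mem_filter.2 ⟨hj1, h⟩⟩)

end Pool.Agent.LBT
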