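import Pool.Agent.LBT.Act
import Pool.Agent.LBT.Svl
import Pool.Agent.LBT.Rct

/-!
# LBT/Gds: a good basis of `V`

PROOF of `gds`.  Let `N, B, M` be `Nf P, Bf P, Mf P` and `l = gcd (N, B, M)` (a natural number `≥ 1`: all three zero would give
`Df P = 0` by `Df_V`).  `l` is odd by `h2`.  Write `N = l N1`, `B = l B1`, `M = l M1`; `N1, B1, M1` have no common prime factor.
Choice of `s0 ∈ {0, 1}`: if `2 ∣ Df P` then `B` is even (`Df_V`), so `B1` is even (`l` odd), so `N1` and `M1` are not both even, and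
there is `s0 ∈ {0, 1}` with `N1 + s0 B1 + s0 ^ 2 M1` odd; otherwise `s0 = 0`.
Apply `svl` with `P` = the odd primes dividing `Df P`, `B p` = the set of `rc2` for `(N1, B1, M1, s0)`, and `E` = the set of the
`x < (2 n + 6) 4 ^ (2 n + 6)` with `om (TV (s0 + 2 x) P) = 0`; `card E ≤ 5` by `TV_om` and `rc5`: `om P = 0` and `5 om2 P = 0` is
impossible because `omN` would give `Nf P ^ 4 = 0`, `Nf P = 0` and then `Df P = B ^ 2 ≥ 0` (`Df_V`).
Let `x` be the result and `s = s0 + 2 x ≤ 2 (2 n + 6) 4 ^ (2 n + 6)` (note `card` of the odd primes `≤ n`).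
`om (TV s P) ≠ 0` as `x ∉ E`.  `Gl l (TV s P)`: `dN, dB, dM` by `TV_Nf, TV_Bf, TV_Mf`; `Nf (TV s P) / l = N1 + s B1 + s ^ 2 M1`;
it is prime to `Df (TV s P) = Df P` (`TV_Df`): let `p` be a prime dividing both.  `p = 2`: the value is congruent to
`N1 + s0 B1 + s0 ^ 2 M1` modulo 2, odd.  `p` odd: `x % p ∉ B p`, but `x % p < p` and `s0 + 2 (x % p) ≡ s` modulo `p`.
(`IsCoprime` for integers from `Int.isCoprime_iff_gcd_eq_one` and primes: `Nat.Coprime` / `Nat.coprime_of_dvd`.)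
-/

set_option autoImplicit false

namespace Pool.Agent.LBT

open Pool.Agent.PP5

private theorem Gds_basic (N B M : ℤ) (h0 : ¬ (N = 0 ∧ B = 0 ∧ M = 0))
    (h2 : ¬ ((2 : ℤ) ∣ N ∧ (2 : ℤ) ∣ B ∧ (2 : ℤ) ∣ M)) :
    ∃ (l : ℕ) (N1 B1 M1 : ℤ), 1 ≤ l ∧ Odd l ∧ N = l * N1 ∧ B = l * B1 ∧ M = l * M1 ∧
      ∀ p : ℕ, p.Prime → ¬ ((p : ℤ) ∣ N1 ∧ (p : ℤ) ∣ B1 ∧ (p : ℤ) ∣ M1) := by
  set l : ℕ := Int.gcd (Int.gcd N B : ℤ) M with hl
  have hlN : (l : ℤ) ∣ N :=
    (Int.gcd_dvd_left (Int.gcd N B : ℤ) M).trans (Int.gcd_dvd_left N B)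
  have hlB : (l : ℤ) ∣ B :=
    (Int.gcd_dvd_left (Int.gcd N B : ℤ) M).trans (Int.gcd_dvd_right N B)
  have hlM : (l : ℤ) ∣ M := Int.gcd_dvd_right (Int.gcd N B : ℤ) M
  have hl0 : l ≠ 0 := by
    intro h
    rw [h] at hlN hlB hlM
    exact h0 ⟨by simpa using hlN, by simpa using hlB, by simpa using hlM⟩
  obtain ⟨N1, hN1⟩ := hlN
  obtain ⟨B1, hB1⟩ := hlB
  obtain ⟨M1, hM1⟩ := hlM
  refine ⟨l, N1, B1, M1, Nat.one_le_iff_ne_zero.2 hl0, ?_, hN1, hB1, hM1, ?_⟩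
  · rw [← Nat.not_even_iff_odd, even_iff_two_dvd]
    intro h
    have h' : (2 : ℤ) ∣ (l : ℤ) := by exact_mod_cast h
    exact h2 ⟨hN1 ▸ h'.mul_right N1, hB1 ▸ h'.mul_right B1, hM1 ▸ h'.mul_right M1⟩
  · rintro p hp ⟨a, b, c⟩
    have h1 : ((l : ℤ) * p) ∣ (l : ℤ) := by
      rw [hl]
      refine Int.dvd_coe_gcd (Int.dvd_coe_gcd ?_ ?_) ?_
      · rw [← hl, hN1]
        exact mul_dvd_mul_left _ a
      · rw [← hl, hB1]
        exact mul_dvd_mul_left _ b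
      · rw [← hl, hM1]
        exact mul_dvd_mul_left _ c
    have h3 : l * p ∣ l := by exact_mod_cast h1
    have h4 := Nat.le_of_dvd (Nat.pos_of_ne_zero hl0) h3
    have h5 := hp.two_le
    have h6 : l * 2 ≤ l * p := Nat.mul_le_mul_left l h5
    omega

theorem gds (P : Sp) (hq : Qd P) (hD : Df P < 0)
    (h2 : ¬ ((2 : ℤ) ∣ Nf P ∧ (2 : ℤ) ∣ Bf P ∧ (2 : ℤ) ∣ Mf P)) (n : ℕ)
    (hn : (Df P).natAbs.primeFactors.card ≤ n) :
    ∃ s : ℕ, s + 1 ≤ 2 * ((2 * n + 6) * 4 ^ (2 * n + 6)) ∧ om (TV s P) ≠ 0 ∧ ∃ l : ℕ, Gl l (TV s P) := by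
  have hV := Df_V hq
  have h0 : ¬ (Nf P = 0 ∧ Bf P = 0 ∧ Mf P = 0) := by
    rintro ⟨a, b, c⟩
    rw [a, b, c] at hV
    rw [hV] at hD
    norm_num at hD
  obtain ⟨l, N1, B1, M1, hl1, hlo, hN, hB, hM, hco⟩ := Gds_basic _ _ _ h0 h2
  have hs0 : ∃ s0 : ℕ, s0 ≤ 1 ∧ ((2 : ℤ) ∣ Df P → ¬ (2 : ℤ) ∣ N1 + s0 * B1 + s0 ^ 2 * M1) := by
    by_cases hd : (2 : ℤ) ∣ Df P
    · have hB2 : (2 : ℤ) ∣ Bf P := by
        have h3 : (2 : ℤ) ∣ Bf P ^ 2 := by
          have h4 : Bf P ^ 2 = Df P + 2 * (2 * Nf P * Mf P) := by rw [hV]; ring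
          rw [h4]
          exact dvd_add hd (dvd_mul_right _ _)
        exact Int.prime_two.dvd_of_dvd_pow h3
      have hB3 : (2 : ℤ) ∣ B1 := by
        rw [hB] at hB2
        refine (Int.prime_two.dvd_or_dvd hB2).resolve_left ?_
        intro h
        have h' : 2 ∣ l := by exact_mod_cast h
        rw [← Nat.not_even_iff_odd, even_iff_two_dvd] at hlo
        exact hlo h'
      by_cases hN2 : (2 : ℤ) ∣ N1
      · refine ⟨1, le_refl 1, fun _ h => ?_⟩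
        have hM2 : ¬ (2 : ℤ) ∣ M1 := fun h' => hco 2 Nat.prime_two
          ⟨by exact_mod_cast hN2, by exact_mod_cast hB3, by exact_mod_cast h'⟩
        push_cast at h
        omega
      · refine ⟨0, Nat.zero_le 1, fun _ h => hN2 ?_⟩
        simpa using h
    · exact ⟨0, Nat.zero_le 1, fun h => absurd h hd⟩
  obtain ⟨s0, hs1, hs2⟩ := hs0
  obtain ⟨c2, c3, c4, c5, hom⟩ := TV_om hq
  have hoz : ¬ (om P = 0 ∧ 5 * om2 P = 0) := by
    rintro ⟨a, b⟩
    have b' : om2 P = 0 := by omega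
    have h3 := omN hq
    rw [a, b'] at h3
    have h4 : Nf P = 0 := by
      have h5 : Nf P ^ 4 = 0 := by rw [← h3]; ring
      exact pow_eq_zero_iff (by norm_num) |>.1 h5
    rw [h4] at hV
    have h6 := sq_nonneg (Bf P)
    rw [hV] at hD
    linarith
  set T : Finset ℕ := (Df P).natAbs.primeFactors.filter (fun p => p ≠ 2) with hT
  set X : ℕ := (2 * T.card + 6) * 4 ^ (2 * T.card + 6) with hX
  have hTn : T.card ≤ n := (Finset.card_filter_le _ _).trans hn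
  have hXn : X ≤ (2 * n + 6) * 4 ^ (2 * n + 6) := by
    rw [hX]
    refine Nat.mul_le_mul (by omega) (Nat.pow_le_pow_right (by norm_num) (by omega))
  obtain ⟨x, hx1, hx2, hx3⟩ := svl T (fun p hp => by
      rw [hT, Finset.mem_filter] at hp
      exact ⟨Nat.prime_of_mem_primeFactors hp.1, hp.2⟩)
    (fun p => (Finset.range p).filter (fun x : ℕ =>
      (p : ℤ) ∣ N1 + ((s0 : ℤ) + 2 * x) * B1 + ((s0 : ℤ) + 2 * x) ^ 2 * M1))
    (fun p hp => by
      rw [hT, Finset.mem_filter] at hp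
      have hpp := Nat.prime_of_mem_primeFactors hp.1
      exact rc2 p hpp hp.2 N1 B1 M1 s0 (hco p hpp))
    ((Finset.range X).filter (fun x : ℕ => om (TV ((s0 : ℤ) + 2 * x) P) = 0))
    (rc5 (om P) (5 * om2 P) c2 c3 c4 c5 s0 hoz _ (fun x hx => by
      rw [Finset.mem_filter] at hx
      rw [← hom]
      exact hx.2))
  refine ⟨s0 + 2 * x, ?_, ?_, l, ?_⟩
  · have : s0 + 2 * x + 1 ≤ 2 * X := by omega
    exact this.trans (Nat.mul_le_mul_left 2 hXn)
  · intro h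
    refine hx2 (Finset.mem_filter.2 ⟨Finset.mem_range.2 hx1, ?_⟩)
    push_cast at h
    exact h
  · set s : ℤ := ((s0 + 2 * x : ℕ) : ℤ) with hs
    have hs' : s = (s0 : ℤ) + 2 * x := by rw [hs]; push_cast; ring
    have hl0 : (l : ℤ) ≠ 0 := by exact_mod_cast (by omega : l ≠ 0)
    have hNf : Nf (TV s P) = l * (N1 + s * B1 + s ^ 2 * M1) := by
      rw [TV_Nf hq, hN, hB, hM]
      ring
    refine ⟨hl1, hlo, ?_, ?_, ?_, ?_⟩
    · rw [hNf]
      exact dvd_mul_right _ _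
    · rw [TV_Bf, hB, hM]
      exact ⟨B1 + 2 * s * M1, by ring⟩
    · rw [TV_Mf, hM]
      exact dvd_mul_right _ _
    · rw [hNf, TV_Df, Int.mul_ediv_cancel_left _ hl0, Int.isCoprime_iff_gcd_eq_one]
      by_contra hg
      obtain ⟨p, hp, hpd⟩ := Nat.exists_prime_and_dvd hg
      have hp1 : (p : ℤ) ∣ N1 + s * B1 + s ^ 2 * M1 :=
        (Int.natCast_dvd_natCast.2 hpd).trans (Int.gcd_dvd_left _ _)
      have hp2 : (p : ℤ) ∣ Df P :=
        (Int.natCast_dvd_natCast.2 hpd).trans (Int.gcd_dvd_right _ _)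
      by_cases h22 : p = 2
      · subst h22
        refine hs2 (by exact_mod_cast hp2) ?_
        have h3 : N1 + (s0 : ℤ) * B1 + (s0 : ℤ) ^ 2 * M1
            = (N1 + s * B1 + s ^ 2 * M1) - 2 * (x * B1 + (2 * s0 * x + 2 * x ^ 2) * M1) := by
          rw [hs']
          ring
        rw [h3]
        exact dvd_sub (by exact_mod_cast hp1) (dvd_mul_right _ _)
      · have hpT : p ∈ T := by
          rw [hT, Finset.mem_filter, Nat.mem_primeFactors]
          refine ⟨⟨hp, ?_, ?_⟩, h22⟩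
          · exact Int.natCast_dvd.1 hp2
          · intro h
            rw [Int.natAbs_eq_zero] at h
            rw [h] at hD
            exact absurd hD (lt_irrefl 0)
        refine hx3 p hpT (Finset.mem_filter.2 ⟨Finset.mem_range.2 (Nat.mod_lt _ hp.pos), ?_⟩)
        have h4 : (x : ℤ) = ((x % p : ℕ) : ℤ) + p * ((x / p : ℕ) : ℤ) := by
          exact_mod_cast (Nat.mod_add_div x p).symm
        set r : ℤ := ((x % p : ℕ) : ℤ) with hr
        set k : ℤ := ((x / p : ℕ) : ℤ) with hk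
        have h3 : N1 + ((s0 : ℤ) + 2 * r) * B1 + ((s0 : ℤ) + 2 * r) ^ 2 * M1
            = (N1 + s * B1 + s ^ 2 * M1)
              - p * (2 * k * B1 + 2 * k * (2 * s0 + 4 * r + 2 * p * k) * M1) := by
          rw [hs', h4]
          ring
        rw [h3]
        exact dvd_sub hp1 (dvd_mul_right _ _)

end Pool.Agent.LBT
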