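import Pool.Agent.LBT.Defs

/-!
# LBT/Idn: identities of the points
-/

set_option autoImplicit false

namespace Pool.Agent.LBT

open Pool.Agent.PP5

variable {P : Sp}

theorem Nf_R (h : Qd P) : Nf P = P 7 ^ 2 - P 6 * P 8 := by
  have := h.h1
  unfold Nf
  linear_combination this

theorem Mf_P (h : Qd P) : Mf P = P 1 * P 5 - P 2 * P 4 := by
  have := h.h3
  unfold Mf
  linear_combination -this

theorem Bf_P (h : Qd P) : Bf P = P 0 * P 5 - P 2 * P 3 := by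
  have h5 := h.h5
  have h6 := h.h6
  unfold Bf
  linear_combination -h5 - h6

theorem Kf_R (h : Qd P) : Kf P = P 7 * P 9 - P 6 * P 10 := by
  have := h.h2
  unfold Kf
  linear_combination this

theorem Kg_R (h : Qd P) : Kg P = P 8 * P 10 - P 7 * P 11 := by
  have := h.h4
  unfold Kg
  linear_combination this

theorem Bg_R (h : Qd P) : Bg P = P 8 * P 9 - P 6 * P 11 := by
  have h5 := h.h5
  have h6 := h.h6
  unfold Bg
  linear_combination h5 - h6

/-- discriminant of `f_V` -/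
theorem Df_V (h : Qd P) : Df P = Bf P ^ 2 - 4 * Nf P * Mf P := by
  rw [Nf_R h]
  unfold Df Bf Mf
  ring

/-- discriminant of `f_W` -/
theorem Df_W (h : Qd P) : Df P = Bg P ^ 2 - 4 * Kf P * Kg P := by
  rw [Kf_R h, Kg_R h, Bg_R h]
  unfold Df
  ring

/-- `f_V (R(e2; w, w), - R(e1; w, w)) = f_W(w) ^ 2` -/
theorem sqV (h : Qd P) (x y : ℤ) :
    Nf P * (P 9 * x ^ 2 + 2 * P 10 * x * y + P 11 * y ^ 2) ^ 2
      - Bf P * (P 9 * x ^ 2 + 2 * P 10 * x * y + P 11 * y ^ 2)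
        * (P 6 * x ^ 2 + 2 * P 7 * x * y + P 8 * y ^ 2)
      + Mf P * (P 6 * x ^ 2 + 2 * P 7 * x * y + P 8 * y ^ 2) ^ 2
      = (Kf P * x ^ 2 + Bg P * x * y + Kg P * y ^ 2) ^ 2 := by
  rw [Kf_R h, Kg_R h, Bg_R h, Nf_R h]
  unfold Bf Mf
  ring

/-- `f_W (z) = N ^ 2` -/
theorem fWz (P : Sp) : Kf P * P 3 ^ 2 + Bg P * P 3 * (-(P 0)) + Kg P * (-(P 0)) ^ 2 = Nf P ^ 2 := by
  unfold Kf Bg Kg Nf
  ring

theorem omN (h : Qd P) : Nf P * om2 P ^ 2 - Bf P * om2 P * om P + Mf P * om P ^ 2 = Nf P ^ 4 := by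
  have h1 := sqV h (P 3) (-(P 0))
  rw [fWz P] at h1
  unfold om2 om
  linear_combination h1

/-- the norm equation -/
theorem tt_sq (h : Qd P) : tt P ^ 2 = 4 * Nf P ^ 5 + Df P * om P ^ 2 := by
  have h1 := omN h
  rw [Df_V h]
  unfold tt
  linear_combination 4 * Nf P * h1

/-- `S1 z' = S2 z`, `S1 z'' = S2 z'` for `z = (P 3, - P 0)`, `z' = (P 4, - P 1)`, `z'' = (P 5, - P 2)` -/
theorem s1 (h : Qd P) : P 6 * P 4 - P 7 * P 1 = P 9 * P 3 - P 10 * P 0 := by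
  linear_combination h.h7

theorem s2 (h : Qd P) : P 7 * P 4 - P 8 * P 1 = P 10 * P 3 - P 11 * P 0 := by
  linear_combination h.h9

theorem s3 (h : Qd P) : P 6 * P 5 - P 7 * P 2 = P 9 * P 4 - P 10 * P 1 := by
  linear_combination h.h8

theorem s4 (h : Qd P) : P 7 * P 5 - P 8 * P 2 = P 10 * P 4 - P 11 * P 1 := by
  linear_combination h.h10

end Pool.Agent.LBT
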