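import Pool.Agent.LBT.Act

/-!
# LBT/Ndg: non-degeneracy at a prime

PROOF of `ndg`.  Let `p` divide `N = Nf P` and `om P`.  Write `z = (P 3, - P 0)`, `S1 = (P6, P7; P7, P8)`.
(1) `u = P6 P3 - P7 P0` and `u' = P7 P3 - P8 P0` are divisible by `p`: `u ^ 2 = P6 om + N P0 ^ 2`, `u' ^ 2 = P8 om + N P3 ^ 2`
(`N = P7 ^ 2 - P6 P8` by `Nf_R`).
(2) If `p ∣ P0` and `p ∣ P3` then `p ∣ Bf P = P0 P5 - P2 P3` (`Bf_P`) and `Df P = Bf ^ 2 - 4 N Mf` (`Df_V`) is divisible by `p`.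
(3) Otherwise: `x = P6 P4 - P7 P1 = P9 P3 - P10 P0` (`s1`) and `x' = P7 P4 - P8 P1 = P10 P3 - P11 P0` (`s2`) are divisible by `p`:
`P0 x = P6 (P0 P4) - P7 P0 P1 = P6 N + P6 P1 P3 - P7 P0 P1 = P6 N + P1 u`, `P3 x = P4 (P6 P3) - P7 P1 P3 = P4 u + P7 (P0 P4 - P1 P3) = P4 u + P7 N`,
and one of `P0, P3` is prime to `p`; the same for `x'`.
(4) `p ∣ P0 Bf` and `p ∣ P3 Bf`: `P0 Bf = 2 P7 (P0 P10) - P6 (P0 P11) - P8 P0 P9` and modulo `p`: `P0 P10 ≡ P3 P9`, `P0 P11 ≡ P3 P10`,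
`P8 P0 ≡ P7 P3`, `P6 P3 ≡ P7 P0`, so `P0 Bf ≡ 2 P7 P3 P9 - P7 P0 P10 - P7 P3 P9 ≡ P7 (P3 P9 - P0 P10) ≡ 0`; similarly `P3 Bf`.
(Each congruence is one explicit combination: use `Int.emod_emod_of_dvd`, or write `obtain ⟨k, hk⟩` and `linear_combination`.)
So `p ∣ Bf` and `p ∣ Df P` by `Df_V`.
-/

set_option autoImplicit false

namespace Pool.Agent.LBT

open Pool.Agent.PP5

theorem ndg (P : Sp) (hq : Qd P) (p : ℕ) (hp : p.Prime) (hN : (p : ℤ) ∣ Nf P) (ho : (p : ℤ) ∣ om P) :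
    (p : ℤ) ∣ Df P := by
  have := Fact.mk hp
  have c : ∀ x : ℤ, (p : ℤ) ∣ x ↔ (x : ZMod p) = 0 := fun x =>
    (ZMod.intCast_zmod_eq_zero_iff_dvd x p).symm
  have hN2 : (p : ℤ) ∣ P 7 ^ 2 - P 6 * P 8 := by rw [← Nf_R hq]; exact hN
  have hB : (p : ℤ) ∣ Bf P := by
    have hP := Bf_P hq
    have e1 := s1 hq
    have e2 := s2 hq
    rw [c] at hN hN2 ho ⊢
    unfold Nf at hN
    unfold om at ho
    by_cases h0 : (P 0 : ZMod p) = 0 ∧ (P 3 : ZMod p) = 0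
    · rw [hP]
      push_cast
      rw [h0.1, h0.2]
      ring
    · have f1 : ((P 6 * P 4 - P 7 * P 1 : ℤ) : ZMod p) = ((P 9 * P 3 - P 10 * P 0 : ℤ) : ZMod p) := by
        rw [e1]
      have f2 : ((P 7 * P 4 - P 8 * P 1 : ℤ) : ZMod p) = ((P 10 * P 3 - P 11 * P 0 : ℤ) : ZMod p) := by
        rw [e2]
      unfold Bf
      push_cast at hN hN2 ho f1 f2 ⊢
      have hu : (P 6 : ZMod p) * P 3 - P 7 * P 0 = 0 := by
        apply pow_eq_zero_iff (two_ne_zero) |>.1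
        linear_combination (P 6 : ZMod p) * ho + (P 0 : ZMod p) ^ 2 * hN2
      have hu' : (P 7 : ZMod p) * P 3 - P 8 * P 0 = 0 := by
        apply pow_eq_zero_iff (two_ne_zero) |>.1
        linear_combination (P 8 : ZMod p) * ho + (P 3 : ZMod p) ^ 2 * hN2
      have cancel : ∀ x : ZMod p, (P 0 : ZMod p) * x = 0 → (P 3 : ZMod p) * x = 0 → x = 0 := by
        intro x hx hy
        by_contra hne
        apply h0
        exact ⟨(mul_eq_zero.1 hx).resolve_right hne, (mul_eq_zero.1 hy).resolve_right hne⟩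
      have hx : (P 6 : ZMod p) * P 4 - P 7 * P 1 = 0 := by
        apply cancel
        · linear_combination (P 6 : ZMod p) * hN + (P 1 : ZMod p) * hu
        · linear_combination (P 7 : ZMod p) * hN + (P 4 : ZMod p) * hu
      have hx' : (P 7 : ZMod p) * P 4 - P 8 * P 1 = 0 := by
        apply cancel
        · linear_combination (P 7 : ZMod p) * hN + (P 1 : ZMod p) * hu'
        · linear_combination (P 8 : ZMod p) * hN + (P 4 : ZMod p) * hu'
      rw [hx] at f1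
      rw [hx'] at f2
      apply cancel
      · linear_combination (P 7 : ZMod p) * f1 - (P 10 : ZMod p) * hu - (P 6 : ZMod p) * f2 +
          (P 9 : ZMod p) * hu'
      · linear_combination -(P 7 : ZMod p) * f2 - (P 11 : ZMod p) * hu + (P 8 : ZMod p) * f1 +
          (P 10 : ZMod p) * hu'
  rw [Df_V hq]
  apply dvd_sub
  · exact dvd_pow hB two_ne_zero
  · exact Dvd.dvd.mul_right (Dvd.dvd.mul_left hN 4) _

end Pool.Agent.LBT
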