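import Pool.Agent.LBT.Act

/-!
# LBT/Nrm: points in a basis of `W` that contains the kernel of `P(e1, e1; .)`

PROOF of `nrm`.  `g = gcd (P 0, P 3) > 0` (`Nf P = P 0 P 4 - P 1 P 3 ≠ 0`).  `p = P 3 / g`, `q = - P 0 / g`, and Bezout: `r P 0 + s P 3 = g`
(`Int.gcd_eq_gcd_ab`); then `p s - q r = (P 3 s + P 0 r) / g = 1`.
PROOF of `nf1`..`nf4`: definitions and `Nf_R`, `Bf_P`, `Kf_R`, `s1`, `s3`.
PROOF of `shf`.  Let `R' = AW 1 0 n 1 R`; `Qd R'` (`AW_qd`), `R' 0 = 0`, `R' 3 = g`, `Nf, Bf, om, om2` of `R'` are those of `R`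
(`AW_*`), `R' 7 = R 7 + n R 6 = Q 7`, `R' 10 = Q 10`.  So it is enough to show `Q = R'`.  `Q 1 = R' 1`, `Q 2 = R' 2` by `nf1` (cancel `g`),
`Q 6 = R' 6 ≠ 0`, `Q 9 = R' 9` by `nf2`; `Q 6 Q 8 = Q 7 ^ 2 - Nf` gives `Q 8`; `Q 6 Q 11 = 2 Q 7 Q 10 - Q 8 Q 9 - Bf` gives `Q 11`;
`Q 6 Q 4 = Q 7 Q 1 + Q 9 g` gives `Q 4`; `Q 6 Q 5 = Q 7 Q 2 + Q 9 Q 4 - Q 10 Q 1` gives `Q 5`.
-/

set_option autoImplicit false

namespace Pool.Agent.LBT

open Pool.Agent.PP5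

theorem nrm (P : Sp) (hN : Nf P ≠ 0) : ∃ p q r s : ℤ, p * s - q * r = 1 ∧ AW p q r s P 0 = 0 ∧
    AW p q r s P 3 = (Int.gcd (P 0) (P 3) : ℤ) := by
  have hg : ((Int.gcd (P 0) (P 3) : ℕ) : ℤ) ≠ 0 := by
    intro h
    have h1 : Int.gcd (P 0) (P 3) = 0 := by exact_mod_cast h
    rw [Int.gcd_eq_zero_iff] at h1
    apply hN
    unfold Nf
    rw [h1.1, h1.2]
    ring
  obtain ⟨a, ha⟩ : ((Int.gcd (P 0) (P 3) : ℕ) : ℤ) ∣ P 0 := Int.gcd_dvd_left _ _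
  obtain ⟨b, hb⟩ : ((Int.gcd (P 0) (P 3) : ℕ) : ℤ) ∣ P 3 := Int.gcd_dvd_right _ _
  have hab := Int.gcd_eq_gcd_ab (P 0) (P 3)
  generalize ((Int.gcd (P 0) (P 3) : ℕ) : ℤ) = g at hg ha hb hab ⊢
  generalize Int.gcdA (P 0) (P 3) = r at hab
  generalize Int.gcdB (P 0) (P 3) = s at hab
  refine ⟨b, -a, r, s, ?_, ?_, ?_⟩
  · have h1 : g * (b * s - -a * r) = g * 1 := by
      rw [ha, hb] at hab
      linear_combination -hab
    exact mul_left_cancel₀ hg h1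
  · show b * P 0 + -a * P 3 = 0
    rw [ha, hb]
    ring
  · show r * P 0 + s * P 3 = g
    linear_combination -hab

theorem nf1 {Q : Sp} (h : Qd Q) (h0 : Q 0 = 0) : Nf Q = -(Q 3 * Q 1) ∧ Bf Q = -(Q 3 * Q 2) := by
  constructor
  · unfold Nf
    rw [h0]
    ring
  · rw [Bf_P h, h0]
    ring

theorem nf2 {Q : Sp} (h0 : Q 0 = 0) : om Q = Q 3 ^ 2 * Q 6 ∧ om2 Q = Q 3 ^ 2 * Q 9 := by
  constructor
  · unfold om
    rw [h0]
    ring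
  · unfold om2
    rw [h0]
    ring

/-- `B A' - B' A = (N / g) ^ 2` -/
theorem nf3 {Q : Sp} (h : Qd Q) (h0 : Q 0 = 0) : Q 7 * Q 9 - Q 6 * Q 10 = Q 1 ^ 2 := by
  have h1 := Kf_R h
  unfold Kf at h1
  rw [h0] at h1
  linear_combination -h1

theorem shf (Q R : Sp) (hQ : Qd Q) (hR : Qd R) (g n : ℤ) (hg : g ≠ 0) (q0 : Q 0 = 0) (r0 : R 0 = 0)
    (q3 : Q 3 = g) (r3 : R 3 = g) (hN : Nf Q = Nf R) (hB : Bf Q = Bf R) (ho : om Q = om R)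
    (ho2 : om2 Q = om2 R) (h0 : om Q ≠ 0) (h7 : Q 7 = R 7 + n * R 6) (h10 : Q 10 = R 10 + n * R 9) :
    Q = AW 1 0 n 1 R := by
  have hg2 : g ^ 2 ≠ 0 := pow_ne_zero 2 hg
  have e1 : Q 1 = R 1 := by
    have h1 := hN
    rw [(nf1 hQ q0).1, (nf1 hR r0).1, q3, r3] at h1
    apply mul_left_cancel₀ hg
    linear_combination -h1
  have e2 : Q 2 = R 2 := by
    have h1 := hB
    rw [(nf1 hQ q0).2, (nf1 hR r0).2, q3, r3] at h1
    apply mul_left_cancel₀ hg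
    linear_combination -h1
  have e6 : Q 6 = R 6 := by
    have h1 := ho
    rw [(nf2 q0).1, (nf2 r0).1, q3, r3] at h1
    exact mul_left_cancel₀ hg2 h1
  have e9 : Q 9 = R 9 := by
    have h1 := ho2
    rw [(nf2 q0).2, (nf2 r0).2, q3, r3] at h1
    exact mul_left_cancel₀ hg2 h1
  have h60 : R 6 ≠ 0 := by
    intro h
    apply h0
    rw [(nf2 q0).1, e6, h, mul_zero]
  have e8 : Q 8 = n ^ 2 * R 6 + 2 * n * R 7 + R 8 := by
    have h1 := hN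
    rw [Nf_R hQ, Nf_R hR, h7, e6] at h1
    apply mul_left_cancel₀ h60
    linear_combination -h1
  have e11 : Q 11 = n ^ 2 * R 9 + 2 * n * R 10 + R 11 := by
    have h1 := hB
    unfold Bf at h1
    rw [h7, h10, e6, e8, e9] at h1
    apply mul_left_cancel₀ h60
    linear_combination -h1
  have e4 : Q 4 = n * R 1 + R 4 := by
    have h1 := hQ.h7
    have h2 := hR.h7
    rw [q0, q3, e6, e1, e9, h7] at h1
    rw [r0, r3] at h2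
    apply mul_left_cancel₀ h60
    linear_combination h1 - h2
  have e5 : Q 5 = n * R 2 + R 5 := by
    have h1 := hQ.h8
    have h2 := hR.h8
    rw [e6, e4, e9, e1, h10, h7, e2] at h1
    apply mul_left_cancel₀ h60
    linear_combination h1 - h2
  funext i
  fin_cases i
  · show Q 0 = 1 * R 0 + 0 * R 3
    rw [q0, r0]
    ring
  · show Q 1 = 1 * R 1 + 0 * R 4
    rw [e1]
    ring
  · show Q 2 = 1 * R 2 + 0 * R 5
    rw [e2]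
    ring
  · show Q 3 = n * R 0 + 1 * R 3
    rw [q3, r0, r3]
    ring
  · show Q 4 = n * R 1 + 1 * R 4
    rw [e4]
    ring
  · show Q 5 = n * R 2 + 1 * R 5
    rw [e5]
    ring
  · show Q 6 = 1 ^ 2 * R 6 + 2 * 1 * 0 * R 7 + 0 ^ 2 * R 8
    rw [e6]
    ring
  · show Q 7 = 1 * n * R 6 + (1 * 1 + 0 * n) * R 7 + 0 * 1 * R 8
    rw [h7]
    ring
  · show Q 8 = n ^ 2 * R 6 + 2 * n * 1 * R 7 + 1 ^ 2 * R 8
    rw [e8]
    ring
  · show Q 9 = 1 ^ 2 * R 9 + 2 * 1 * 0 * R 10 + 0 ^ 2 * R 11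
    rw [e9]
    ring
  · show Q 10 = 1 * n * R 9 + (1 * 1 + 0 * n) * R 10 + 0 * 1 * R 11
    rw [h10]
    ring
  · show Q 11 = n ^ 2 * R 9 + 2 * n * 1 * R 10 + 1 ^ 2 * R 11
    rw [e11]
    ring

end Pool.Agent.LBT
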